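import Pool.Agent.KakeyaSticky.Defs

/-!
The arrangement lemma (greedy exponential moments) for the Kakeya / stickiness result.
-/

namespace Pool.Agent.KakeyaSticky

open Set Metric MeasureTheory

lemma exp_le_one_add {y : ℝ} (h0 : 0 ≤ y) (h1 : y ≤ 1) : Real.exp y ≤ 1 + 2 * y := by
  have h := convexOn_exp.2 (Set.mem_univ (0:ℝ)) (Set.mem_univ (1:ℝ)) (sub_nonneg.2 h1) h0
    (by ring)
  simp only [smul_eq_mul, mul_zero, mul_one, zero_add, Real.exp_zero] at h
  have he : Real.exp 1 ≤ 3 := le_trans Real.exp_one_lt_d9.le (by norm_num)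
  nlinarith

/-- One greedy step. -/
lemma greedy_step {α : Type*} [MeasurableSpace α] (μ : Measure α) {I : Type*} [Fintype I]
    (Q : Set α) (hQ : MeasurableSet Q) (hQ0 : μ Q ≠ 0) (hQtop : μ Q ≠ ⊤)
    (Y : I → α → ℝ) (hY0 : ∀ i v, 0 ≤ Y i v) (hY1 : ∀ i v, Y i v ≤ 1)
    (hYm : ∀ i, Measurable (Y i)) (w : I → ℝ) (hw : ∀ i, 0 ≤ w i) :
    ∃ v ∈ Q, ∑ i, w i * Real.exp (Y i v - 2 * ((∫ x in Q, Y i x ∂μ) / μ.real Q)) ≤ ∑ i, w i := by
  classical
  have hfin : IsFiniteMeasure (μ.restrict Q) := ⟨by simpa using hQtop.lt_top⟩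
  have hvol : 0 < μ.real Q := ENNReal.toReal_pos hQ0 hQtop
  set m : I → ℝ := fun i => (∫ x in Q, Y i x ∂μ) / μ.real Q with hm
  have hm0 : ∀ i, 0 ≤ m i := fun i =>
    div_nonneg (integral_nonneg (hY0 i)) hvol.le
  have hYint : ∀ i, IntegrableOn (Y i) Q μ := by
    intro i
    refine Integrable.mono' (g := fun _ => (1:ℝ)) (integrable_const _)
      (hYm i).aestronglyMeasurable ?_
    refine Filter.Eventually.of_forall fun v => ?_
    rw [Real.norm_eq_abs, abs_of_nonneg (hY0 i v)]
    exact hY1 i v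
  have hEm : ∀ i, Measurable fun v => Real.exp (Y i v) := fun i =>
    Real.measurable_exp.comp (hYm i)
  have hEint : ∀ i, IntegrableOn (fun v => Real.exp (Y i v)) Q μ := by
    intro i
    refine Integrable.mono' (g := fun _ => Real.exp 1) (integrable_const _)
      (hEm i).aestronglyMeasurable ?_
    refine Filter.Eventually.of_forall fun v => ?_
    rw [Real.norm_eq_abs, abs_of_nonneg (Real.exp_pos _).le]
    exact Real.exp_le_exp.2 (hY1 i v)
  have hEbound : ∀ i, ∫ v in Q, Real.exp (Y i v) ∂μ ≤ μ.real Q * (1 + 2 * m i) := by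
    intro i
    have h1 : ∫ v in Q, Real.exp (Y i v) ∂μ ≤ ∫ v in Q, (1 + 2 * Y i v) ∂μ := by
      refine integral_mono (hEint i) ?_ fun v => exp_le_one_add (hY0 i v) (hY1 i v)
      exact (integrable_const _).add ((hYint i).const_mul 2)
    have h2 : ∫ v in Q, (1 + 2 * Y i v) ∂μ = μ.real Q + 2 * ∫ v in Q, Y i v ∂μ := by
      rw [integral_add (integrable_const _) ((hYint i).const_mul 2), integral_const_mul]
      simp [Measure.real]
    rw [h2] at h1
    refine h1.trans (le_of_eq ?_)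
    simp only [hm]
    field_simp
  set f : α → ℝ := fun v => ∑ i, w i * Real.exp (Y i v - 2 * m i) with hf
  have hfeq : f = fun v => ∑ i, (w i * Real.exp (-(2 * m i))) * Real.exp (Y i v) := by
    funext v
    simp only [hf]
    refine Finset.sum_congr rfl fun i _ => ?_
    rw [sub_eq_add_neg, Real.exp_add]
    ring
  have hfint : IntegrableOn f Q μ := by
    rw [hfeq]
    exact integrable_finsetSum _ fun i _ => (hEint i).const_mul _
  obtain ⟨v, hvQ, hv⟩ := exists_le_setAverage hQ0 hQtop hfint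
  refine ⟨v, hvQ, hv.trans ?_⟩
  rw [setAverage_eq, smul_eq_mul, inv_mul_le_iff₀ hvol]
  have hI : ∫ v in Q, f v ∂μ
      = ∑ i, (w i * Real.exp (-(2 * m i))) * ∫ v in Q, Real.exp (Y i v) ∂μ := by
    rw [hfeq, integral_finsetSum _ fun i _ => (hEint i).const_mul _]
    refine Finset.sum_congr rfl fun i _ => ?_
    rw [integral_const_mul]
  rw [hI, Finset.mul_sum]
  refine Finset.sum_le_sum fun i _ => ?_
  have hc : 0 ≤ w i * Real.exp (-(2 * m i)) := mul_nonneg (hw i) (Real.exp_pos _).le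
  calc (w i * Real.exp (-(2 * m i))) * ∫ v in Q, Real.exp (Y i v) ∂μ
      ≤ (w i * Real.exp (-(2 * m i))) * (μ.real Q * (1 + 2 * m i)) :=
        mul_le_mul_of_nonneg_left (hEbound i) hc
    _ = μ.real Q * w i * (Real.exp (-(2 * m i)) * (2 * m i + 1)) := by ring
    _ ≤ μ.real Q * w i * 1 := by
        refine mul_le_mul_of_nonneg_left ?_ (mul_nonneg hvol.le (hw i))
        calc Real.exp (-(2 * m i)) * (2 * m i + 1)
            ≤ Real.exp (-(2 * m i)) * Real.exp (2 * m i) :=
              mul_le_mul_of_nonneg_left (Real.add_one_le_exp _) (Real.exp_pos _).le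
          _ = 1 := by rw [← Real.exp_add]; simp
    _ = μ.real Q * w i := by ring

theorem exists_arrangement {n : ℕ} {T I : Type*} [Fintype T] [Fintype I]
    (Q : Set (EuclideanSpace ℝ (Fin n))) (hQ : MeasurableSet Q) (hQ0 : volume Q ≠ 0)
    (hQtop : volume Q ≠ ⊤) (Y : I → T → EuclideanSpace ℝ (Fin n) → ℝ)
    (hY0 : ∀ i u v, 0 ≤ Y i u v) (hY1 : ∀ i u v, Y i u v ≤ 1)
    (hYm : ∀ i u, Measurable (Y i u)) (κ : I → ℝ)
    (hκ : ∀ i, ∑ u, ∫ v in Q, Y i u v ≤ κ i * (volume Q).toReal) :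
    ∃ v : T → EuclideanSpace ℝ (Fin n), (∀ u, v u ∈ Q) ∧
      ∀ i, ∑ u, Y i u (v u) ≤ 2 * κ i + Real.log (Fintype.card I) := by
  classical
  have hvol : 0 < (volume : Measure (EuclideanSpace ℝ (Fin n))).real Q :=
    ENNReal.toReal_pos hQ0 hQtop
  obtain ⟨q, hq⟩ : Q.Nonempty := nonempty_of_measure_ne_zero hQ0
  set m : I → T → ℝ := fun i u =>
    (∫ x in Q, Y i u x) / (volume : Measure (EuclideanSpace ℝ (Fin n))).real Q with hm
  have key : ∀ S : Finset T, ∃ v : T → EuclideanSpace ℝ (Fin n), (∀ u, v u ∈ Q) ∧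
      ∑ i, Real.exp (∑ u ∈ S, (Y i u (v u) - 2 * m i u)) ≤ Fintype.card I := by
    intro S
    induction S using Finset.induction_on with
    | empty =>
      refine ⟨fun _ => q, fun _ => hq, ?_⟩
      simp
    | insert a S ha ih =>
      obtain ⟨v, hvQ, hv⟩ := ih
      obtain ⟨y, hyQ, hy⟩ := greedy_step (volume : Measure (EuclideanSpace ℝ (Fin n))) Q hQ hQ0
        hQtop (fun i => Y i a) (fun i => hY0 i a) (fun i => hY1 i a) (fun i => hYm i a)
        (fun i => Real.exp (∑ u ∈ S, (Y i u (v u) - 2 * m i u))) (fun i => (Real.exp_pos _).le)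
      refine ⟨Function.update v a y, ?_, ?_⟩
      · intro u
        by_cases h : u = a
        · subst h; simpa using hyQ
        · simpa [Function.update_of_ne h] using hvQ u
      · refine le_trans (le_of_eq ?_) (hy.trans hv)
        refine Finset.sum_congr rfl fun i _ => ?_
        rw [Finset.sum_insert ha, add_comm, Real.exp_add]
        congr 1
        · congr 1
          refine Finset.sum_congr rfl fun u hu => ?_
          have hne : u ≠ a := fun h => ha (h ▸ hu)
          rw [Function.update_of_ne hne]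
        · simp [hm]
  obtain ⟨v, hvQ, hv⟩ := key Finset.univ
  refine ⟨v, hvQ, fun i => ?_⟩
  have h1 : Real.exp (∑ u, (Y i u (v u) - 2 * m i u)) ≤ Fintype.card I :=
    le_trans (Finset.single_le_sum
      (f := fun i => Real.exp (∑ u, (Y i u (v u) - 2 * m i u)))
      (fun j _ => (Real.exp_pos _).le) (Finset.mem_univ i)) hv
  have h2 : ∑ u, (Y i u (v u) - 2 * m i u) ≤ Real.log (Fintype.card I) := by
    have h3 := Real.log_le_log (Real.exp_pos _) h1
    rwa [Real.log_exp] at h3
  have h4 : ∑ u, m i u ≤ κ i := by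
    have h5 := hκ i
    simp only [hm]
    rw [← Finset.sum_div, div_le_iff₀ hvol]
    exact h5
  rw [Finset.sum_sub_distrib, ← Finset.mul_sum] at h2
  linarith

end Pool.Agent.KakeyaSticky
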