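import Pool.Agent.KakeyaSticky.Defs

/-!
A compact Lebesgue-null set containing a unit segment in every direction of `ℝⁿ`, `n ≥ 2`.
-/

namespace Pool.Agent.KakeyaSticky

open Set Metric MeasureTheory Real

variable {n : ℕ}


/-- A slowly varying dense sequence in `[0,1]`. -/
noncomputable def phi (j : ℕ) : ℝ :=
  (TopologicalSpace.denseSeq (Icc (0:ℝ) 1) ((Nat.log 2 j).unpair.1) : ℝ)

theorem phi_mem (j : ℕ) : phi j ∈ Icc (0:ℝ) 1 :=
  (TopologicalSpace.denseSeq (Icc (0:ℝ) 1) ((Nat.log 2 j).unpair.1)).2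

theorem phi_slow {x : ℝ} (hx : x ∈ Icc (0:ℝ) 1) {ε : ℝ} (hε : 0 < ε) (M : ℕ) :
    ∃ N : ℕ, ∀ j, N ≤ j → j < N + M → |x - phi j| ≤ ε := by
  obtain ⟨i, hi⟩ := (TopologicalSpace.denseRange_denseSeq (Icc (0:ℝ) 1)).exists_dist_lt
    (⟨x, hx⟩ : Icc (0:ℝ) 1) hε
  have hk : M ≤ Nat.pair i M := Nat.right_le_pair i M
  refine ⟨2 ^ (Nat.pair i M), fun j hj1 hj2 => ?_⟩
  have hlog : Nat.log 2 j = Nat.pair i M := by
    apply Nat.log_eq_of_pow_le_of_lt_pow hj1
    have h1 : M < 2 ^ (Nat.pair i M) := lt_of_le_of_lt hk Nat.lt_two_pow_self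
    rw [pow_succ]
    omega
  have h2 : phi j = (TopologicalSpace.denseSeq (Icc (0:ℝ) 1) i : ℝ) := by
    unfold phi
    rw [hlog, Nat.unpair_pair]
  rw [Subtype.dist_eq, Real.dist_eq] at hi
  rw [h2]
  exact hi.le

/-- the intercept -/
noncomputable def fint (a : ℕ → Fin 2) : ℝ := ∑' j, ofDigitsTerm a j * phi j

theorem term_le (a : ℕ → Fin 2) (j : ℕ) : ofDigitsTerm a j ≤ ((2:ℝ) ^ (j + 1))⁻¹ := by
  have h := ofDigitsTerm_le (digits := a) (n := j)
  push_cast at h
  linarith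

theorem abs_mul_le (a : ℕ → Fin 2) (j : ℕ) {y c : ℝ} (hy : |y| ≤ c) :
    |ofDigitsTerm a j * y| ≤ ((2:ℝ) ^ (j + 1))⁻¹ * c := by
  rw [abs_mul, abs_of_nonneg ofDigitsTerm_nonneg]
  exact mul_le_mul (term_le a j) hy (abs_nonneg _) (by positivity)

theorem summable_geo : Summable fun j : ℕ => ((2:ℝ) ^ (j + 1))⁻¹ := by
  have : (fun j : ℕ => ((2:ℝ) ^ (j + 1))⁻¹) = fun j : ℕ => (1 / 2 : ℝ) * (1 / 2 : ℝ) ^ j := by
    funext j
    rw [← pow_succ', one_div, inv_pow]
  rw [this]
  exact (summable_geometric_of_lt_one (by norm_num) (by norm_num)).mul_left _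

theorem abs_phi_le (j : ℕ) : |phi j| ≤ 1 := by
  rw [abs_of_nonneg (phi_mem j).1]; exact (phi_mem j).2

theorem summable_fint (a : ℕ → Fin 2) : Summable fun j => ofDigitsTerm a j * phi j :=
  Summable.of_norm_bounded (summable_geo.mul_right 1) fun j => by
    rw [Real.norm_eq_abs]
    exact abs_mul_le a j (abs_phi_le j)

theorem continuous_fint : Continuous fint := by
  unfold fint
  refine continuous_tsum (u := fun j => ((2:ℝ) ^ (j + 1))⁻¹ * 1) ?_ (summable_geo.mul_right 1) ?_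
  · intro j
    simp only [ofDigitsTerm]
    fun_prop
  · intro j a
    rw [Real.norm_eq_abs]
    exact abs_mul_le a j (abs_phi_le j)

/-- height at `x` of the line with digits `a` -/
noncomputable def G (x : ℝ) (a : ℕ → Fin 2) : ℝ := x * ofDigits a - fint a

theorem hasSum_G (x : ℝ) (a : ℕ → Fin 2) :
    HasSum (fun j => ofDigitsTerm a j * (x - phi j)) (G x a) := by
  have h1 : HasSum (fun j => x * ofDigitsTerm a j) (x * ofDigits a) :=
    (summable_ofDigitsTerm (digits := a)).hasSum.mul_left x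
  have h2 : HasSum (fun j => ofDigitsTerm a j * phi j) (fint a) := (summable_fint a).hasSum
  have h3 := h1.sub h2
  have h4 : (fun j => ofDigitsTerm a j * (x - phi j)) =
      fun j => x * ofDigitsTerm a j - ofDigitsTerm a j * phi j := by
    funext j; ring
  rw [h4]
  exact h3

theorem abs_x_sub_phi_le {x : ℝ} (hx : x ∈ Icc (0:ℝ) 1) (j : ℕ) : |x - phi j| ≤ 1 := by
  have h1 := phi_mem j
  rw [abs_le]
  constructor <;> linarith [hx.1, hx.2, h1.1, h1.2]

theorem sum_geo (N M : ℕ) : ∑ j ∈ Finset.Ico N (N + M), ((2:ℝ) ^ (j + 1))⁻¹ ≤ ((2:ℝ) ^ N)⁻¹ := by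
  have h : ∀ M : ℕ, ∑ j ∈ Finset.Ico N (N + M), ((2:ℝ) ^ (j + 1))⁻¹ =
      ((2:ℝ) ^ N)⁻¹ - ((2:ℝ) ^ (N + M))⁻¹ := by
    intro M
    induction M with
    | zero => simp
    | succ M ih =>
      rw [← add_assoc, Finset.sum_Ico_succ_top (by omega), ih, pow_succ, mul_inv]
      ring
  rw [h M]
  have : 0 < ((2:ℝ) ^ (N + M))⁻¹ := by positivity
  linarith

theorem abs_G_sub_partial_le {x : ℝ} (hx : x ∈ Icc (0:ℝ) 1) (a : ℕ → Fin 2) (K : ℕ) :
    |G x a - ∑ j ∈ Finset.range K, ofDigitsTerm a j * (x - phi j)| ≤ ((2:ℝ) ^ K)⁻¹ := by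
  have h := hasSum_G x a
  have h1 : Filter.Tendsto (fun L => |(∑ j ∈ Finset.range (K + L), ofDigitsTerm a j * (x - phi j)) -
      ∑ j ∈ Finset.range K, ofDigitsTerm a j * (x - phi j)|) Filter.atTop
      (nhds |G x a - ∑ j ∈ Finset.range K, ofDigitsTerm a j * (x - phi j)|) := by
    apply Filter.Tendsto.abs
    apply Filter.Tendsto.sub_const
    have := h.tendsto_sum_nat
    have h2 := (Filter.tendsto_add_atTop_iff_nat K).2 this
    simpa [add_comm] using h2
  refine le_of_tendsto' h1 fun L => ?_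
  rw [← Finset.sum_Ico_eq_sub _ (by omega : K ≤ K + L)]
  calc |∑ j ∈ Finset.Ico K (K + L), ofDigitsTerm a j * (x - phi j)|
      ≤ ∑ j ∈ Finset.Ico K (K + L), |ofDigitsTerm a j * (x - phi j)| :=
        Finset.abs_sum_le_sum_abs _ _
    _ ≤ ∑ j ∈ Finset.Ico K (K + L), ((2:ℝ) ^ (j + 1))⁻¹ := by
        apply Finset.sum_le_sum
        intro j _
        have := abs_mul_le a j (abs_x_sub_phi_le hx j)
        rwa [mul_one] at this
    _ ≤ _ := sum_geo K L

theorem abs_partial_sub_partial_le {x ε : ℝ} (hε : 0 ≤ ε) (a : ℕ → Fin 2) (N M : ℕ)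
    (hN : ∀ j, N ≤ j → j < N + M → |x - phi j| ≤ ε) :
    |(∑ j ∈ Finset.range (N + M), ofDigitsTerm a j * (x - phi j)) -
      ∑ j ∈ Finset.range N, ofDigitsTerm a j * (x - phi j)| ≤ ((2:ℝ) ^ N)⁻¹ * ε := by
  rw [← Finset.sum_Ico_eq_sub _ (by omega : N ≤ N + M)]
  calc |∑ j ∈ Finset.Ico N (N + M), ofDigitsTerm a j * (x - phi j)|
      ≤ ∑ j ∈ Finset.Ico N (N + M), |ofDigitsTerm a j * (x - phi j)| :=
        Finset.abs_sum_le_sum_abs _ _
    _ ≤ ∑ j ∈ Finset.Ico N (N + M), ((2:ℝ) ^ (j + 1))⁻¹ * ε := by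
        apply Finset.sum_le_sum
        intro j hj
        rw [Finset.mem_Ico] at hj
        exact abs_mul_le a j (hN j hj.1 hj.2)
    _ = (∑ j ∈ Finset.Ico N (N + M), ((2:ℝ) ^ (j + 1))⁻¹) * ε := by rw [Finset.sum_mul]
    _ ≤ _ := by
        gcongr
        exact sum_geo N M

theorem volume_slice_le {x : ℝ} (hx : x ∈ Icc (0:ℝ) 1) (c : ℝ) {ε : ℝ} (hε : 0 < ε) (M : ℕ) :
    volume {t : ℝ | ∃ a : ℕ → Fin 2, t = 2 * G x a - c} ≤
      ENNReal.ofReal (4 * (ε + ((2:ℝ) ^ M)⁻¹)) := by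
  obtain ⟨N, hN⟩ := phi_slow hx hε M
  set r : ℝ := ((2:ℝ) ^ N)⁻¹ * (ε + ((2:ℝ) ^ M)⁻¹) with hr
  let ctr : (Fin N → Fin 2) → ℝ := fun w =>
    2 * (∑ j : Fin N, ((w j : ℕ) : ℝ) * ((2:ℝ) ^ ((j : ℕ) + 1))⁻¹ * (x - phi j)) - c
  have hsub : {t : ℝ | ∃ a : ℕ → Fin 2, t = 2 * G x a - c} ⊆
      ⋃ w : Fin N → Fin 2, closedBall (ctr w) (2 * r) := by
    rintro t ⟨a, rfl⟩
    refine mem_iUnion.2 ⟨fun j => a j, ?_⟩
    rw [mem_closedBall, Real.dist_eq]
    have h1 := abs_G_sub_partial_le hx a (N + M)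
    have h2 := abs_partial_sub_partial_le hε.le a N M hN
    have h3 : ctr (fun j => a j) =
        2 * (∑ j ∈ Finset.range N, ofDigitsTerm a j * (x - phi j)) - c := by
      show 2 * (∑ j : Fin N, ((a j : ℕ) : ℝ) * ((2:ℝ) ^ ((j : ℕ) + 1))⁻¹ * (x - phi j)) - c = _
      rw [Finset.sum_range]
      simp only [ofDigitsTerm]
      push_cast
      rfl
    rw [h3]
    have h4 : |G x a - ∑ j ∈ Finset.range N, ofDigitsTerm a j * (x - phi j)| ≤ r := by
      have h5 := abs_sub_le (G x a) (∑ j ∈ Finset.range (N + M), ofDigitsTerm a j * (x - phi j))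
        (∑ j ∈ Finset.range N, ofDigitsTerm a j * (x - phi j))
      rw [hr, mul_add, ← mul_inv, ← pow_add]
      linarith
    have h6 : 2 * G x a - c - (2 * (∑ j ∈ Finset.range N, ofDigitsTerm a j * (x - phi j)) - c) =
        2 * (G x a - ∑ j ∈ Finset.range N, ofDigitsTerm a j * (x - phi j)) := by ring
    rw [h6, abs_mul, abs_of_pos (by norm_num : (0:ℝ) < 2)]
    linarith
  calc volume {t : ℝ | ∃ a : ℕ → Fin 2, t = 2 * G x a - c}
      ≤ volume (⋃ w : Fin N → Fin 2, closedBall (ctr w) (2 * r)) := measure_mono hsub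
    _ ≤ ∑' w : Fin N → Fin 2, volume (closedBall (ctr w) (2 * r)) := measure_iUnion_le _
    _ = ∑ w : Fin N → Fin 2, ENNReal.ofReal (2 * (2 * r)) := by
        rw [tsum_fintype]
        apply Finset.sum_congr rfl
        intro w _
        rw [Real.volume_closedBall]
    _ = ENNReal.ofReal (4 * (ε + ((2:ℝ) ^ M)⁻¹)) := by
        rw [Finset.sum_const, nsmul_eq_mul, Finset.card_univ, Fintype.card_fun, Fintype.card_fin,
          Fintype.card_fin, ← ENNReal.ofReal_natCast, ← ENNReal.ofReal_mul (by positivity)]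
        congr 1
        rw [hr]
        push_cast
        field_simp
        ring

theorem volume_slice {x : ℝ} (hx : x ∈ Icc (0:ℝ) 1) (c : ℝ) :
    volume {t : ℝ | ∃ a : ℕ → Fin 2, t = 2 * G x a - c} = 0 := by
  have h1 : Filter.Tendsto (fun M : ℕ => ENNReal.ofReal (4 * (((2:ℝ) ^ M)⁻¹ + ((2:ℝ) ^ M)⁻¹)))
      Filter.atTop (nhds (ENNReal.ofReal (4 * (0 + 0)))) := by
    apply ENNReal.tendsto_ofReal
    have h0 : Filter.Tendsto (fun M : ℕ => ((2:ℝ) ^ M)⁻¹) Filter.atTop (nhds 0) := by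
      have := tendsto_pow_atTop_nhds_zero_of_lt_one (r := (1/2 : ℝ)) (by norm_num) (by norm_num)
      refine this.congr fun M => ?_
      rw [one_div, inv_pow]
    exact (h0.add h0).const_mul 4
  have h2 : volume {t : ℝ | ∃ a : ℕ → Fin 2, t = 2 * G x a - c} ≤ ENNReal.ofReal (4 * (0 + 0)) :=
    ge_of_tendsto' h1 fun M => volume_slice_le hx c (by positivity) M
  simpa using h2

/-- parametrisation of the piece with large `i`-th coordinate -/
noncomputable def bmap (i : Fin n) (q : ℝ × (Fin n → ℕ → Fin 2)) : (EuclideanSpace ℝ (Fin n)) :=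
  WithLp.toLp 2 (fun k => if k = i then q.1 else 2 * G q.1 (q.2 k) - q.1)

theorem continuous_bmap (i : Fin n) : Continuous (bmap i) := by
  unfold bmap
  refine (PiLp.continuous_toLp 2 _).comp ?_
  refine continuous_pi fun k => ?_
  by_cases hk : k = i
  · simp only [hk, if_true]
    exact continuous_fst
  · simp only [hk, if_false]
    unfold G
    have h1 : Continuous fun q : ℝ × (Fin n → ℕ → Fin 2) => ofDigits (q.2 k) :=
      continuous_ofDigits.comp ((continuous_apply k).comp continuous_snd)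
    have h2 : Continuous fun q : ℝ × (Fin n → ℕ → Fin 2) => fint (q.2 k) :=
      continuous_fint.comp ((continuous_apply k).comp continuous_snd)
    exact (continuous_const.mul ((continuous_fst.mul h1).sub h2)).sub continuous_fst

/-- the `i`-th piece -/
def bpiece (i : Fin n) : Set (EuclideanSpace ℝ (Fin n)) := bmap i '' (Icc (0:ℝ) 1 ×ˢ univ)

theorem isCompact_bpiece (i : Fin n) : IsCompact (bpiece i) :=
  (isCompact_Icc.prod isCompact_univ).image (continuous_bmap i)

theorem volume_bpiece (hn : 2 ≤ n) (i : Fin n) : volume (bpiece i) = 0 := by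
  obtain ⟨k, hk⟩ : ∃ k : Fin n, k ≠ i := by
    have : Nontrivial (Fin n) := Fin.nontrivial_iff_two_le.2 hn
    exact exists_ne i
  have hmeas : MeasurableSet (bpiece i)ᶜ := (isCompact_bpiece i).isClosed.measurableSet.compl
  have h := ae_mem_of_ae_add_linearMap_mem
    (L := (LinearMap.id : ℝ →ₗ[ℝ] ℝ).smulRight (EuclideanSpace.single k (1:ℝ) : (EuclideanSpace ℝ (Fin n))))
    (μ := (volume : Measure ℝ)) (ν := (volume : Measure (EuclideanSpace ℝ (Fin n)))) hmeas (by
      intro y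
      rw [ae_iff]
      by_cases hy : y i ∈ Icc (0:ℝ) 1
      · refine measure_mono_null ?_ (volume_slice hy (y i + y k))
        intro t ht
        simp only [mem_compl_iff, not_not] at ht
        obtain ⟨q, hq, hq2⟩ := ht
        have e1 : (bmap i q) i = y i := by
          rw [hq2]
          simp [hk.symm]
        have e2 : (bmap i q) k = y k + t := by
          rw [hq2]
          simp
        have e3 : (bmap i q) i = q.1 := by simp [bmap]
        have e4 : (bmap i q) k = 2 * G q.1 (q.2 k) - q.1 := by simp [bmap, hk]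
        refine ⟨q.2 k, ?_⟩
        rw [← e1, e3]
        rw [e4] at e2
        linarith
      · refine measure_mono_null ?_ (measure_empty (μ := (volume : Measure ℝ)))
        intro t ht
        simp only [mem_compl_iff, not_not] at ht
        obtain ⟨q, hq, hq2⟩ := ht
        have e1 : (bmap i q) i = y i := by
          rw [hq2]
          simp [hk.symm]
        have e3 : (bmap i q) i = q.1 := by simp [bmap]
        exact absurd (by rw [← e1, e3]; exact hq.1) hy)
  rw [ae_iff] at h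
  simpa using h

/-- The null Kakeya set. -/
def besic (n : ℕ) : Set (EuclideanSpace ℝ (Fin n)) := ⋃ i : Fin n, bpiece i

theorem isKakeya_besic (hn : 2 ≤ n) : IsKakeya (besic n) := by
  have hne : Nonempty (Fin n) := ⟨⟨0, by omega⟩⟩
  refine ⟨isCompact_iUnion fun i => isCompact_bpiece i, fun e he => ?_⟩
  obtain ⟨i, hi⟩ := Finite.exists_max (fun k => |e k|)
  have hei : 0 < |e i| := by
    by_contra hcon
    push Not at hcon
    have h0 : e = 0 := by
      ext k
      have := (hi k).trans hcon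
      simpa using abs_nonpos_iff.1 this
    rw [h0, norm_zero] at he
    exact zero_ne_one he
  have hei1 : |e i| ≤ 1 := by
    have := PiLp.norm_apply_le e i
    rwa [he, Real.norm_eq_abs] at this
  have hei0 : e i ≠ 0 := abs_pos.1 hei
  have hslope : ∀ k, ∃ a : ℕ → Fin 2, 2 * ofDigits a - 1 = e k / e i := by
    intro k
    have h1 : |e k / e i| ≤ 1 := by
      rw [abs_div, div_le_one hei]; exact hi k
    have h2 := abs_le.1 h1
    obtain ⟨a, _, ha⟩ := ofDigits_SurjOn (b := 2) (by norm_num)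
      (show (e k / e i + 1) / 2 ∈ Icc (0:ℝ) 1 by constructor <;> linarith)
    exact ⟨a, by rw [ha]; ring⟩
  choose a ha using hslope
  have hline : ∀ (x t : ℝ), bmap i (x, a) + t • e = bmap i (x + t * e i, a) := by
    intro x t
    ext k
    by_cases hk : k = i
    · subst hk
      simp [bmap]
    · have h1 : (bmap i (x, a) + t • e) k = (2 * G x (a k) - x) + t * e k := by
        simp [bmap, hk]
      have h2 : (bmap i (x + t * e i, a)) k =
          2 * G (x + t * e i) (a k) - (x + t * e i) := by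
        simp [bmap, hk]
      rw [h1, h2]
      unfold G
      have h3 : e k = (2 * ofDigits (a k) - 1) * e i := by
        rw [ha k]; field_simp
      rw [h3]
      ring
  have hmem : ∀ x ∈ Icc (0:ℝ) 1, bmap i (x, a) ∈ besic n := fun x hx =>
    mem_iUnion.2 ⟨i, (x, a), ⟨hx, mem_univ _⟩, rfl⟩
  rcases lt_or_gt_of_ne hei0 with hneg | hpos
  · refine ⟨bmap i (1, a), fun t ht => ?_⟩
    rw [hline]
    apply hmem
    rw [abs_of_neg hneg] at hei1
    constructor <;> nlinarith [ht.1, ht.2]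
  · refine ⟨bmap i (0, a), fun t ht => ?_⟩
    rw [hline]
    apply hmem
    rw [abs_of_pos hpos] at hei1
    constructor <;> nlinarith [ht.1, ht.2]

theorem volume_besic (hn : 2 ≤ n) : volume (besic n) = 0 := by
  unfold besic
  rw [measure_iUnion_null_iff]
  exact fun i => volume_bpiece hn i

end Pool.Agent.KakeyaSticky
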