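import Pool.Agent.KakeyaSticky.Defs

/-!
A compact null set for `μH[s]` has thickenings of small `s`-content.
-/

namespace Pool.Agent.KakeyaSticky

open Set Metric MeasureTheory

lemma exists_thickening_ediam {n : ℕ} {s : ℝ} (hs : 0 < s) (t : Set (EuclideanSpace ℝ (Fin n)))
    (ht : Metric.ediam t ≤ 1) {ε : ENNReal} (hε : 0 < ε) :
    ∃ δ : ℝ, 0 < δ ∧ Metric.ediam (Metric.thickening δ t) ^ s ≤ Metric.ediam t ^ s + ε := by
  have htop : Metric.ediam t ^ s ≠ ⊤ :=
    ENNReal.rpow_ne_top_of_nonneg hs.le (ne_top_of_le_ne_top ENNReal.one_ne_top ht)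
  have hcont : Filter.Tendsto (fun x : NNReal => (Metric.ediam t + 2 * (x : ENNReal)) ^ s)
      (nhds 0) (nhds (Metric.ediam t ^ s)) := by
    have h1 : Filter.Tendsto (fun x : NNReal => Metric.ediam t + 2 * (x : ENNReal)) (nhds 0)
        (nhds (Metric.ediam t + 2 * ((0 : NNReal) : ENNReal))) := by
      refine Filter.Tendsto.add tendsto_const_nhds ?_
      refine ENNReal.Tendsto.const_mul ?_ (Or.inr (by norm_num))
      exact (ENNReal.continuous_coe.tendsto 0)
    have h2 := (ENNReal.continuous_rpow_const (y := s)).tendsto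
      (Metric.ediam t + 2 * ((0 : NNReal) : ENNReal))
    have h3 := h2.comp h1
    simp only [ENNReal.coe_zero, mul_zero, add_zero] at h3
    exact h3
  have hlt : Metric.ediam t ^ s < Metric.ediam t ^ s + ε :=
    ENNReal.lt_add_right htop hε.ne'
  have hev : ∀ᶠ x : NNReal in nhds 0, (Metric.ediam t + 2 * (x : ENNReal)) ^ s
      < Metric.ediam t ^ s + ε := hcont.eventually_lt_const hlt
  obtain ⟨U, hU, hU0⟩ := Filter.eventually_iff_exists_mem.1 hev
  obtain ⟨r, hr, hrU⟩ := Metric.mem_nhds_iff.1 hU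
  obtain ⟨x, hx⟩ : ∃ x : NNReal, (x : ℝ) = r / 2 := ⟨⟨r / 2, (half_pos hr).le⟩, rfl⟩
  have hxU : x ∈ U := by
    apply hrU
    rw [Metric.mem_ball, NNReal.dist_eq, hx, NNReal.coe_zero, sub_zero,
      abs_of_pos (half_pos hr)]
    exact half_lt_self hr
  refine ⟨r / 2, half_pos hr, ?_⟩
  have h4 : Metric.ediam (Metric.thickening (r / 2) t) ≤ Metric.ediam t + 2 * x := by
    rw [← hx]
    exact Metric.ediam_thickening_le x
  exact (ENNReal.rpow_le_rpow h4 hs.le).trans (hU0 x hxU).le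

theorem exists_smallContent_cthickening {n : ℕ} {s : ℝ} (hs : 0 < s)
    {K : Set (EuclideanSpace ℝ (Fin n))} (hK : IsCompact K) (h0 : μH[s] K = 0)
    {ε : ENNReal} (hε : 0 < ε) :
    ∃ r : ℝ, 0 < r ∧ SmallContent s ε (Metric.cthickening r K) := by
  have hε2 : ε / 2 ≠ 0 := (ENNReal.half_pos hε.ne').ne'
  rw [Measure.hausdorffMeasure_apply] at h0
  have h1 := (ENNReal.iSup_eq_zero.1 h0) 1
  have h2 := (ENNReal.iSup_eq_zero.1 h1) one_pos
  have h3 : (⨅ (t : ℕ → Set (EuclideanSpace ℝ (Fin n))) (_ : K ⊆ ⋃ n, t n)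
      (_ : ∀ n, ediam (t n) ≤ 1), ∑' n, ⨆ _ : (t n).Nonempty, ediam (t n) ^ s) < ε / 2 := by
    rw [h2]; exact pos_iff_ne_zero.2 hε2
  simp only [iInf_lt_iff] at h3
  obtain ⟨t, htK, htd, hsum⟩ := h3
  have hterm : ∀ i, (⨆ _ : (t i).Nonempty, ediam (t i) ^ s) = ediam (t i) ^ s := by
    intro i
    rcases (t i).eq_empty_or_nonempty with h | h
    · simp [h, ENNReal.zero_rpow_of_pos hs]
    · simp [h]
  simp only [hterm] at hsum
  obtain ⟨e, he, hesum⟩ := ENNReal.exists_pos_sum_of_countable' hε2 ℕ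
  choose δ hδ hδt using fun i => exists_thickening_ediam hs (t i) (htd i) (he i)
  have hopen : IsOpen (⋃ i, Metric.thickening (δ i) (t i)) :=
    isOpen_iUnion fun i => Metric.isOpen_thickening
  have hKU : K ⊆ ⋃ i, Metric.thickening (δ i) (t i) :=
    htK.trans (Set.iUnion_mono fun i => Metric.self_subset_thickening (hδ i) _)
  obtain ⟨r, hr, hrU⟩ := hK.exists_cthickening_subset_open hopen hKU
  refine ⟨r, hr, fun i => Metric.thickening (δ i) (t i), hrU, ?_⟩
  calc ∑' i, Metric.ediam (Metric.thickening (δ i) (t i)) ^ s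
      ≤ ∑' i, (Metric.ediam (t i) ^ s + e i) := ENNReal.tsum_le_tsum hδt
    _ = ∑' i, Metric.ediam (t i) ^ s + ∑' i, e i := ENNReal.tsum_add
    _ ≤ ε / 2 + ε / 2 := add_le_add hsum.le hesum.le
    _ = ε := ENNReal.add_halves ε

end Pool.Agent.KakeyaSticky
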