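import Pool.Agent.KakeyaSticky.Positions

/-!
Lines in a neighbourhood of the union of the pieces are close to one of the pieces; counting.
-/

namespace Pool.Agent.KakeyaSticky

open Set Metric MeasureTheory

variable {n : ℕ}


/-- The union of the translated pieces. -/
def Union (K : Set (EuclideanSpace ℝ (Fin n))) (R₀ ν lam ρ : ℝ) (T : Finset (EuclideanSpace ℝ (Fin n))) (w : (EuclideanSpace ℝ (Fin n)) → (EuclideanSpace ℝ (Fin n))) : Set (EuclideanSpace ℝ (Fin n)) :=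
  ⋃ u ∈ T, (fun z => w u + z) '' Piece K R₀ ν lam ρ u

theorem isCompact_Union {K : Set (EuclideanSpace ℝ (Fin n))} (hK : IsCompact K) (R₀ ν lam ρ : ℝ) (T : Finset (EuclideanSpace ℝ (Fin n)))
    (w : (EuclideanSpace ℝ (Fin n)) → (EuclideanSpace ℝ (Fin n))) : IsCompact (Union K R₀ ν lam ρ T w) := by
  unfold Union
  apply Finset.isCompact_biUnion
  intro u _
  exact (isCompact_Piece hK R₀ ν lam ρ u).image (continuous_const.add continuous_id)

theorem exists_of_mem_cthickening_Union {K : Set (EuclideanSpace ℝ (Fin n))} (hK : IsCompact K) {R₀ ν lam ρ : ℝ}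
    {T : Finset (EuclideanSpace ℝ (Fin n))} {w : (EuclideanSpace ℝ (Fin n)) → (EuclideanSpace ℝ (Fin n))} {θ : ℝ} (hθ : 0 ≤ θ) {z : (EuclideanSpace ℝ (Fin n))}
    (hz : z ∈ cthickening θ (Union K R₀ ν lam ρ T w)) :
    ∃ u ∈ T, ∃ q ∈ Piece K R₀ ν lam ρ u, dist z (w u + q) ≤ θ := by
  rw [(isCompact_Union hK R₀ ν lam ρ T w).cthickening_eq_biUnion_closedBall hθ] at hz
  obtain ⟨y, hy, hzy⟩ := mem_iUnion₂.1 hz
  obtain ⟨u, hu, hy⟩ := mem_iUnion₂.1 hy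
  obtain ⟨q, hq, rfl⟩ := hy
  exact ⟨u, hu, q, hq, hzy⟩

/-- A line with a unit segment near the union of the pieces is close to one of the pieces. -/
theorem exists_piece_of_line {K : Set (EuclideanSpace ℝ (Fin n))} (hK : IsCompact K) {R₀ ν lam ρ θ α R₁ : ℝ}
    (hR₀ : 0 ≤ R₀) (hlam : 0 ≤ lam) (hl : lam * (1 + ν) ≤ 2)
    (hρ : 0 < ρ) (hρ1 : ρ ≤ 1) (hθ : 0 < θ) (hθρ : θ ≤ ρ) (hρα : ρ * (R₀ + 1) ≤ α)
    (hKR : ∀ x ∈ K, ‖x‖ ≤ R₀)
    {T : Finset (EuclideanSpace ℝ (Fin n))} (hT : ∀ u ∈ T, ‖u‖ = 1) {w : (EuclideanSpace ℝ (Fin n)) → (EuclideanSpace ℝ (Fin n))} {D₁ D₂ : Finset (EuclideanSpace ℝ (Fin n))}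
    (hD₂ : ∀ e ∈ D₂, ‖e‖ = 1)
    (hnet₁ : ∀ y : (EuclideanSpace ℝ (Fin n)), ‖y‖ ≤ R₁ → ∃ y' ∈ D₁, dist y y' ≤ θ / 4)
    (hnet₂ : ∀ e : (EuclideanSpace ℝ (Fin n)), ‖e‖ = 1 → ∃ e' ∈ D₂, dist e e' ≤ θ / 4)
    (hcov : ∀ y ∈ D₁, ∀ e ∈ D₂, ∑ u ∈ T.filter (fun u => α ≤ ‖perp u e‖),
        len (cthickening θ (Piece K R₀ ν lam ρ u)) y e (w u) ≤ 1 / 4)
    {e p : (EuclideanSpace ℝ (Fin n))} {a : ℝ} (he : ‖e‖ = 1) (hpe : (inner ℝ e p : ℝ) = 0)
    (hseg : ∀ t ∈ Icc a (a + 1), p + t • e ∈ cthickening (θ / 4) (Union K R₀ ν lam ρ T w))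
    (hR₁ : cthickening (θ / 4) (Union K R₀ ν lam ρ T w) ⊆ closedBall 0 R₁) :
    ∃ u ∈ T, ∃ σ : ℝ, (σ = 1 ∨ σ = -1) ∧ dist e (σ • u) ≤ 3 * α ∧
      ∃ τ : ℝ, |τ| ≤ R₁ + 4 ∧ ‖w u - (p + τ • e)‖ ≤ 12 * α := by
  have hθα : θ ≤ α := hθρ.trans (le_trans (by nlinarith) hρα)
  have hα : 0 < α := hθ.trans_le hθα
  have hy : ‖p + a • e‖ ≤ R₁ := by
    have := hR₁ (hseg a ⟨le_rfl, by linarith⟩)
    rwa [mem_closedBall_zero_iff] at this
  obtain ⟨y', hy', hyy'⟩ := hnet₁ _ hy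
  obtain ⟨e', he', hee'⟩ := hnet₂ e he
  have hcover : ∀ t ∈ Icc (0:ℝ) 1, ∃ u ∈ T, y' + t • e' - w u ∈
      cthickening θ (Piece K R₀ ν lam ρ u) := by
    intro t ht
    obtain ⟨u, hu, q, hq, hd⟩ := exists_of_mem_cthickening_Union hK (by positivity)
      (hseg (a + t) ⟨by linarith [ht.1], by linarith [ht.2]⟩)
    refine ⟨u, hu, mem_cthickening_of_dist_le _ q _ _ hq ?_⟩
    rw [dist_eq_norm] at hd hyy' hee' ⊢
    have : y' + t • e' - w u - q = (p + (a + t) • e - (w u + q)) - (p + a • e - y') -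
        t • (e - e') := by
      rw [add_smul, smul_sub]; abel
    rw [this]
    calc _ ≤ ‖(p + (a + t) • e - (w u + q)) - (p + a • e - y')‖ + ‖t • (e - e')‖ := norm_sub_le _ _
      _ ≤ ‖p + (a + t) • e - (w u + q)‖ + ‖p + a • e - y'‖ + ‖t • (e - e')‖ := by
          gcongr; exact norm_sub_le _ _
      _ ≤ θ / 4 + θ / 4 + 1 * (θ / 4) := by
          rw [norm_smul, Real.norm_eq_abs, abs_of_nonneg ht.1]
          gcongr
          exact ht.2
      _ ≤ θ := by linarith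
  -- a near piece meets the segment
  have hnear : ∃ u ∈ T, ‖perp u e'‖ < α ∧ ∃ t ∈ Icc (0:ℝ) 1, y' + t • e' - w u ∈
      cthickening θ (Piece K R₀ ν lam ρ u) := by
    by_contra hcon
    push Not at hcon
    have h1 : ∀ t ∈ Icc (0:ℝ) 1, ∃ u ∈ T.filter (fun u => α ≤ ‖perp u e'‖), y' + t • e' - w u ∈
        cthickening θ (Piece K R₀ ν lam ρ u) := by
      intro t ht
      obtain ⟨u, hu, h2⟩ := hcover t ht
      refine ⟨u, ?_, h2⟩
      rw [Finset.mem_filter]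
      refine ⟨hu, ?_⟩
      by_contra h3
      exact hcon u hu (not_le.1 h3) t ht h2
    have h2 := one_le_sum_len (T.filter (fun u => α ≤ ‖perp u e'‖))
      (fun u => cthickening θ (Piece K R₀ ν lam ρ u)) w y' e' h1
    have h3 := hcov y' hy' e' he'
    linarith
  obtain ⟨u, hu, hperp, t, ht, hz⟩ := hnear
  have hun := hT u hu
  obtain ⟨hz1, hz2⟩ := thick_bounds hK hlam hρ.le hθ.le hθρ hρ1 hl hKR hun hz
  have he'n := hD₂ e' he'
  -- the sign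
  obtain ⟨σ, hσ, hσc⟩ : ∃ σ : ℝ, (σ = 1 ∨ σ = -1) ∧ σ * (inner ℝ u e' : ℝ) = |(inner ℝ u e' : ℝ)| := by
    rcases le_total 0 (inner ℝ u e' : ℝ) with h | h
    · exact ⟨1, Or.inl rfl, by rw [abs_of_nonneg h, one_mul]⟩
    · exact ⟨-1, Or.inr rfl, by rw [abs_of_nonpos h]; ring⟩
  have hσ2 : σ * σ = 1 := by rcases hσ with rfl | rfl <;> norm_num
  have hσabs : |σ| = 1 := by rcases hσ with rfl | rfl <;> norm_num
  have hdist' : ‖e' - σ • u‖ ≤ 2 * α := by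
    have h1 : ‖e' - σ • u‖ ^ 2 = 2 - 2 * |(inner ℝ u e' : ℝ)| := by
      rw [norm_sub_sq_real, norm_smul, Real.norm_eq_abs, hσabs, he'n, hun, inner_smul_right,
        real_inner_comm, hσc]
      ring
    have h2 := norm_sq_eq hun e'
    rw [he'n] at h2
    have h3 : |(inner ℝ u e' : ℝ)| ≤ 1 := by
      have := abs_inner_le hun e'
      rwa [he'n] at this
    have h4 : (inner ℝ u e' : ℝ) ^ 2 = |(inner ℝ u e' : ℝ)| ^ 2 := (sq_abs _).symm
    have h5 : ‖perp u e'‖ ^ 2 ≤ α ^ 2 := by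
      have := hperp.le
      gcongr
    have h6 : ‖e' - σ • u‖ ^ 2 ≤ (2 * α) ^ 2 := by
      rw [h1]
      nlinarith [abs_nonneg (inner ℝ u e' : ℝ)]
    exact (sq_le_sq₀ (norm_nonneg _) (by positivity)).1 h6
  have hdist : ‖e - σ • u‖ ≤ 3 * α := by
    rw [dist_eq_norm] at hee'
    calc ‖e - σ • u‖ = ‖(e - e') + (e' - σ • u)‖ := by congr 1; abel
      _ ≤ ‖e - e'‖ + ‖e' - σ • u‖ := norm_add_le _ _
      _ ≤ 3 * α := by linarith
  refine ⟨u, hu, σ, hσ, by rw [dist_eq_norm]; exact hdist, ?_⟩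
  set z : (EuclideanSpace ℝ (Fin n)) := y' + t • e' - w u with hzdef
  set h : ℝ := inner ℝ u z with hh
  refine ⟨a + t - h * σ, ?_, ?_⟩
  · have ha : |a| ≤ R₁ := by
      have h1 : (inner ℝ e (p + a • e) : ℝ) = a := by
        rw [inner_add_right, hpe, inner_smul_right, real_inner_self_eq_norm_sq, he]; ring
      have h2 := abs_inner_le he (p + a • e)
      rw [h1] at h2
      exact h2.trans hy
    have h1 := abs_le.1 ha
    have h2 : |h * σ| ≤ 3 := by rw [abs_mul, hσabs, mul_one]; exact hz1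
    have h3 := abs_le.1 h2
    rw [abs_le]
    constructor <;> linarith [ht.1, ht.2]
  · have hdec := perp_add_par u z
    rw [← hh] at hdec
    have h1 : w u - (p + (a + t - h * σ) • e) =
        (y' - (p + a • e)) + t • (e' - e) + (h * σ) • (e - σ • u) - perp u z := by
      have h2 : w u = y' + t • e' - (perp u z + h • u) := by rw [hdec, hzdef]; abel
      rw [h2, smul_sub (h * σ) e, smul_smul (h * σ) σ u, mul_assoc h σ σ, hσ2, mul_one, smul_sub,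
        sub_smul (a + t), add_smul]
      abel
    rw [h1]
    rw [dist_eq_norm] at hyy' hee'
    have e1 : ‖y' - (p + a • e)‖ ≤ θ / 4 := by rw [norm_sub_rev]; exact hyy'
    have e2 : ‖t • (e' - e)‖ ≤ θ / 4 := by
      rw [norm_smul, Real.norm_eq_abs, abs_of_nonneg ht.1, norm_sub_rev]
      calc t * ‖e - e'‖ ≤ 1 * (θ / 4) := by
            gcongr
            exact ht.2
        _ = θ / 4 := one_mul _
    have e3 : ‖(h * σ) • (e - σ • u)‖ ≤ 3 * (3 * α) := by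
      rw [norm_smul, Real.norm_eq_abs, abs_mul, hσabs, mul_one]
      gcongr
    calc _ ≤ ‖(y' - (p + a • e)) + t • (e' - e) + (h * σ) • (e - σ • u)‖ + ‖perp u z‖ :=
          norm_sub_le _ _
      _ ≤ (‖y' - (p + a • e)‖ + ‖t • (e' - e)‖ + ‖(h * σ) • (e - σ • u)‖) + ‖perp u z‖ := by
          gcongr; exact norm_add₃_le
      _ ≤ (θ / 4 + θ / 4 + 3 * (3 * α)) + α := by
          gcongr
          exact hz2.trans hρα
      _ ≤ 12 * α := by linarith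

/-- Translating the previous information to a nearby pair. -/
theorem near_of_close {δ α R₁ : ℝ} (hδ : 0 < δ) (hαδ : 3 * α ≤ δ) {u w e e' p y' : (EuclideanSpace ℝ (Fin n))}
    (hu : ‖u‖ = 1) (he' : ‖e'‖ = 1) (hee' : dist e e' ≤ 3 * δ) (hpy' : dist p y' ≤ 3 * δ)
    {σ : ℝ} (hσ : σ = 1 ∨ σ = -1) (hd : dist e (σ • u) ≤ 3 * α) {τ : ℝ} (hτ : |τ| ≤ R₁ + 4)
    (hw : ‖w - (p + τ • e)‖ ≤ 12 * α) :
    Near e' δ u ∧ ‖perp e' (w - y')‖ ≤ (3 * R₁ + 20) * δ := by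
  constructor
  · rcases hσ with rfl | rfl
    · left
      rw [one_smul, dist_comm] at hd
      calc dist u e' ≤ dist u e + dist e e' := dist_triangle _ _ _
        _ ≤ 4 * δ := by linarith
    · right
      have h1 : dist u (-e) ≤ 3 * α := by
        rw [dist_eq_norm] at hd ⊢
        rw [show u - -e = e - (-1 : ℝ) • u by simp; abel]
        exact hd
      calc dist u (-e') ≤ dist u (-e) + dist (-e) (-e') := dist_triangle _ _ _
        _ = dist u (-e) + dist e e' := by rw [dist_neg_neg]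
        _ ≤ 4 * δ := by linarith
  · have h1 : w - y' = (w - (p + τ • e)) + (p - y') + τ • e := by abel
    have h2 : ‖perp e' e‖ ≤ 3 * δ := by
      have := norm_perp_le_sub he' e 1
      rw [one_smul, ← dist_eq_norm] at this
      exact this.trans hee'
    rw [dist_eq_norm] at hpy'
    rw [h1, map_add, map_add, map_smul]
    calc _ ≤ ‖perp e' (w - (p + τ • e))‖ + ‖perp e' (p - y')‖ + ‖τ • perp e' e‖ := norm_add₃_le
      _ ≤ 12 * α + 3 * δ + (R₁ + 4) * (3 * δ) := by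
          rw [norm_smul, Real.norm_eq_abs]
          have := abs_nonneg τ
          have h0 : 0 ≤ R₁ + 4 := this.trans hτ
          gcongr
          · exact (norm_perp_le he' _).trans hw
          · exact (norm_perp_le he' _).trans hpy'
      _ ≤ (3 * R₁ + 20) * δ := by nlinarith

open Classical in
/-- The counting argument. -/
theorem card_le_of_cover {K : Set (EuclideanSpace ℝ (Fin n))} (hK : IsCompact K) {R₀ ν lam ρ θ α δ R₁ m_b : ℝ}
    (hR₀ : 0 ≤ R₀) (hlam : 0 ≤ lam) (hl : lam * (1 + ν) ≤ 2)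
    (hρ : 0 < ρ) (hρ1 : ρ ≤ 1) (hθ : 0 < θ) (hθρ : θ ≤ ρ) (hρα : ρ * (R₀ + 1) ≤ α)
    (hαδ : 3 * α ≤ δ)
    (hKR : ∀ x ∈ K, ‖x‖ ≤ R₀)
    {T : Finset (EuclideanSpace ℝ (Fin n))} (hT : ∀ u ∈ T, ‖u‖ = 1) {w : (EuclideanSpace ℝ (Fin n)) → (EuclideanSpace ℝ (Fin n))} {D₁ D₂ : Finset (EuclideanSpace ℝ (Fin n))}
    (hD₁ne : D₁.Nonempty) (hD₂ne : D₂.Nonempty)
    (hD₂ : ∀ e ∈ D₂, ‖e‖ = 1)
    (hnet₁ : ∀ y : (EuclideanSpace ℝ (Fin n)), ‖y‖ ≤ R₁ → ∃ y' ∈ D₁, dist y y' ≤ θ / 4)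
    (hnet₂ : ∀ e : (EuclideanSpace ℝ (Fin n)), ‖e‖ = 1 → ∃ e' ∈ D₂, dist e e' ≤ θ / 4)
    (hcov : ∀ y ∈ D₁, ∀ e ∈ D₂, ∑ u ∈ T.filter (fun u => α ≤ ‖perp u e‖),
        len (cthickening θ (Piece K R₀ ν lam ρ u)) y e (w u) ≤ 1 / 4)
    (hcount : ∀ y ∈ D₁, ∀ e ∈ D₂, ((T.filter (fun u => Near e δ u ∧
        ‖perp e (w u - y)‖ ≤ (3 * R₁ + 20) * δ)).card : ℝ) ≤ 3 * m_b)
    (hR₁ : cthickening (θ / 4) (Union K R₀ ν lam ρ T w) ⊆ closedBall 0 R₁)
    {C : Set (EuclideanSpace ℝ (Fin n))} (hC : C ⊆ cthickening (θ / 4) (Union K R₀ ν lam ρ T w))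
    {L : Set ((EuclideanSpace ℝ (Fin n)) × (EuclideanSpace ℝ (Fin n)))} (hL : LinesIn C L)
    {D : Finset (EuclideanSpace ℝ (Fin n))} (hD : ∀ e ∈ D, ∃ p, (e, p) ∈ L)
    (hDsep : ∀ d ∈ D, ∀ d' ∈ D, d ≠ d' → 8 * α < dist d d')
    {F : Finset ((EuclideanSpace ℝ (Fin n)) × (EuclideanSpace ℝ (Fin n)))} (hF : L ⊆ ⋃ x ∈ F, closedBall x δ) :
    (D.card : ℝ) ≤ (F.card : ℝ) * (6 * m_b) := by
  have hθα : θ ≤ α := hθρ.trans (le_trans (by nlinarith) hρα)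
  have hα : 0 < α := hθ.trans_le hθα
  have hδ : 0 < δ := by linarith
  -- net points attached to the balls
  have hchoice : ∀ x : (EuclideanSpace ℝ (Fin n)) × (EuclideanSpace ℝ (Fin n)), ∃ yx ∈ D₁, ∃ ex ∈ D₂, ∀ q ∈ L, q ∈ closedBall x δ →
      dist q.1 ex ≤ 3 * δ ∧ dist q.2 yx ≤ 3 * δ := by
    intro x
    by_cases hx : ∃ q ∈ L, q ∈ closedBall x δ
    · obtain ⟨q₁, hq₁, hq₁x⟩ := hx
      obtain ⟨hq1, hq2, a, hq3⟩ := hL q₁ hq₁
      have hnorm : ‖q₁.2‖ ≤ R₁ := by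
        have h1 := hR₁ (hC (hq3 a ⟨le_rfl, by linarith⟩))
        rw [mem_closedBall_zero_iff] at h1
        have h2 : perp q₁.1 (q₁.2 + a • q₁.1) = q₁.2 := by
          rw [map_add, map_smul, perp_self hq1, perp_apply, hq2]; simp
        rw [← h2]
        exact (norm_perp_le hq1 _).trans h1
      obtain ⟨yx, hyx, hyxd⟩ := hnet₁ _ hnorm
      obtain ⟨ex, hex, hexd⟩ := hnet₂ _ hq1
      refine ⟨yx, hyx, ex, hex, ?_⟩
      intro q hq hqx
      rw [mem_closedBall, Prod.dist_eq] at hqx hq₁x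
      have h1 := (le_max_left _ _).trans hqx
      have h2 := (le_max_right _ _).trans hqx
      have h3 := (le_max_left _ _).trans hq₁x
      have h4 := (le_max_right _ _).trans hq₁x
      have h5 := dist_triangle4 q.1 x.1 q₁.1 ex
      have h6 := dist_triangle4 q.2 x.2 q₁.2 yx
      rw [dist_comm x.1 q₁.1] at h5
      rw [dist_comm x.2 q₁.2] at h6
      constructor <;> linarith
    · obtain ⟨y₀, hy₀⟩ := hD₁ne
      obtain ⟨e₀, he₀⟩ := hD₂ne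
      refine ⟨y₀, hy₀, e₀, he₀, ?_⟩
      intro q hq hqx
      exact absurd ⟨q, hq, hqx⟩ hx
  choose yx hyx ex hex hclose using hchoice
  -- the piece attached to a direction
  have hpiece : ∀ e ∈ D, ∃ uσ : (EuclideanSpace ℝ (Fin n)) × ℝ, dist e (uσ.2 • uσ.1) ≤ 3 * α ∧
      ∃ x ∈ F, uσ.1 ∈ T.filter (fun u => Near (ex x) δ u ∧
        ‖perp (ex x) (w u - yx x)‖ ≤ (3 * R₁ + 20) * δ) ∧ uσ.2 ∈ ({1, -1} : Finset ℝ) := by
    intro e he
    obtain ⟨p, hp⟩ := hD e he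
    obtain ⟨hen, hpe, a, hseg⟩ := hL _ hp
    obtain ⟨x, hx, hpx⟩ := mem_iUnion₂.1 (hF hp)
    obtain ⟨u, hu, σ, hσ, hd, τ, hτ, hw⟩ := exists_piece_of_line hK hR₀ hlam hl hρ hρ1 hθ hθρ hρα
      hKR hT hD₂ hnet₁ hnet₂ hcov hen hpe (fun t ht => hC (hseg t ht)) hR₁
    obtain ⟨h1, h2⟩ := hclose x _ hp hpx
    refine ⟨(u, σ), hd, x, hx, ?_, ?_⟩
    · rw [Finset.mem_filter]
      exact ⟨hu, near_of_close hδ hαδ (hT u hu) (hD₂ _ (hex x)) h1 h2 hσ hd hτ hw⟩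
    · rcases hσ with rfl | rfl <;> simp
  choose! g hg1 hg2 using hpiece
  have hcard : D.card ≤ (F.biUnion fun x => (T.filter (fun u => Near (ex x) δ u ∧
        ‖perp (ex x) (w u - yx x)‖ ≤ (3 * R₁ + 20) * δ)) ×ˢ ({1, -1} : Finset ℝ)).card := by
    apply Finset.card_le_card_of_injOn g
    · intro e he
      obtain ⟨x, hx, h1, h2⟩ := hg2 e he
      simp only [Finset.coe_biUnion, Set.mem_iUnion]
      exact ⟨x, hx, Finset.mem_coe.2 (Finset.mem_product.2 ⟨h1, h2⟩)⟩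
    · intro e he e' he' hee'
      by_contra hne
      have h1 := hDsep e he e' he' hne
      have h2 := hg1 e he
      have h3 := hg1 e' he'
      rw [hee'] at h2
      have h4 := dist_triangle_right e e' ((g e').2 • (g e').1)
      linarith
  have hmb : ∀ x ∈ F, (((T.filter (fun u => Near (ex x) δ u ∧
        ‖perp (ex x) (w u - yx x)‖ ≤ (3 * R₁ + 20) * δ)) ×ˢ ({1, -1} : Finset ℝ)).card : ℝ) ≤
        6 * m_b := by
    intro x _
    rw [Finset.card_product]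
    push_cast
    have h1 := hcount (yx x) (hyx x) (ex x) (hex x)
    have h2 : ((({1, -1} : Finset ℝ).card : ℕ) : ℝ) ≤ 2 := by
      have : ({1, -1} : Finset ℝ).card ≤ 2 := Finset.card_le_two
      exact_mod_cast this
    have h0 : (0:ℝ) ≤ ((({1, -1} : Finset ℝ).card : ℕ) : ℝ) := Nat.cast_nonneg _
    have h00 : (0:ℝ) ≤ ((T.filter (fun u => Near (ex x) δ u ∧
        ‖perp (ex x) (w u - yx x)‖ ≤ (3 * R₁ + 20) * δ)).card : ℝ) := Nat.cast_nonneg _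
    have h000 : 0 ≤ 3 * m_b := h00.trans h1
    calc _ ≤ (3 * m_b) * 2 := by gcongr
      _ = 6 * m_b := by ring
  calc (D.card : ℝ) ≤ ((F.biUnion fun x => (T.filter (fun u => Near (ex x) δ u ∧
        ‖perp (ex x) (w u - yx x)‖ ≤ (3 * R₁ + 20) * δ)) ×ˢ ({1, -1} : Finset ℝ)).card : ℝ) := by
        exact_mod_cast hcard
    _ ≤ ∑ x ∈ F, (((T.filter (fun u => Near (ex x) δ u ∧
        ‖perp (ex x) (w u - yx x)‖ ≤ (3 * R₁ + 20) * δ)) ×ˢ ({1, -1} : Finset ℝ)).card : ℝ) := by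
        exact_mod_cast Finset.card_biUnion_le
    _ ≤ ∑ x ∈ F, 6 * m_b := Finset.sum_le_sum hmb
    _ = _ := by rw [Finset.sum_const, nsmul_eq_mul]

end Pool.Agent.KakeyaSticky
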