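import Mathlib

/-!
Shared definitions for the Kakeya / stickiness result (MP_a467b6_an).
-/

namespace Pool.Agent.KakeyaSticky

open Set Metric MeasureTheory

/-- `C` contains a segment of length one in direction `e`. -/
def HasSeg {n : ℕ} (C : Set (EuclideanSpace ℝ (Fin n))) (e : EuclideanSpace ℝ (Fin n)) : Prop :=
  ∃ x : EuclideanSpace ℝ (Fin n), ∀ t ∈ Set.Icc (0:ℝ) 1, x + t • e ∈ C

/-- Kakeya sets: compact sets containing a unit segment in every direction. -/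
def IsKakeya {n : ℕ} (K : Set (EuclideanSpace ℝ (Fin n))) : Prop :=
  IsCompact K ∧ ∀ e : EuclideanSpace ℝ (Fin n), ‖e‖ = 1 → HasSeg K e

/-- `d_n`, the infimum of the Hausdorff dimensions of the Kakeya sets in `ℝⁿ`. -/
noncomputable def kakeyaDim (n : ℕ) : ENNReal :=
  ⨅ (K : Set (EuclideanSpace ℝ (Fin n))) (_ : IsKakeya K), dimH K

/-- `L` is a family of lines `(e, p)` (direction `e`, foot point `p ⊥ e`), each of which meets `C`
in a segment of length one. -/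
def LinesIn {n : ℕ} (C : Set (EuclideanSpace ℝ (Fin n)))
    (L : Set (EuclideanSpace ℝ (Fin n) × EuclideanSpace ℝ (Fin n))) : Prop :=
  ∀ q ∈ L, ‖q.1‖ = 1 ∧ inner ℝ q.1 q.2 = (0:ℝ) ∧
    ∃ a : ℝ, ∀ t ∈ Set.Icc a (a + 1), q.2 + t • q.1 ∈ C

/-- `L` has packing dimension at most `r`. -/
def PackingDimLE {n : ℕ} (L : Set (EuclideanSpace ℝ (Fin n) × EuclideanSpace ℝ (Fin n)))
    (r : ℝ) : Prop :=
  ∀ s : ℝ, r < s →
    ∃ P : ℕ → Set (EuclideanSpace ℝ (Fin n) × EuclideanSpace ℝ (Fin n)),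
      L ⊆ (⋃ i, P i) ∧
      ∀ i, ∀ t : ℝ, s < t → ∃ δ₀ : ℝ, 0 < δ₀ ∧
        ∀ δ : ℝ, 0 < δ → δ < δ₀ →
          ∃ F : Finset (EuclideanSpace ℝ (Fin n) × EuclideanSpace ℝ (Fin n)),
            (F.card : ℝ) ≤ δ ^ (-t) ∧ P i ⊆ ⋃ x ∈ F, Metric.ball x δ

/-- `K` is `ε`-close to being sticky: some family of lines containing a line in each direction,
all of which meet `K` in a segment of length one, has packing dimension at most `n - 1 + ε`. -/
def CloseToSticky {n : ℕ} (K : Set (EuclideanSpace ℝ (Fin n))) (ε : ℝ) : Prop :=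
  ∃ L : Set (EuclideanSpace ℝ (Fin n) × EuclideanSpace ℝ (Fin n)), LinesIn K L ∧
    (∀ e : EuclideanSpace ℝ (Fin n), ‖e‖ = 1 → ∃ p, (e, p) ∈ L) ∧
    PackingDimLE L ((n:ℝ) - 1 + ε)

/-- A bounded open set containing a unit segment in every direction. -/
def GoodOpen {n : ℕ} (O : Set (EuclideanSpace ℝ (Fin n))) : Prop :=
  IsOpen O ∧ Bornology.IsBounded O ∧ ∀ e : EuclideanSpace ℝ (Fin n), ‖e‖ = 1 → HasSeg O e

/-- Covers of total `s`-size at most `ε`. -/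
def SmallContent {n : ℕ} (s : ℝ) (ε : ENNReal) (C : Set (EuclideanSpace ℝ (Fin n))) : Prop :=
  ∃ t : ℕ → Set (EuclideanSpace ℝ (Fin n)), C ⊆ (⋃ i, t i) ∧ ∑' i, Metric.ediam (t i) ^ s ≤ ε

/-- Every family of lines in `C` containing a line in each direction of a cap of radius `ε`
needs at least `δ^(-(2(n-1)-ε))` balls of radius `δ` to be covered. -/
def Scatter {n : ℕ} (C : Set (EuclideanSpace ℝ (Fin n))) (ε δ : ℝ) : Prop :=
  ∀ e₀ : EuclideanSpace ℝ (Fin n), ‖e₀‖ = 1 →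
    ∀ L : Set (EuclideanSpace ℝ (Fin n) × EuclideanSpace ℝ (Fin n)), LinesIn C L →
      (∀ e : EuclideanSpace ℝ (Fin n), ‖e‖ = 1 → dist e e₀ < ε → ∃ p, (e, p) ∈ L) →
      ∀ F : Finset (EuclideanSpace ℝ (Fin n) × EuclideanSpace ℝ (Fin n)),
        (L ⊆ ⋃ x ∈ F, Metric.closedBall x δ) →
        δ ^ (-(2 * ((n:ℝ) - 1) - ε)) ≤ (F.card : ℝ)

/-- The inductive step. -/
def StepStatement (n : ℕ) : Prop :=
  ∀ (s : ℝ) (K₀ : Set (EuclideanSpace ℝ (Fin n))), 0 < s → s < n → IsKakeya K₀ →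
    μH[s] K₀ = 0 →
    ∀ O : Set (EuclideanSpace ℝ (Fin n)), GoodOpen O → ∀ ε : ℝ, 0 < ε →
      ∃ O' : Set (EuclideanSpace ℝ (Fin n)), GoodOpen O' ∧ closure O' ⊆ O ∧
        SmallContent s (ENNReal.ofReal ε) (closure O') ∧
        ∃ δ : ℝ, 0 < δ ∧ δ < ε ∧ Scatter (closure O') ε δ

end Pool.Agent.KakeyaSticky
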