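import Pool.Agent.KakeyaSticky.Defs

/-!
Geometry: squashing maps, cylinders, separated nets on the sphere.
-/

namespace Pool.Agent.KakeyaSticky

open Set Metric MeasureTheory

variable {n : ℕ}


/-- component of `x` orthogonal to `u` -/
noncomputable def perp (u : (EuclideanSpace ℝ (Fin n))) : (EuclideanSpace ℝ (Fin n)) →ₗ[ℝ] (EuclideanSpace ℝ (Fin n)) :=
  LinearMap.id - (innerₛₗ ℝ u).smulRight u

theorem perp_apply (u x : (EuclideanSpace ℝ (Fin n))) : perp u x = x - (inner ℝ u x : ℝ) • u := by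
  simp [perp]

theorem perp_add_par (u x : (EuclideanSpace ℝ (Fin n))) : perp u x + (inner ℝ u x : ℝ) • u = x := by
  rw [perp_apply]; abel

theorem inner_perp {u : (EuclideanSpace ℝ (Fin n))} (hu : ‖u‖ = 1) (x : (EuclideanSpace ℝ (Fin n))) : (inner ℝ u (perp u x) : ℝ) = 0 := by
  rw [perp_apply, inner_sub_right, inner_smul_right, real_inner_self_eq_norm_sq, hu]; ring

theorem perp_self {u : (EuclideanSpace ℝ (Fin n))} (hu : ‖u‖ = 1) : perp u u = 0 := by
  rw [perp_apply, real_inner_self_eq_norm_sq, hu]; simp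

theorem norm_sq_eq {u : (EuclideanSpace ℝ (Fin n))} (hu : ‖u‖ = 1) (x : (EuclideanSpace ℝ (Fin n))) :
    ‖x‖ ^ 2 = (inner ℝ u x : ℝ) ^ 2 + ‖perp u x‖ ^ 2 := by
  conv_lhs => rw [← perp_add_par u x]
  rw [norm_add_sq_real, inner_smul_right, real_inner_comm u (perp u x), inner_perp hu, norm_smul, hu,
    Real.norm_eq_abs, mul_one, sq_abs]
  ring

theorem norm_perp_le {u : (EuclideanSpace ℝ (Fin n))} (hu : ‖u‖ = 1) (x : (EuclideanSpace ℝ (Fin n))) : ‖perp u x‖ ≤ ‖x‖ := by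
  have h := norm_sq_eq hu x
  have h1 : ‖perp u x‖ ^ 2 ≤ ‖x‖ ^ 2 := by nlinarith [sq_nonneg (inner ℝ u x : ℝ)]
  exact (sq_le_sq₀ (norm_nonneg _) (norm_nonneg _)).1 h1

theorem abs_inner_le {u : (EuclideanSpace ℝ (Fin n))} (hu : ‖u‖ = 1) (x : (EuclideanSpace ℝ (Fin n))) : |(inner ℝ u x : ℝ)| ≤ ‖x‖ := by
  have := abs_real_inner_le_norm u x
  rwa [hu, one_mul] at this

theorem norm_perp_le_sub {u : (EuclideanSpace ℝ (Fin n))} (hu : ‖u‖ = 1) (x : (EuclideanSpace ℝ (Fin n))) (c : ℝ) : ‖perp u x‖ ≤ ‖x - c • u‖ := by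
  have : perp u x = perp u (x - c • u) := by
    rw [map_sub, map_smul, perp_self hu]; simp
  rw [this]; exact norm_perp_le hu _

/-- The map multiplying by `a` in direction `u` and by `r` orthogonally. -/
noncomputable def squash (u : (EuclideanSpace ℝ (Fin n))) (a r : ℝ) : (EuclideanSpace ℝ (Fin n)) →ₗ[ℝ] (EuclideanSpace ℝ (Fin n)) :=
  a • (innerₛₗ ℝ u).smulRight u + r • perp u

theorem squash_apply (u : (EuclideanSpace ℝ (Fin n))) (a r : ℝ) (x : (EuclideanSpace ℝ (Fin n))) :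
    squash u a r x = (a * (inner ℝ u x : ℝ)) • u + r • perp u x := by
  simp [squash, smul_smul]

theorem inner_squash {u : (EuclideanSpace ℝ (Fin n))} (hu : ‖u‖ = 1) (a r : ℝ) (x : (EuclideanSpace ℝ (Fin n))) :
    (inner ℝ u (squash u a r x) : ℝ) = a * (inner ℝ u x : ℝ) := by
  rw [squash_apply, inner_add_right, inner_smul_right, inner_smul_right, inner_perp hu,
    real_inner_self_eq_norm_sq, hu]; ring

theorem perp_squash {u : (EuclideanSpace ℝ (Fin n))} (hu : ‖u‖ = 1) (a r : ℝ) (x : (EuclideanSpace ℝ (Fin n))) :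
    perp u (squash u a r x) = r • perp u x := by
  rw [perp_apply, inner_squash hu, squash_apply]; abel

theorem squash_squash {u : (EuclideanSpace ℝ (Fin n))} (hu : ‖u‖ = 1) (a r a' r' : ℝ) (x : (EuclideanSpace ℝ (Fin n))) :
    squash u a r (squash u a' r' x) = squash u (a * a') (r * r') x := by
  rw [squash_apply u a r, inner_squash hu, perp_squash hu, squash_apply, smul_smul, mul_assoc]

theorem squash_one (u : (EuclideanSpace ℝ (Fin n))) (x : (EuclideanSpace ℝ (Fin n))) : squash u 1 1 x = x := by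
  rw [squash_apply, one_mul, one_smul, add_comm, perp_add_par]

theorem squash_inv_left {u : (EuclideanSpace ℝ (Fin n))} (hu : ‖u‖ = 1) {a r : ℝ} (ha : a ≠ 0) (hr : r ≠ 0) (x : (EuclideanSpace ℝ (Fin n))) :
    squash u a⁻¹ r⁻¹ (squash u a r x) = x := by
  rw [squash_squash hu, inv_mul_cancel₀ ha, inv_mul_cancel₀ hr, squash_one]

theorem squash_inv_right {u : (EuclideanSpace ℝ (Fin n))} (hu : ‖u‖ = 1) {a r : ℝ} (ha : a ≠ 0) (hr : r ≠ 0) (x : (EuclideanSpace ℝ (Fin n))) :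
    squash u a r (squash u a⁻¹ r⁻¹ x) = x := by
  rw [squash_squash hu, mul_inv_cancel₀ ha, mul_inv_cancel₀ hr, squash_one]

theorem det_squash {u : (EuclideanSpace ℝ (Fin n))} (hu : ‖u‖ = 1) (a : ℝ) {r : ℝ} (hr : r ≠ 0) (hn : 1 ≤ n) :
    LinearMap.det (squash u a r) = a * r ^ (n - 1) := by
  have h : squash u a r = r • LinearMap.transvection (((a - r) / r) • (innerₛₗ ℝ u)) u := by
    ext1 x
    rw [squash_apply, LinearMap.smul_apply, LinearMap.transvection.apply, perp_apply]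
    simp only [LinearMap.smul_apply, smul_add, smul_sub, smul_smul, smul_eq_mul]
    rw [show (innerₛₗ ℝ u) x = (inner ℝ u x : ℝ) from rfl]
    have : r * ((a - r) / r * (inner ℝ u x : ℝ)) = a * (inner ℝ u x : ℝ) - r * (inner ℝ u x : ℝ) := by
      field_simp
    rw [this, sub_smul]; abel
  rw [h, LinearMap.det_smul, LinearMap.transvection.det]
  simp only [LinearMap.smul_apply, smul_eq_mul]
  rw [show (innerₛₗ ℝ u) u = (inner ℝ u u : ℝ) from rfl, real_inner_self_eq_norm_sq, hu]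
  simp only [finrank_euclideanSpace, Fintype.card_fin]
  obtain ⟨m, rfl⟩ : ∃ m, n = m + 1 := ⟨n - 1, by omega⟩
  simp only [Nat.add_sub_cancel, pow_succ]
  field_simp
  ring

theorem norm_squash_le {u : (EuclideanSpace ℝ (Fin n))} (hu : ‖u‖ = 1) {a r : ℝ} {M : ℝ} (hM : 0 ≤ M) (ha : |a| ≤ M)
    (hr : |r| ≤ M) (x : (EuclideanSpace ℝ (Fin n))) : ‖squash u a r x‖ ≤ M * ‖x‖ := by
  have h := norm_sq_eq hu (squash u a r x)
  rw [inner_squash hu, perp_squash hu, norm_smul, Real.norm_eq_abs] at h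
  have h2 := norm_sq_eq hu x
  have ha2 : a ^ 2 ≤ M ^ 2 := by
    rw [← sq_abs a]; gcongr
  have hr2 : r ^ 2 ≤ M ^ 2 := by
    rw [← sq_abs r]; gcongr
  have h3 : ‖squash u a r x‖ ^ 2 ≤ (M * ‖x‖) ^ 2 := by
    rw [h, mul_pow, mul_pow, mul_pow, sq_abs, h2]
    nlinarith [sq_nonneg (inner ℝ u x : ℝ), sq_nonneg (‖perp u x‖)]
  exact (sq_le_sq₀ (norm_nonneg _) (by positivity)).1 h3

/-- A cylinder around the line spanned by `u`. -/
def Cyl (u : (EuclideanSpace ℝ (Fin n))) (a r : ℝ) : Set (EuclideanSpace ℝ (Fin n)) := {x | |(inner ℝ u x : ℝ)| ≤ a ∧ ‖perp u x‖ ≤ r}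

theorem Cyl_subset {u : (EuclideanSpace ℝ (Fin n))} (hu : ‖u‖ = 1) {a r : ℝ} (ha : 0 < a) (hr : 0 < r) :
    Cyl u a r ⊆ squash u a r '' closedBall 0 2 := by
  intro x hx
  refine ⟨squash u a⁻¹ r⁻¹ x, ?_, squash_inv_right hu ha.ne' hr.ne' x⟩
  rw [mem_closedBall_zero_iff]
  have h := norm_sq_eq hu (squash u a⁻¹ r⁻¹ x)
  rw [inner_squash hu, perp_squash hu, norm_smul, Real.norm_eq_abs, mul_pow, mul_pow, sq_abs] at h
  have h1 : (a⁻¹) ^ 2 * (inner ℝ u x : ℝ) ^ 2 ≤ 1 := by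
    have h0 : (inner ℝ u x : ℝ) ^ 2 ≤ a ^ 2 := by
      rw [← sq_abs (inner ℝ u x : ℝ)]
      have := hx.1
      gcongr
    calc (a⁻¹) ^ 2 * (inner ℝ u x : ℝ) ^ 2 ≤ (a⁻¹) ^ 2 * a ^ 2 := by gcongr
      _ = 1 := by field_simp
  have h2 : (r⁻¹) ^ 2 * ‖perp u x‖ ^ 2 ≤ 1 := by
    have h0 : ‖perp u x‖ ^ 2 ≤ r ^ 2 := by
      have := hx.2
      gcongr
    calc (r⁻¹) ^ 2 * ‖perp u x‖ ^ 2 ≤ (r⁻¹) ^ 2 * r ^ 2 := by gcongr
      _ = 1 := by field_simp
  nlinarith [norm_nonneg (squash u a⁻¹ r⁻¹ x)]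

/-- volume of the ball of radius two, as a real number -/
noncomputable def bigV (n : ℕ) : ℝ := (volume (closedBall (0 : EuclideanSpace ℝ (Fin n)) 2)).toReal

/-- volume of the ball of radius one, as a real number -/
noncomputable def smallV (n : ℕ) : ℝ := (volume (closedBall (0 : EuclideanSpace ℝ (Fin n)) 1)).toReal

theorem smallV_pos (n : ℕ) : 0 < smallV n :=
  ENNReal.toReal_pos (measure_closedBall_pos _ _ one_pos).ne' measure_closedBall_lt_top.ne

theorem bigV_pos (n : ℕ) : 0 < bigV n :=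
  ENNReal.toReal_pos (measure_closedBall_pos _ _ two_pos).ne' measure_closedBall_lt_top.ne

theorem volume_squash_image {u : (EuclideanSpace ℝ (Fin n))} (hu : ‖u‖ = 1) {a r : ℝ} (ha : 0 < a) (hr : 0 < r)
    (hn : 1 ≤ n) (s : Set (EuclideanSpace ℝ (Fin n))) :
    volume (squash u a r '' s) = ENNReal.ofReal (a * r ^ (n - 1)) * volume s := by
  rw [Measure.addHaar_image_linearMap, det_squash hu a hr.ne' hn, abs_of_pos (by positivity)]

theorem volume_Cyl_le {u : (EuclideanSpace ℝ (Fin n))} (hu : ‖u‖ = 1) {a r : ℝ} (ha : 0 < a) (hr : 0 < r) (hn : 1 ≤ n) :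
    volume (Cyl u a r) ≤ ENNReal.ofReal (a * r ^ (n - 1) * bigV n) := by
  calc volume (Cyl u a r) ≤ volume (squash u a r '' closedBall 0 2) :=
        measure_mono (Cyl_subset hu ha hr)
    _ = ENNReal.ofReal (a * r ^ (n - 1)) * volume (closedBall (0 : (EuclideanSpace ℝ (Fin n))) 2) :=
        volume_squash_image hu ha hr hn _
    _ = ENNReal.ofReal (a * r ^ (n - 1) * bigV n) := by
        rw [ENNReal.ofReal_mul (p := a * r ^ (n - 1)) (by positivity), bigV,
          ENNReal.ofReal_toReal measure_closedBall_lt_top.ne]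

theorem le_volume_Cyl {u : (EuclideanSpace ℝ (Fin n))} (hu : ‖u‖ = 1) {a r : ℝ} (ha : 0 < a) (hr : 0 < r) (hn : 1 ≤ n) :
    ENNReal.ofReal (a * r ^ (n - 1) * smallV n) ≤ volume (Cyl u a r) := by
  have h : squash u a r '' closedBall 0 1 ⊆ Cyl u a r := by
    rintro _ ⟨x, hx, rfl⟩
    rw [mem_closedBall_zero_iff] at hx
    refine ⟨?_, ?_⟩
    · rw [inner_squash hu, abs_mul, abs_of_pos ha]
      calc a * |(inner ℝ u x : ℝ)| ≤ a * 1 := by
            gcongr; exact (abs_inner_le hu x).trans hx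
        _ = a := mul_one a
    · rw [perp_squash hu, norm_smul, Real.norm_eq_abs, abs_of_pos hr]
      calc r * ‖perp u x‖ ≤ r * 1 := by
            gcongr; exact (norm_perp_le hu x).trans hx
        _ = r := mul_one r
  calc ENNReal.ofReal (a * r ^ (n - 1) * smallV n)
      = ENNReal.ofReal (a * r ^ (n - 1)) * volume (closedBall (0 : (EuclideanSpace ℝ (Fin n))) 1) := by
        rw [ENNReal.ofReal_mul (p := a * r ^ (n - 1)) (by positivity), smallV,
          ENNReal.ofReal_toReal measure_closedBall_lt_top.ne]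
    _ = volume (squash u a r '' closedBall 0 1) := (volume_squash_image hu ha hr hn _).symm
    _ ≤ volume (Cyl u a r) := measure_mono h

end Pool.Agent.KakeyaSticky
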