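import Pool.Agent.KakeyaSticky.Piece

/-!
Length of the part of a segment covered by a translated set.
-/

namespace Pool.Agent.KakeyaSticky

open Set Metric MeasureTheory

variable {n : ℕ}


/-- The set of parameters of the segment `y + t e` lying in `v + B`. -/
def lenSet (B : Set (EuclideanSpace ℝ (Fin n))) (y e v : (EuclideanSpace ℝ (Fin n))) : Set ℝ := Icc (0:ℝ) 1 ∩ {t | y + t • e - v ∈ B}

/-- Length of `{t ∈ [0,1] : y + t e ∈ v + B}`. -/
noncomputable def len (B : Set (EuclideanSpace ℝ (Fin n))) (y e v : (EuclideanSpace ℝ (Fin n))) : ℝ := (volume (lenSet B y e v)).toReal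

theorem volume_lenSet_le (B : Set (EuclideanSpace ℝ (Fin n))) (y e v : (EuclideanSpace ℝ (Fin n))) : volume (lenSet B y e v) ≤ 1 := by
  calc volume (lenSet B y e v) ≤ volume (Icc (0:ℝ) 1) := measure_mono inter_subset_left
    _ = 1 := by simp

theorem len_nonneg (B : Set (EuclideanSpace ℝ (Fin n))) (y e v : (EuclideanSpace ℝ (Fin n))) : 0 ≤ len B y e v := ENNReal.toReal_nonneg

theorem ofReal_len (B : Set (EuclideanSpace ℝ (Fin n))) (y e v : (EuclideanSpace ℝ (Fin n))) :
    ENNReal.ofReal (len B y e v) = volume (lenSet B y e v) := by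
  unfold len
  rw [ENNReal.ofReal_toReal]
  exact ((volume_lenSet_le B y e v).trans_lt ENNReal.one_lt_top).ne

theorem measurable_uncurried {B : Set (EuclideanSpace ℝ (Fin n))} (hB : MeasurableSet B) (y e : (EuclideanSpace ℝ (Fin n))) :
    MeasurableSet {q : (EuclideanSpace ℝ (Fin n)) × ℝ | q.2 ∈ Icc (0:ℝ) 1 ∧ y + q.2 • e - q.1 ∈ B} := by
  have h1 : Measurable fun q : (EuclideanSpace ℝ (Fin n)) × ℝ => y + q.2 • e - q.1 := by
    have : Continuous fun q : (EuclideanSpace ℝ (Fin n)) × ℝ => y + q.2 • e - q.1 := by fun_prop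
    exact this.measurable
  exact (measurable_snd measurableSet_Icc).inter (h1 hB)

theorem measurable_len {B : Set (EuclideanSpace ℝ (Fin n))} (hB : MeasurableSet B) (y e : (EuclideanSpace ℝ (Fin n))) :
    Measurable fun v => len B y e v :=
  (measurable_measure_prodMk_left (measurable_uncurried hB y e)).ennreal_toReal

theorem lintegral_volume_lenSet {B : Set (EuclideanSpace ℝ (Fin n))} (hB : MeasurableSet B) (y e : (EuclideanSpace ℝ (Fin n))) :
    ∫⁻ v, volume (lenSet B y e v) ≤ volume B := by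
  have h := measurable_uncurried hB y e
  have h1 : ∫⁻ v, volume (lenSet B y e v) =
      (volume.prod volume) {q : (EuclideanSpace ℝ (Fin n)) × ℝ | q.2 ∈ Icc (0:ℝ) 1 ∧ y + q.2 • e - q.1 ∈ B} :=
    (Measure.prod_apply h).symm
  rw [h1, Measure.prod_apply_symm h]
  calc ∫⁻ t, volume ((fun v : (EuclideanSpace ℝ (Fin n)) => (v, t)) ⁻¹' {q : (EuclideanSpace ℝ (Fin n)) × ℝ | q.2 ∈ Icc (0:ℝ) 1 ∧ y + q.2 • e - q.1 ∈ B})
      ≤ ∫⁻ t, (Icc (0:ℝ) 1).indicator (fun _ => volume B) t := by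
        apply lintegral_mono
        intro t
        by_cases ht : t ∈ Icc (0:ℝ) 1
        · rw [indicator_of_mem ht]
          have : (fun v : (EuclideanSpace ℝ (Fin n)) => (v, t)) ⁻¹' {q : (EuclideanSpace ℝ (Fin n)) × ℝ | q.2 ∈ Icc (0:ℝ) 1 ∧ y + q.2 • e - q.1 ∈ B} ⊆
              (fun v => (y + t • e) - v) ⁻¹' B := by
            intro v hv; exact hv.2
          refine (measure_mono this).trans (le_of_eq ?_)
          exact (Measure.measurePreserving_sub_left volume (y + t • e)).measure_preimage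
            hB.nullMeasurableSet
        · rw [indicator_of_notMem ht]
          have : (fun v : (EuclideanSpace ℝ (Fin n)) => (v, t)) ⁻¹' {q : (EuclideanSpace ℝ (Fin n)) × ℝ | q.2 ∈ Icc (0:ℝ) 1 ∧ y + q.2 • e - q.1 ∈ B} = ∅ := by
            ext v
            simp only [mem_preimage, mem_empty_iff_false, iff_false]
            intro hv; exact ht hv.1
          show volume ((fun v : (EuclideanSpace ℝ (Fin n)) => (v, t)) ⁻¹' {q : (EuclideanSpace ℝ (Fin n)) × ℝ | q.2 ∈ Icc (0:ℝ) 1 ∧ y + q.2 • e - q.1 ∈ B}) ≤ 0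
          rw [this, measure_empty]
    _ = volume B := by
        rw [lintegral_indicator measurableSet_Icc, lintegral_const]
        simp

theorem integral_len_le {B : Set (EuclideanSpace ℝ (Fin n))} (hB : MeasurableSet B) (y e : (EuclideanSpace ℝ (Fin n))) (Q : Set (EuclideanSpace ℝ (Fin n))) {M : ℝ}
    (hM : 0 ≤ M) (hBM : volume B ≤ ENNReal.ofReal M) :
    ∫ v in Q, len B y e v ≤ M := by
  have h1 : ∫ v in Q, len B y e v = (∫⁻ v in Q, ENNReal.ofReal (len B y e v)).toReal := by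
    rw [integral_eq_lintegral_of_nonneg_ae]
    · exact Filter.Eventually.of_forall fun v => len_nonneg _ _ _ _
    · exact (measurable_len hB y e).aestronglyMeasurable
  rw [h1]
  have h2 : ∫⁻ v in Q, ENNReal.ofReal (len B y e v) ≤ ENNReal.ofReal M := by
    calc ∫⁻ v in Q, ENNReal.ofReal (len B y e v) ≤ ∫⁻ v, ENNReal.ofReal (len B y e v) :=
          setLIntegral_le_lintegral _ _
      _ = ∫⁻ v, volume (lenSet B y e v) := by simp_rw [ofReal_len]
      _ ≤ volume B := lintegral_volume_lenSet hB y e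
      _ ≤ _ := hBM
  exact ENNReal.toReal_le_of_le_ofReal hM h2

/-- Transversal segments meet thin sets in short sets. -/
theorem len_le_of_transversal {B : Set (EuclideanSpace ℝ (Fin n))} {u : (EuclideanSpace ℝ (Fin n))} {r α : ℝ} (hr : 0 ≤ r) (hα : 0 < α)
    (hB : ∀ z ∈ B, ‖perp u z‖ ≤ r) {e : (EuclideanSpace ℝ (Fin n))} (he : α ≤ ‖perp u e‖) (y v : (EuclideanSpace ℝ (Fin n))) :
    len B y e v ≤ 2 * r / α := by
  unfold len
  apply ENNReal.toReal_le_of_le_ofReal (by positivity)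
  refine (Real.volume_le_diam _).trans ?_
  apply Metric.ediam_le
  intro s hs t ht
  rw [edist_dist]
  apply ENNReal.ofReal_le_ofReal
  have h1 := hB _ hs.2
  have h2 := hB _ ht.2
  have h3 : perp u (y + s • e - v) - perp u (y + t • e - v) = (s - t) • perp u e := by
    rw [← map_sub, ← map_smul]; congr 1; rw [sub_smul]; abel
  have h4 : |s - t| * ‖perp u e‖ ≤ 2 * r := by
    rw [← Real.norm_eq_abs, ← norm_smul, ← h3]
    calc _ ≤ _ := norm_sub_le _ _
      _ ≤ 2 * r := by linarith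
  rw [Real.dist_eq, le_div_iff₀ hα]
  calc |s - t| * α ≤ |s - t| * ‖perp u e‖ := by gcongr
    _ ≤ 2 * r := h4

/-- If the segment is covered, then the lengths add up to at least one. -/
theorem one_le_sum_len {T : Type*} (S : Finset T) (B : T → Set (EuclideanSpace ℝ (Fin n))) (v : T → (EuclideanSpace ℝ (Fin n))) (y e : (EuclideanSpace ℝ (Fin n)))
    (h : ∀ t ∈ Icc (0:ℝ) 1, ∃ u ∈ S, y + t • e - v u ∈ B u) :
    1 ≤ ∑ u ∈ S, len (B u) y e (v u) := by
  have h1 : Icc (0:ℝ) 1 ⊆ ⋃ u ∈ S, lenSet (B u) y e (v u) := by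
    intro t ht
    obtain ⟨u, hu, h2⟩ := h t ht
    exact mem_iUnion₂.2 ⟨u, hu, ht, h2⟩
  have h2 : (1 : ENNReal) ≤ ∑ u ∈ S, volume (lenSet (B u) y e (v u)) := by
    calc (1 : ENNReal) = volume (Icc (0:ℝ) 1) := by simp
      _ ≤ volume (⋃ u ∈ S, lenSet (B u) y e (v u)) := measure_mono h1
      _ ≤ _ := measure_biUnion_finset_le _ _
  have h3 : ∑ u ∈ S, volume (lenSet (B u) y e (v u)) =
      ENNReal.ofReal (∑ u ∈ S, len (B u) y e (v u)) := by
    rw [ENNReal.ofReal_sum_of_nonneg (fun u _ => len_nonneg _ _ _ _)]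
    simp_rw [ofReal_len]
  rw [h3] at h2
  exact ENNReal.one_le_ofReal.1 h2

end Pool.Agent.KakeyaSticky
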