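import Pool.Agent.KakeyaSticky.Defs

/-!
Passage to the limit: from the inductive step to the Kakeya set all of whose line families
have full packing dimension.
-/

namespace Pool.Agent.KakeyaSticky

open Set Metric MeasureTheory

variable {n : ℕ}

/-- Lines contained in a compact set form a compact family (closures). -/
lemma linesIn_closure {K : Set (EuclideanSpace ℝ (Fin n))} (hK : IsCompact K)
    {L : Set (EuclideanSpace ℝ (Fin n) × EuclideanSpace ℝ (Fin n))} (hL : LinesIn K L) :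
    IsCompact (closure L) ∧ LinesIn K (closure L) := by
  set T : Set ((EuclideanSpace ℝ (Fin n) × EuclideanSpace ℝ (Fin n)) × ℝ) :=
    {z | ‖z.1.1‖ = 1 ∧ inner ℝ z.1.1 z.1.2 = (0:ℝ) ∧
      ∀ t ∈ Set.Icc (0:ℝ) 1, z.1.2 + (z.2 + t) • z.1.1 ∈ K} with hT
  have hTclosed : IsClosed T := by
    have h1 : IsClosed {z : (EuclideanSpace ℝ (Fin n) × EuclideanSpace ℝ (Fin n)) × ℝ |
        ‖z.1.1‖ = 1} :=
      isClosed_eq (by fun_prop) continuous_const
    have h2 : IsClosed {z : (EuclideanSpace ℝ (Fin n) × EuclideanSpace ℝ (Fin n)) × ℝ |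
        inner ℝ z.1.1 z.1.2 = (0:ℝ)} :=
      isClosed_eq (by fun_prop) continuous_const
    have h3 : IsClosed {z : (EuclideanSpace ℝ (Fin n) × EuclideanSpace ℝ (Fin n)) × ℝ |
        ∀ t ∈ Set.Icc (0:ℝ) 1, z.1.2 + (z.2 + t) • z.1.1 ∈ K} := by
      simp only [Set.ofPred_forall]
      refine isClosed_iInter fun t => isClosed_iInter fun _ => ?_
      exact hK.isClosed.preimage (by fun_prop)
    exact h1.inter (h2.inter h3)
  obtain ⟨R, hR⟩ := hK.isBounded.subset_closedBall (0 : EuclideanSpace ℝ (Fin n))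
  have hTbdd : Bornology.IsBounded T := by
    refine (Metric.isBounded_closedBall (x := (0 : (EuclideanSpace ℝ (Fin n) ×
      EuclideanSpace ℝ (Fin n)) × ℝ)) (r := max 1 R)).subset ?_
    rintro z ⟨hz1, hz2, hz3⟩
    have h0 := hR (hz3 0 ⟨le_refl _, zero_le_one⟩)
    rw [mem_closedBall_zero_iff, add_zero] at h0
    have hR0 : 0 ≤ R := (norm_nonneg _).trans h0
    have hsq : ‖z.1.2 + z.2 • z.1.1‖ ^ 2 = ‖z.1.2‖ ^ 2 + z.2 ^ 2 := by
      rw [norm_add_sq_real, inner_smul_right, real_inner_comm, hz2, norm_smul, hz1]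
      simp
    have hle : ‖z.1.2‖ ^ 2 + z.2 ^ 2 ≤ R ^ 2 := by
      rw [← hsq]
      exact pow_le_pow_left₀ (norm_nonneg _) h0 2
    have ha : ‖z.1.2‖ ≤ R :=
      abs_le_of_sq_le_sq' (by nlinarith [sq_nonneg z.2]) hR0 |>.2
    have hb : |z.2| ≤ R :=
      abs_le.2 (abs_le_of_sq_le_sq' (by nlinarith [sq_nonneg ‖z.1.2‖]) hR0)
    rw [mem_closedBall_zero_iff, Prod.norm_def, Prod.norm_def]
    refine max_le (max_le ?_ ?_) ?_
    · rw [hz1]; exact le_max_left _ _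
    · exact ha.trans (le_max_right _ _)
    · rw [Real.norm_eq_abs]; exact hb.trans (le_max_right _ _)
  have hTc : IsCompact T := Metric.isCompact_of_isClosed_isBounded hTclosed hTbdd
  have hIc : IsCompact (Prod.fst '' T) := hTc.image continuous_fst
  have hLI : L ⊆ Prod.fst '' T := by
    rintro q hq
    obtain ⟨h1, h2, a, ha⟩ := hL q hq
    refine ⟨(q, a), ⟨h1, h2, fun t ht => ?_⟩, rfl⟩
    exact ha (a + t) ⟨by linarith [ht.1], by linarith [ht.2]⟩
  have hcl : closure L ⊆ Prod.fst '' T := closure_minimal hLI hIc.isClosed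
  refine ⟨hIc.of_isClosed_subset isClosed_closure hcl, fun q hq => ?_⟩
  obtain ⟨z, ⟨h1, h2, h3⟩, rfl⟩ := hcl hq
  refine ⟨h1, h2, z.2, fun t ht => ?_⟩
  have := h3 (t - z.2) ⟨by linarith [ht.1], by linarith [ht.2]⟩
  rwa [add_sub_cancel] at this

/-- Existence of almost optimal Kakeya sets that are null. -/
lemma exists_null_kakeya {s : ℝ} (hs : kakeyaDim n < ENNReal.ofReal s) :
    ∃ K₀ : Set (EuclideanSpace ℝ (Fin n)), IsKakeya K₀ ∧ μH[s] K₀ = 0 := by
  have hs0 : 0 < s := by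
    by_contra hcon
    rw [ENNReal.ofReal_of_nonpos (not_lt.1 hcon)] at hs
    exact not_lt_bot hs
  unfold kakeyaDim at hs
  simp only [iInf_lt_iff] at hs
  obtain ⟨K₀, hK, hd⟩ := hs
  refine ⟨K₀, hK, ?_⟩
  have h1 : μH[((s.toNNReal : NNReal) : ℝ)] K₀ = 0 := hausdorffMeasure_of_dimH_lt hd
  rwa [Real.coe_toNNReal s hs0.le] at h1

/-- Sum of `s'`-powers is bounded by sum of `s`-powers when the latter is at most one. -/
lemma tsum_le_of_smallContent {s s' : ℝ} (hs : 0 < s) (hss : s ≤ s')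
    {t : ℕ → Set (EuclideanSpace ℝ (Fin n))} {ε : ENNReal} (hε : ε ≤ 1)
    (h : ∑' i, Metric.ediam (t i) ^ s ≤ ε) :
    (∑' i, Metric.ediam (t i) ^ s' ≤ ε) ∧ ∀ i, Metric.ediam (t i) ≤ ε ^ (1 / s') := by
  have hs' : 0 < s' := hs.trans_le hss
  have hterm : ∀ i, Metric.ediam (t i) ^ s ≤ ε := fun i => (ENNReal.le_tsum i).trans h
  have hle1 : ∀ i, Metric.ediam (t i) ≤ 1 := by
    intro i
    by_contra hcon
    rw [not_le] at hcon
    have h1 : 1 < Metric.ediam (t i) ^ s := ENNReal.one_lt_rpow hcon hs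
    exact absurd ((hterm i).trans hε) (not_le.2 h1)
  have hpow : ∀ i, Metric.ediam (t i) ^ s' ≤ Metric.ediam (t i) ^ s := fun i =>
    ENNReal.rpow_le_rpow_of_exponent_ge (hle1 i) hss
  refine ⟨(ENNReal.tsum_le_tsum hpow).trans h, fun i => ?_⟩
  have h2 : Metric.ediam (t i) ^ s' ≤ ε := (hpow i).trans (hterm i)
  calc Metric.ediam (t i) = (Metric.ediam (t i) ^ s') ^ (1 / s') := by
        rw [← ENNReal.rpow_mul, mul_one_div_cancel hs'.ne', ENNReal.rpow_one]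
    _ ≤ ε ^ (1 / s') := ENNReal.rpow_le_rpow h2 (by positivity)

/-- Dimension bound for the limit set. -/
lemma dimH_le_of_covers {K : Set (EuclideanSpace ℝ (Fin n))} {d : ENNReal} {s ε : ℕ → ℝ}
    (hs0 : ∀ j, 0 < s j) (hslim : Filter.Tendsto (fun j => ENNReal.ofReal (s j)) Filter.atTop
      (nhds d)) (hε : Filter.Tendsto ε Filter.atTop (nhds 0)) (hε1 : ∀ j, ε j ≤ 1)
    (hK : ∀ j, SmallContent (s j) (ENNReal.ofReal (ε j)) K) : dimH K ≤ d := by
  refine le_of_forall_gt_imp_ge_of_dense fun a ha => ?_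
  obtain ⟨b, hb1, hb2⟩ := ENNReal.lt_iff_exists_nnreal_btwn.1 ha
  refine le_trans ?_ hb2.le
  have hb0 : (0:ℝ) < b := by
    have : (0:ENNReal) < b := lt_of_le_of_lt zero_le hb1
    exact_mod_cast this
  have hev : ∀ᶠ j in Filter.atTop, s j ≤ b := by
    have h1 : ∀ᶠ j in Filter.atTop, ENNReal.ofReal (s j) < b := hslim.eventually_lt_const hb1
    filter_upwards [h1] with j hj
    have h2 : ENNReal.ofReal (s j) ≤ ENNReal.ofReal b := by
      rw [ENNReal.ofReal_coe_nnreal]; exact hj.le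
    exact (ENNReal.ofReal_le_ofReal_iff b.coe_nonneg).1 h2
  choose t ht1 ht2 using hK
  have hεlim : Filter.Tendsto (fun j => ENNReal.ofReal (ε j)) Filter.atTop (nhds 0) := by
    have := ENNReal.tendsto_ofReal hε
    simpa using this
  have hr : Filter.Tendsto (fun j => ENNReal.ofReal (ε j) ^ (1 / (b:ℝ))) Filter.atTop
      (nhds 0) := by
    have h3 := ((ENNReal.continuous_rpow_const (y := 1 / (b:ℝ))).tendsto 0).comp hεlim
    rw [ENNReal.zero_rpow_of_pos (by positivity)] at h3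
    exact h3
  have hmeas := Measure.hausdorffMeasure_le_liminf_tsum (b:ℝ) K
    (fun j => ENNReal.ofReal (ε j) ^ (1 / (b:ℝ))) hr t
    (by
      filter_upwards [hev] with j hj i
      exact (tsum_le_of_smallContent (hs0 j) hj (ENNReal.ofReal_le_one.2 (hε1 j)) (ht2 j)).2 i)
    (Filter.Eventually.of_forall ht1)
  have hlim : Filter.liminf (fun j => ∑' i, Metric.ediam (t j i) ^ (b:ℝ)) Filter.atTop ≤ 0 := by
    calc Filter.liminf (fun j => ∑' i, Metric.ediam (t j i) ^ (b:ℝ)) Filter.atTop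
        ≤ Filter.liminf (fun j => ENNReal.ofReal (ε j)) Filter.atTop := by
          refine Filter.liminf_le_liminf ?_
          filter_upwards [hev] with j hj
          exact (tsum_le_of_smallContent (hs0 j) hj (ENNReal.ofReal_le_one.2 (hε1 j))
            (ht2 j)).1
      _ = 0 := hεlim.liminf_eq
  refine dimH_le_of_hausdorffMeasure_ne_top ?_
  exact ne_top_of_le_ne_top ENNReal.zero_ne_top (hmeas.trans hlim)

/-- Packing bound for the limit set. -/
lemma packing_bound (hn : 2 ≤ n) {K : Set (EuclideanSpace ℝ (Fin n))} (hK : IsCompact K)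
    {ε δ : ℕ → ℝ} (hδ0 : ∀ j, 0 < δ j) (hδε : ∀ j, δ j < ε j)
    (hε : Filter.Tendsto ε Filter.atTop (nhds 0))
    (hsc : ∀ j, Scatter K (ε j) (δ j))
    {L : Set (EuclideanSpace ℝ (Fin n) × EuclideanSpace ℝ (Fin n))} (hL : LinesIn K L)
    (hdir : ∀ e : EuclideanSpace ℝ (Fin n), ‖e‖ = 1 → ∃ p, (e, p) ∈ L)
    {r : ℝ} (hr : PackingDimLE L r) : 2 * ((n:ℝ) - 1) ≤ r := by
  by_contra hcon
  rw [not_le] at hcon
  obtain ⟨s, hrs, hs⟩ := exists_between hcon
  obtain ⟨t, hst, ht⟩ := exists_between hs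
  obtain ⟨P, hLP, hP⟩ := hr s hrs
  have hcl : ∀ i, IsCompact (closure (P i ∩ L)) ∧ LinesIn K (closure (P i ∩ L)) := fun i =>
    linesIn_closure hK fun q hq => hL q hq.2
  have hne : Nonempty (Metric.sphere (0 : EuclideanSpace ℝ (Fin n)) 1) := by
    refine ⟨⟨EuclideanSpace.single ⟨0, by omega⟩ 1, ?_⟩⟩
    simp
  set C : ℕ → Set (Metric.sphere (0 : EuclideanSpace ℝ (Fin n)) 1) := fun i =>
    {x | x.1 ∈ Prod.fst '' closure (P i ∩ L)} with hC
  have hCclosed : ∀ i, IsClosed (C i) := fun i =>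
    ((hcl i).1.image continuous_fst).isClosed.preimage continuous_subtype_val
  have hCU : ⋃ i, C i = univ := by
    refine eq_univ_of_forall fun x => ?_
    have hx : ‖x.1‖ = 1 := by simp
    obtain ⟨p, hp⟩ := hdir x.1 hx
    obtain ⟨i, hi⟩ := mem_iUnion.1 (hLP hp)
    exact mem_iUnion.2 ⟨i, ⟨(x.1, p), subset_closure ⟨hi, hp⟩, rfl⟩⟩
  obtain ⟨i, e₀, he₀⟩ := nonempty_interior_of_iUnion_of_closed hCclosed hCU
  obtain ⟨r₀, hr₀, hball⟩ := Metric.mem_nhds_iff.1 (mem_interior_iff_mem_nhds.1 he₀)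
  have he₀n : ‖e₀.1‖ = 1 := by simp
  obtain ⟨δ₀, hδ₀, hcov⟩ := hP i t hst
  have h1 : ∀ᶠ j in Filter.atTop, ε j < r₀ := hε.eventually_lt_const hr₀
  have h2 : ∀ᶠ j in Filter.atTop, ε j < 2 * ((n:ℝ) - 1) - t :=
    hε.eventually_lt_const (by linarith)
  have h3 : ∀ᶠ j in Filter.atTop, ε j < δ₀ := hε.eventually_lt_const hδ₀
  have h4 : ∀ᶠ j in Filter.atTop, ε j < 1 := hε.eventually_lt_const one_pos
  obtain ⟨j, hj1, hj2, hj3, hj4⟩ := (h1.and (h2.and (h3.and h4))).exists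
  obtain ⟨F, hF, hPF⟩ := hcov (δ j) (hδ0 j) ((hδε j).trans hj3)
  have hLF : closure (P i ∩ L) ⊆ ⋃ x ∈ F, Metric.closedBall x (δ j) := by
    refine closure_minimal ?_ (F.finite_toSet.isClosed_biUnion fun x _ =>
      Metric.isClosed_closedBall)
    intro q hq
    obtain ⟨x, hx, hqx⟩ := mem_iUnion₂.1 (hPF hq.1)
    exact mem_iUnion₂.2 ⟨x, hx, Metric.ball_subset_closedBall hqx⟩
  have hkey := hsc j e₀.1 he₀n (closure (P i ∩ L)) (hcl i).2 (by
    intro e he hde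
    have hmem : (⟨e, by simpa using he⟩ : Metric.sphere (0 : EuclideanSpace ℝ (Fin n)) 1)
        ∈ C i := by
      apply hball
      rw [Metric.mem_ball, Subtype.dist_eq]
      exact hde.trans hj1
    obtain ⟨q, hq, hqe⟩ := hmem
    refine ⟨q.2, ?_⟩
    have : q = (e, q.2) := Prod.ext hqe rfl
    rwa [← this]) F hLF
  have hδ1 : δ j < 1 := (hδε j).trans hj4
  have hlt : δ j ^ (-t) < δ j ^ (-(2 * ((n:ℝ) - 1) - ε j)) :=
    Real.rpow_lt_rpow_of_exponent_gt (hδ0 j) hδ1 (by linarith)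
  linarith

lemma kakeya_inter {O : ℕ → Set (EuclideanSpace ℝ (Fin n))} (hO : ∀ j, GoodOpen (O j))
    (hsub : ∀ j, closure (O (j + 1)) ⊆ O j) : IsKakeya (⋂ j, closure (O j)) := by
  have hcomp : ∀ j, IsCompact (closure (O j)) := fun j =>
    Metric.isCompact_of_isClosed_isBounded isClosed_closure (hO j).2.1.closure
  refine ⟨(hcomp 0).of_isClosed_subset (isClosed_iInter fun j => isClosed_closure)
    (iInter_subset _ 0), fun e he => ?_⟩
  set S : ℕ → Set (EuclideanSpace ℝ (Fin n)) := fun j =>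
    {x | ∀ t ∈ Set.Icc (0:ℝ) 1, x + t • e ∈ closure (O j)} with hS
  have hScl : ∀ j, IsClosed (S j) := by
    intro j
    simp only [hS, Set.ofPred_forall]
    exact isClosed_iInter fun t => isClosed_iInter fun _ =>
      isClosed_closure.preimage (by fun_prop)
  have hSsub : ∀ j, S j ⊆ closure (O j) := by
    intro j x hx
    have := hx 0 ⟨le_refl _, zero_le_one⟩
    simpa using this
  have hSne : ∀ j, (S j).Nonempty := by
    intro j
    obtain ⟨x, hx⟩ := (hO j).2.2 e he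
    exact ⟨x, fun t ht => subset_closure (hx t ht)⟩
  have hSmono : ∀ j, S (j + 1) ⊆ S j := fun j x hx t ht =>
    subset_closure (hsub j (hx t ht))
  obtain ⟨x, hx⟩ := IsCompact.nonempty_iInter_of_sequence_nonempty_isCompact_isClosed S hSmono
    hSne ((hcomp 0).of_isClosed_subset (hScl 0) (hSsub 0)) hScl
  refine ⟨x, fun t ht => mem_iInter.2 fun j => ?_⟩
  exact (mem_iInter.1 hx j) t ht

/-- The limit of a nested sequence of good open sets with the scattering property. -/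
theorem limit_of_seq {n : ℕ} (hn : 2 ≤ n) (O : ℕ → Set (EuclideanSpace ℝ (Fin n)))
    (hgood : ∀ j, GoodOpen (O j)) (hnest : ∀ j, closure (O (j + 1)) ⊆ O j) (ε δ : ℕ → ℝ)
    (hε : Filter.Tendsto ε Filter.atTop (nhds 0)) (hδ0 : ∀ j, 0 < δ j) (hδ : ∀ j, δ j < ε j)
    (hsc : ∀ j, Scatter (closure (O (j + 1))) (ε j) (δ j)) :
    IsKakeya (⋂ j, closure (O j)) ∧ ∀ L, LinesIn (⋂ j, closure (O j)) L →
      (∀ e : EuclideanSpace ℝ (Fin n), ‖e‖ = 1 → ∃ p, (e, p) ∈ L) →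
      ∀ r : ℝ, PackingDimLE L r → 2 * ((n:ℝ) - 1) ≤ r := by
  have hKak : IsKakeya (⋂ j, closure (O j)) := kakeya_inter hgood hnest
  refine ⟨hKak, fun L hL hdir r hr => ?_⟩
  refine packing_bound hn hKak.1 (ε := ε) (δ := δ) hδ0 hδ hε (fun j => ?_) hL hdir hr
  intro e₀ he₀ L' hL' hdir' F hF
  refine hsc j e₀ he₀ L' (fun q hq => ?_) hdir' F hF
  obtain ⟨h1, h2, a, ha⟩ := hL' q hq
  exact ⟨h1, h2, a, fun t ht => iInter_subset _ (j + 1) (ha t ht)⟩

theorem main_of_step (hn : 2 ≤ n) (hstep : StepStatement n) (h : kakeyaDim n < n) :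
    ∃ K : Set (EuclideanSpace ℝ (Fin n)), IsKakeya K ∧ dimH K = kakeyaDim n ∧
      ∀ L, LinesIn K L → (∀ e : EuclideanSpace ℝ (Fin n), ‖e‖ = 1 → ∃ p, (e, p) ∈ L) →
        ∀ r : ℝ, PackingDimLE L r → 2 * ((n:ℝ) - 1) ≤ r := by
  have hdtop : kakeyaDim n ≠ ⊤ := ne_top_of_lt h
  obtain ⟨d, hd⟩ : ∃ d : ℝ, d = (kakeyaDim n).toReal := ⟨_, rfl⟩
  have hd0 : 0 ≤ d := hd ▸ ENNReal.toReal_nonneg
  have hdK : ENNReal.ofReal d = kakeyaDim n := by rw [hd, ENNReal.ofReal_toReal hdtop]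
  have hdn : d < n := by
    have h1 := ENNReal.toReal_strict_mono (ENNReal.natCast_ne_top n) h
    rwa [ENNReal.toReal_natCast, ← hd] at h1
  obtain ⟨s, hs⟩ : ∃ s : ℕ → ℝ, ∀ j, s j = d + (n - d) * (1 / ((j:ℝ) + 1 + 1)) :=
    ⟨_, fun j => rfl⟩
  have hinv : ∀ j : ℕ, 0 < 1 / ((j:ℝ) + 1 + 1) ∧ 1 / ((j:ℝ) + 1 + 1) < 1 := by
    intro j
    have hj : (0:ℝ) ≤ j := Nat.cast_nonneg j
    refine ⟨by positivity, ?_⟩
    rw [div_lt_one (by positivity)]
    linarith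
  have hsd : ∀ j, d < s j := fun j => by
    rw [hs]; nlinarith [(hinv j).1, mul_pos (sub_pos.2 hdn) (hinv j).1]
  have hsn : ∀ j, s j < n := fun j => by
    rw [hs]; nlinarith [(hinv j).2, mul_pos (sub_pos.2 hdn) (sub_pos.2 (hinv j).2)]
  have hs0 : ∀ j, 0 < s j := fun j => hd0.trans_lt (hsd j)
  have hslim : Filter.Tendsto (fun j => ENNReal.ofReal (s j)) Filter.atTop
      (nhds (kakeyaDim n)) := by
    rw [← hdK]
    refine ENNReal.tendsto_ofReal ?_
    have h1 : Filter.Tendsto (fun j : ℕ => 1 / ((j:ℝ) + 1 + 1)) Filter.atTop (nhds 0) := by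
      have := (tendsto_one_div_add_atTop_nhds_zero_nat (𝕜 := ℝ)).comp
        (Filter.tendsto_add_atTop_nat 1)
      refine this.congr fun j => ?_
      simp
    have h2 := (h1.const_mul ((n:ℝ) - d)).const_add d
    rw [mul_zero, add_zero] at h2
    exact h2.congr fun j => (hs j).symm
  obtain ⟨ε, hε⟩ : ∃ ε : ℕ → ℝ, ∀ j, ε j = 1 / ((j:ℝ) + 1) := ⟨_, fun j => rfl⟩
  have hε0 : ∀ j, 0 < ε j := fun j => by rw [hε]; positivity
  have hε1 : ∀ j, ε j ≤ 1 := fun j => by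
    rw [hε, div_le_one (by positivity)]
    have : (0:ℝ) ≤ j := Nat.cast_nonneg j
    linarith
  have hεlim : Filter.Tendsto ε Filter.atTop (nhds 0) :=
    (tendsto_one_div_add_atTop_nhds_zero_nat (𝕜 := ℝ)).congr fun j => (hε j).symm
  have hstep' : ∀ (j : ℕ) (O : {O : Set (EuclideanSpace ℝ (Fin n)) // GoodOpen O}),
      ∃ O' : {O : Set (EuclideanSpace ℝ (Fin n)) // GoodOpen O}, closure O'.1 ⊆ O.1 ∧
        SmallContent (s j) (ENNReal.ofReal (ε j)) (closure O'.1) ∧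
        ∃ δ : ℝ, 0 < δ ∧ δ < ε j ∧ Scatter (closure O'.1) (ε j) δ := by
    intro j O
    have hlt : kakeyaDim n < ENNReal.ofReal (s j) := by
      rw [← hdK]
      exact (ENNReal.ofReal_lt_ofReal_iff (hs0 j)).2 (hsd j)
    obtain ⟨K₀, hK₀, hK₀0⟩ := exists_null_kakeya hlt
    obtain ⟨O', hO', h1, h2, h3⟩ := hstep (s j) K₀ (hs0 j) (hsn j) hK₀ hK₀0 O.1 O.2 (ε j)
      (hε0 j)
    exact ⟨⟨O', hO'⟩, h1, h2, h3⟩
  choose f hf1 hf2 δ' hf3 hf4 hf5 using hstep'
  have hO₀ : GoodOpen (Metric.ball (0 : EuclideanSpace ℝ (Fin n)) 2) := by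
    refine ⟨Metric.isOpen_ball, Metric.isBounded_ball, fun e he => ⟨0, fun t ht => ?_⟩⟩
    rw [zero_add, mem_ball_zero_iff, norm_smul, he, mul_one, Real.norm_eq_abs,
      abs_of_nonneg ht.1]
    linarith [ht.2]
  obtain ⟨O, hO0, hOs⟩ : ∃ O : ℕ → {O : Set (EuclideanSpace ℝ (Fin n)) // GoodOpen O},
      O 0 = ⟨_, hO₀⟩ ∧ ∀ j, O (j + 1) = f j (O j) :=
    ⟨fun j => Nat.rec ⟨_, hO₀⟩ (fun j O => f j O) j, rfl, fun j => rfl⟩
  have hsub : ∀ j, closure (O (j + 1)).1 ⊆ (O j).1 := fun j => by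
    rw [hOs]; exact hf1 j (O j)
  have hKsub : ∀ j, (⋂ j, closure (O j).1) ⊆ closure (f j (O j)).1 := fun j => by
    rw [← hOs]; exact iInter_subset _ (j + 1)
  have hlimit := limit_of_seq hn (fun j => (O j).1) (fun j => (O j).2) hsub ε
    (fun j => δ' j (O j)) hεlim (fun j => hf3 j (O j)) (fun j => hf4 j (O j))
    (fun j => by rw [hOs]; exact hf5 j (O j))
  refine ⟨_, hlimit.1, le_antisymm ?_ (iInf₂_le _ hlimit.1), hlimit.2⟩
  refine dimH_le_of_covers hs0 hslim hεlim hε1 fun j => ?_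
  obtain ⟨t, ht1, ht2⟩ := hf2 j (O j)
  exact ⟨t, (hKsub j).trans ht1, ht2⟩

end Pool.Agent.KakeyaSticky
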