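import Pool.Agent.KakeyaSticky.Step
import Pool.Agent.KakeyaSticky.Limit
import Pool.Agent.KakeyaSticky.Besicovitch

/-!
The unconditional theorem.
-/

namespace Pool.Agent.KakeyaSticky

open Set Metric MeasureTheory

variable {n : ℕ}

theorem limit_of_null (hn : 2 ≤ n) :
    ∃ K : Set (EuclideanSpace ℝ (Fin n)), IsKakeya K ∧
      ∀ L, LinesIn K L → (∀ e : EuclideanSpace ℝ (Fin n), ‖e‖ = 1 → ∃ p, (e, p) ∈ L) →
        ∀ r : ℝ, PackingDimLE L r → 2 * ((n:ℝ) - 1) ≤ r := by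
  obtain ⟨ε, hε⟩ : ∃ ε : ℕ → ℝ, ∀ j, ε j = 1 / ((j:ℝ) + 1) := ⟨_, fun j => rfl⟩
  have hε0 : ∀ j, 0 < ε j := fun j => by rw [hε]; positivity
  have hεlim : Filter.Tendsto ε Filter.atTop (nhds 0) :=
    (tendsto_one_div_add_atTop_nhds_zero_nat (𝕜 := ℝ)).congr fun j => (hε j).symm
  have hstep' : ∀ (j : ℕ) (O : {O : Set (EuclideanSpace ℝ (Fin n)) // GoodOpen O}),
      ∃ O' : {O : Set (EuclideanSpace ℝ (Fin n)) // GoodOpen O}, closure O'.1 ⊆ O.1 ∧
        ∃ δ : ℝ, 0 < δ ∧ δ < ε j ∧ Scatter (closure O'.1) (ε j) δ := by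
    intro j O
    obtain ⟨O', hO', h1, h2⟩ := step0 hn (isKakeya_besic hn) (volume_besic hn) O.2 (hε0 j)
    exact ⟨⟨O', hO'⟩, h1, h2⟩
  choose f hf1 δ' hf3 hf4 hf5 using hstep'
  have hO₀ : GoodOpen (Metric.ball (0 : EuclideanSpace ℝ (Fin n)) 2) := by
    refine ⟨Metric.isOpen_ball, Metric.isBounded_ball, fun e he => ⟨0, fun t ht => ?_⟩⟩
    rw [zero_add, mem_ball_zero_iff, norm_smul, he, mul_one, Real.norm_eq_abs,
      abs_of_nonneg ht.1]
    linarith [ht.2]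
  obtain ⟨O, hO0, hOs⟩ : ∃ O : ℕ → {O : Set (EuclideanSpace ℝ (Fin n)) // GoodOpen O},
      O 0 = ⟨_, hO₀⟩ ∧ ∀ j, O (j + 1) = f j (O j) :=
    ⟨fun j => Nat.rec ⟨_, hO₀⟩ (fun j O => f j O) j, rfl, fun j => rfl⟩
  have hsub : ∀ j, closure (O (j + 1)).1 ⊆ (O j).1 := fun j => by
    rw [hOs]; exact hf1 j (O j)
  have hK : IsKakeya (⋂ j, closure (O j).1) := kakeya_inter (fun j => (O j).2) hsub
  refine ⟨⋂ j, closure (O j).1, hK, fun L hL hdir r hr => ?_⟩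
  refine packing_bound hn hK.1 (ε := ε) (δ := fun j => δ' j (O j)) (fun j => hf3 j _)
    (fun j => hf4 j _) hεlim (fun j => ?_) hL hdir hr
  have h1 := hf5 j (O j)
  rw [← hOs] at h1
  exact Scatter_anti h1 (iInter_subset _ (j + 1))

theorem dimH_le_card (K : Set (EuclideanSpace ℝ (Fin n))) : dimH K ≤ n := by
  calc dimH K ≤ dimH (univ : Set (EuclideanSpace ℝ (Fin n))) := dimH_mono (subset_univ _)
    _ = n := by
      rw [Real.dimH_univ_eq_finrank, finrank_euclideanSpace, Fintype.card_fin]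

theorem kakeyaDim_le_dimH {K : Set (EuclideanSpace ℝ (Fin n))} (hK : IsKakeya K) :
    kakeyaDim n ≤ dimH K := iInf₂_le K hK

/-- For every `n ≥ 2` there is a Kakeya set of minimal Hausdorff dimension all of whose line
families have packing dimension at least `2(n-1)`. -/
theorem main (hn : 2 ≤ n) :
    ∃ K : Set (EuclideanSpace ℝ (Fin n)), IsKakeya K ∧ dimH K = kakeyaDim n ∧
      ∀ L, LinesIn K L → (∀ e : EuclideanSpace ℝ (Fin n), ‖e‖ = 1 → ∃ p, (e, p) ∈ L) →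
        ∀ r : ℝ, PackingDimLE L r → 2 * ((n:ℝ) - 1) ≤ r := by
  rcases lt_or_ge (kakeyaDim n) n with h | h
  · exact main_of_step hn (step hn) h
  · obtain ⟨K, hK, hL⟩ := limit_of_null hn
    exact ⟨K, hK, le_antisymm ((dimH_le_card K).trans h) (kakeyaDim_le_dimH hK), hL⟩

end Pool.Agent.KakeyaSticky
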