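import Pool.Agent.KakeyaSticky.Geometry

/-!
Separated nets in bounded sets and on the unit sphere.
-/

namespace Pool.Agent.KakeyaSticky

open Set Metric MeasureTheory

variable {n : ℕ}


/-- Volume packing: disjoint sets of measure at least `m` inside a set of measure at most `M`. -/
theorem card_mul_le_of_disjoint (D : Finset (EuclideanSpace ℝ (Fin n))) (S : (EuclideanSpace ℝ (Fin n)) → Set (EuclideanSpace ℝ (Fin n))) (B : Set (EuclideanSpace ℝ (Fin n)))
    (hmeas : ∀ d ∈ D, MeasurableSet (S d)) (hdisj : ∀ d ∈ D, ∀ d' ∈ D, d ≠ d' → Disjoint (S d) (S d'))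
    (hsub : ∀ d ∈ D, S d ⊆ B) {m M : ℝ} (_hm : 0 ≤ m) (hM : 0 ≤ M)
    (hlow : ∀ d ∈ D, ENNReal.ofReal m ≤ volume (S d))
    (hup : volume B ≤ ENNReal.ofReal M) : (D.card : ℝ) * m ≤ M := by
  have h1 : ∑ d ∈ D, volume (S d) = volume (⋃ d ∈ D, S d) := by
    rw [measure_biUnion_finset]
    · intro d hd d' hd' hne
      exact hdisj d hd d' hd' hne
    · exact hmeas
  have h2 : (D.card : ENNReal) * ENNReal.ofReal m ≤ ENNReal.ofReal M := by
    calc (D.card : ENNReal) * ENNReal.ofReal m = ∑ d ∈ D, ENNReal.ofReal m := by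
          rw [Finset.sum_const, nsmul_eq_mul]
      _ ≤ ∑ d ∈ D, volume (S d) := Finset.sum_le_sum hlow
      _ = volume (⋃ d ∈ D, S d) := h1
      _ ≤ volume B := measure_mono (iUnion₂_subset hsub)
      _ ≤ ENNReal.ofReal M := hup
  rw [← ENNReal.ofReal_natCast, ← ENNReal.ofReal_mul (by positivity)] at h2
  exact (ENNReal.ofReal_le_ofReal_iff hM).1 h2

theorem volume_closedBall_eq (x : (EuclideanSpace ℝ (Fin n))) {r : ℝ} (hr : 0 ≤ r) :
    volume (closedBall x r) = ENNReal.ofReal (r ^ n * smallV n) := by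
  rw [Measure.addHaar_closedBall' _ _ hr, ENNReal.ofReal_mul (by positivity), smallV,
    ENNReal.ofReal_toReal measure_closedBall_lt_top.ne, finrank_euclideanSpace, Fintype.card_fin]

/-- Size of separated sets in a ball. -/
theorem card_le_of_separated (D : Finset (EuclideanSpace ℝ (Fin n))) {R r : ℝ} (hR : 0 ≤ R) (hr : 0 < r)
    (hD : ∀ d ∈ D, ‖d‖ ≤ R) (hsep : ∀ d ∈ D, ∀ d' ∈ D, d ≠ d' → r < dist d d') :
    (D.card : ℝ) ≤ (1 + 2 * R / r) ^ n := by
  have h := card_mul_le_of_disjoint D (fun d => closedBall d (r / 2)) (closedBall 0 (R + r / 2))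
    (fun d _ => measurableSet_closedBall)
    (fun d hd d' hd' hne => by
      apply closedBall_disjoint_closedBall
      have := hsep d hd d' hd' hne
      linarith)
    (fun d hd => by
      apply closedBall_subset_closedBall'
      have := hD d hd
      rw [dist_zero_right]; linarith)
    (m := (r / 2) ^ n * smallV n) (M := (R + r / 2) ^ n * smallV n)
    (by have := smallV_pos n; positivity) (by have := smallV_pos n; positivity)
    (fun d _ => (volume_closedBall_eq d (by positivity)).ge)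
    (volume_closedBall_eq 0 (by positivity)).le
  have h0 := smallV_pos n
  have h3 : (1 + 2 * R / r) ^ n * ((r / 2) ^ n) = (R + r / 2) ^ n := by
    rw [← mul_pow]; congr 1; field_simp; ring
  have h4 : (D.card : ℝ) * (r / 2) ^ n ≤ (1 + 2 * R / r) ^ n * ((r / 2) ^ n) := by
    rw [h3]
    nlinarith
  exact le_of_mul_le_mul_right h4 (by positivity)

/-- Existence of separated nets. -/
theorem exists_net (S : Set (EuclideanSpace ℝ (Fin n))) {R r : ℝ} (hR : 0 ≤ R) (hr : 0 < r) (hS : ∀ x ∈ S, ‖x‖ ≤ R) :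
    ∃ D : Finset (EuclideanSpace ℝ (Fin n)), (∀ d ∈ D, d ∈ S) ∧ (∀ d ∈ D, ∀ d' ∈ D, d ≠ d' → r < dist d d') ∧
      ∀ x ∈ S, ∃ d ∈ D, dist x d ≤ r := by
  classical
  let p : ℕ → Prop := fun k => ∃ D : Finset (EuclideanSpace ℝ (Fin n)), (∀ d ∈ D, d ∈ S) ∧
    (∀ d ∈ D, ∀ d' ∈ D, d ≠ d' → r < dist d d') ∧ D.card = k
  have hbound : ∀ k, p k → k ≤ ⌊(1 + 2 * R / r) ^ n⌋₊ := by
    rintro k ⟨D, hD, hsep, rfl⟩
    exact Nat.le_floor (card_le_of_separated D hR hr (fun d hd => hS d (hD d hd)) hsep)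
  have h0 : p 0 := ⟨∅, by simp, by simp, rfl⟩
  obtain ⟨D, hD, hsep, hcard⟩ := Nat.findGreatest_spec (P := p) (Nat.zero_le _) h0
  refine ⟨D, hD, hsep, ?_⟩
  intro x hx
  by_contra hcon
  push Not at hcon
  have hxD : x ∉ D := fun h => by
    have := hcon x h
    rw [dist_self] at this
    linarith
  have hp : p (D.card + 1) := by
    refine ⟨insert x D, ?_, ?_, Finset.card_insert_of_notMem hxD⟩
    · intro d hd
      rcases Finset.mem_insert.1 hd with hdx | hd
      · rw [hdx]; exact hx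
      · exact hD d hd
    · intro d hd d' hd' hne
      rcases Finset.mem_insert.1 hd with hdx | hd
      · rcases Finset.mem_insert.1 hd' with hdx' | hd'
        · exact absurd (hdx.trans hdx'.symm) hne
        · rw [hdx]; exact hcon d' hd'
      · rcases Finset.mem_insert.1 hd' with hdx' | hd'
        · rw [hdx', dist_comm]; exact hcon d hd
        · exact hsep d hd d' hd' hne
  have h1 := Nat.le_findGreatest (hbound _ hp) hp
  rw [← hcard] at h1
  exact absurd h1 (by simp)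

/-- The sector around `u`. -/
def Sect (u : (EuclideanSpace ℝ (Fin n))) (r : ℝ) : Set (EuclideanSpace ℝ (Fin n)) := {x | (1:ℝ) ≤ inner ℝ u x ∧ (inner ℝ u x : ℝ) ≤ 2 ∧ ‖perp u x‖ ≤ r}

theorem continuous_perp (u : (EuclideanSpace ℝ (Fin n))) : Continuous (perp u) := LinearMap.continuous_of_finiteDimensional _

theorem isClosed_Sect (u : (EuclideanSpace ℝ (Fin n))) (r : ℝ) : IsClosed (Sect u r) := by
  have h1 : Continuous fun x : (EuclideanSpace ℝ (Fin n)) => (inner ℝ u x : ℝ) := continuous_const.inner continuous_id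
  exact (isClosed_le continuous_const h1).inter
    ((isClosed_le h1 continuous_const).inter (isClosed_le (continuous_perp u).norm continuous_const))

theorem isClosed_Cyl (u : (EuclideanSpace ℝ (Fin n))) (a r : ℝ) : IsClosed (Cyl u a r) := by
  have h1 : Continuous fun x : (EuclideanSpace ℝ (Fin n)) => (inner ℝ u x : ℝ) := continuous_const.inner continuous_id
  exact (isClosed_le h1.abs continuous_const).inter
    (isClosed_le (continuous_perp u).norm continuous_const)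

theorem le_volume_Sect {u : (EuclideanSpace ℝ (Fin n))} (hu : ‖u‖ = 1) {r : ℝ} (hr : 0 < r) (hn : 1 ≤ n) :
    ENNReal.ofReal ((1 / 2) * r ^ (n - 1) * smallV n) ≤ volume (Sect u r) := by
  have h : (fun x => x + (3 / 2 : ℝ) • u) '' Cyl u (1 / 2) r ⊆ Sect u r := by
    rintro _ ⟨x, hx, rfl⟩
    have h1 : (inner ℝ u (x + (3 / 2 : ℝ) • u) : ℝ) = inner ℝ u x + 3 / 2 := by
      rw [inner_add_right, inner_smul_right, real_inner_self_eq_norm_sq, hu]; ring
    have h2 : perp u (x + (3 / 2 : ℝ) • u) = perp u x := by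
      rw [map_add, map_smul, perp_self hu]; simp
    have h3 := abs_le.1 hx.1
    refine ⟨?_, ?_, ?_⟩
    · show (1:ℝ) ≤ inner ℝ u (x + (3 / 2 : ℝ) • u)
      rw [h1]; linarith
    · show (inner ℝ u (x + (3 / 2 : ℝ) • u) : ℝ) ≤ 2
      rw [h1]; linarith
    · show ‖perp u (x + (3 / 2 : ℝ) • u)‖ ≤ r
      rw [h2]; exact hx.2
  calc ENNReal.ofReal ((1 / 2) * r ^ (n - 1) * smallV n) ≤ volume (Cyl u (1 / 2) r) :=
        le_volume_Cyl hu (by norm_num) hr hn
    _ = volume ((fun x => x + (3 / 2 : ℝ) • u) '' Cyl u (1 / 2) r) := by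
        rw [image_add_right, measure_preimage_add_right]
    _ ≤ volume (Sect u r) := measure_mono h

/-- The direction of a point of the sector is close to `u`. -/
theorem norm_dir_sub_le {u x : (EuclideanSpace ℝ (Fin n))} (hu : ‖u‖ = 1) {r : ℝ} (hx : x ∈ Sect u r) :
    ‖(‖x‖⁻¹ • x) - u‖ ≤ r := by
  obtain ⟨h1, h2, h3⟩ := hx
  set h : ℝ := inner ℝ u x with hh
  have hsq := norm_sq_eq hu x
  rw [← hh] at hsq
  have hxn : h ≤ ‖x‖ := (le_abs_self _).trans (abs_inner_le hu x)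
  have hxpos : 0 < ‖x‖ := by linarith
  have h4 : ‖(‖x‖⁻¹ • x) - u‖ ^ 2 = 2 - 2 * (h / ‖x‖) := by
    rw [norm_sub_sq_real, norm_smul, norm_inv, norm_norm, inv_mul_cancel₀ hxpos.ne',
      real_inner_smul_left, real_inner_comm, ← hh, hu]
    field_simp
    ring
  have h5 : 2 - 2 * (h / ‖x‖) ≤ ‖perp u x‖ ^ 2 := by
    have : 2 - 2 * (h / ‖x‖) = 2 * (‖x‖ - h) / ‖x‖ := by field_simp
    rw [this, div_le_iff₀ hxpos]
    nlinarith
  have h6 : ‖(‖x‖⁻¹ • x) - u‖ ^ 2 ≤ r ^ 2 := by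
    rw [h4]
    calc _ ≤ ‖perp u x‖ ^ 2 := h5
      _ ≤ r ^ 2 := by gcongr
  have hr : 0 ≤ r := (norm_nonneg _).trans h3
  exact (sq_le_sq₀ (norm_nonneg _) hr).1 h6

/-- constant in the counting lemma on the sphere -/
noncomputable def netC (n : ℕ) : ℝ := 6 * 24 ^ (n - 1) * bigV n / smallV n

theorem netC_pos (n : ℕ) : 0 < netC n := by
  have := bigV_pos n
  have := smallV_pos n
  unfold netC; positivity

theorem card_sphere_le (hn : 1 ≤ n) (D : Finset (EuclideanSpace ℝ (Fin n))) {r R : ℝ} (hr : 0 < r) (hr1 : r ≤ 1)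
    (hrR : r ≤ R) (hD : ∀ d ∈ D, ‖d‖ = 1) (hsep : ∀ d ∈ D, ∀ d' ∈ D, d ≠ d' → r < dist d d')
    {x₀ : (EuclideanSpace ℝ (Fin n))} (hx₀ : ‖x₀‖ = 1) (hR : ∀ d ∈ D, dist d x₀ ≤ R) :
    (D.card : ℝ) ≤ netC n * (R / r) ^ (n - 1) := by
  have hRpos : 0 < R := hr.trans_le hrR
  have h := card_mul_le_of_disjoint D (fun d => Sect d (r / 8)) (Cyl x₀ 3 (3 * R))
    (fun d _ => (isClosed_Sect d _).measurableSet)
    (fun d hd d' hd' hne => by
      rw [Set.disjoint_left]
      intro x hx hx'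
      have h1 := norm_dir_sub_le (hD d hd) hx
      have h2 := norm_dir_sub_le (hD d' hd') hx'
      have h3 := hsep d hd d' hd' hne
      have h4 : dist d d' ≤ r / 8 + r / 8 := by
        rw [dist_eq_norm]
        calc ‖d - d'‖ = ‖((‖x‖⁻¹ • x) - d') - ((‖x‖⁻¹ • x) - d)‖ := by congr 1; abel
          _ ≤ ‖(‖x‖⁻¹ • x) - d'‖ + ‖(‖x‖⁻¹ • x) - d‖ := norm_sub_le _ _
          _ ≤ _ := by linarith
      linarith)
    (fun d hd x hx => by
      obtain ⟨h1, h2, h3⟩ := hx
      have hdx : dist d x₀ ≤ R := hR d hd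
      have hdec := perp_add_par d x
      constructor
      · calc |(inner ℝ x₀ x : ℝ)| ≤ ‖x‖ := abs_inner_le hx₀ x
          _ = ‖perp d x + (inner ℝ d x : ℝ) • d‖ := by rw [hdec]
          _ ≤ ‖perp d x‖ + ‖(inner ℝ d x : ℝ) • d‖ := norm_add_le _ _
          _ ≤ r / 8 + 2 := by
              rw [norm_smul, hD d hd, Real.norm_eq_abs, abs_of_pos (by linarith), mul_one]
              linarith
          _ ≤ 3 := by linarith
      · calc ‖perp x₀ x‖ ≤ ‖x - (inner ℝ d x : ℝ) • x₀‖ := norm_perp_le_sub hx₀ x _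
          _ = ‖perp d x + (inner ℝ d x : ℝ) • (d - x₀)‖ := by
              congr 1
              rw [perp_apply, smul_sub]; abel
          _ ≤ ‖perp d x‖ + ‖(inner ℝ d x : ℝ) • (d - x₀)‖ := norm_add_le _ _
          _ ≤ r / 8 + 2 * R := by
              rw [norm_smul, Real.norm_eq_abs, abs_of_pos (by linarith), ← dist_eq_norm]
              gcongr
          _ ≤ 3 * R := by linarith)
    (m := (1 / 2) * (r / 8) ^ (n - 1) * smallV n) (M := 3 * (3 * R) ^ (n - 1) * bigV n)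
    (by have := smallV_pos n; positivity) (by have := bigV_pos n; positivity)
    (fun d hd => le_volume_Sect (hD d hd) (by positivity) hn)
    (volume_Cyl_le hx₀ (by norm_num) (by positivity) hn)
  have h0 := smallV_pos n
  have h1 := bigV_pos n
  have hpos : 0 < (1 / 2) * (r / 8) ^ (n - 1) * smallV n := by positivity
  refine le_of_mul_le_mul_right (h.trans (le_of_eq ?_)) hpos
  unfold netC
  rw [div_pow, div_pow, mul_pow, show (24:ℝ) = 3 * 8 by norm_num, mul_pow]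
  field_simp
  ring

/-- Lower bound for the size of nets of a spherical cap. -/
theorem le_card_cap (hn : 1 ≤ n) (D : Finset (EuclideanSpace ℝ (Fin n))) {r ε : ℝ} (hr : 0 < r) (hε : 0 < ε) (hε1 : ε ≤ 1)
    (hD : ∀ d ∈ D, ‖d‖ = 1) {e₀ : (EuclideanSpace ℝ (Fin n))} (he₀ : ‖e₀‖ = 1)
    (hcov : ∀ e : (EuclideanSpace ℝ (Fin n)), ‖e‖ = 1 → dist e e₀ < ε → ∃ d ∈ D, dist e d ≤ r) :
    (ε / 4) ^ n * smallV n ≤ (D.card : ℝ) * (2 * (2 * r) ^ (n - 1) * bigV n) := by
  have hsub : closedBall ((3 / 2 : ℝ) • e₀) (ε / 4) ⊆ ⋃ d ∈ D, Cyl d 2 (2 * r) := by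
    intro x hx
    rw [mem_closedBall, dist_eq_norm] at hx
    have h32 : ‖(3 / 2 : ℝ) • e₀‖ = 3 / 2 := by
      rw [norm_smul, he₀, Real.norm_eq_abs, abs_of_pos (by norm_num)]; norm_num
    have hxn : |‖x‖ - 3 / 2| ≤ ε / 4 := by
      rw [← h32]; exact (abs_norm_sub_norm_le _ _).trans hx
    have hxn' := abs_le.1 hxn
    have hxpos : 0 < ‖x‖ := by linarith
    have hdir : dist (‖x‖⁻¹ • x) e₀ < ε := by
      rw [dist_eq_norm]
      have h1 : (‖x‖⁻¹ • x) - e₀ = (‖x‖⁻¹ - (3 / 2)⁻¹) • x + (3 / 2 : ℝ)⁻¹ • (x - (3 / 2 : ℝ) • e₀) := by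
        rw [sub_smul, smul_sub, smul_smul, inv_mul_cancel₀ (by norm_num), one_smul]; abel
      have h2 : ‖(‖x‖⁻¹ - (3 / 2)⁻¹) • x‖ ≤ ε / 6 := by
        rw [norm_smul, Real.norm_eq_abs]
        have h3 : (‖x‖⁻¹ - (3 / 2)⁻¹) * ‖x‖ = -((2 / 3) * (‖x‖ - 3 / 2)) := by
          field_simp; ring
        rw [← abs_of_pos hxpos, ← abs_mul, abs_of_pos hxpos, h3, abs_neg, abs_mul,
          abs_of_pos (by norm_num : (0:ℝ) < 2 / 3)]
        linarith
      have h4 : ‖(3 / 2 : ℝ)⁻¹ • (x - (3 / 2 : ℝ) • e₀)‖ ≤ ε / 6 := by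
        rw [norm_smul, Real.norm_eq_abs, abs_of_pos (by norm_num)]
        linarith
      rw [h1]
      calc _ ≤ _ + _ := norm_add_le _ _
        _ ≤ ε / 6 + ε / 6 := add_le_add h2 h4
        _ < ε := by linarith
    have hunit : ‖‖x‖⁻¹ • x‖ = 1 := by
      rw [norm_smul, norm_inv, norm_norm, inv_mul_cancel₀ hxpos.ne']
    obtain ⟨d, hd, hdd⟩ := hcov _ hunit hdir
    refine mem_iUnion₂.2 ⟨d, hd, ?_, ?_⟩
    · exact (abs_inner_le (hD d hd) x).trans (by linarith)
    · have hxe : x = ‖x‖ • (‖x‖⁻¹ • x) := by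
        rw [smul_smul, mul_inv_cancel₀ hxpos.ne', one_smul]
      calc ‖perp d x‖ ≤ ‖x - ‖x‖ • d‖ := norm_perp_le_sub (hD d hd) x _
        _ = ‖‖x‖ • ((‖x‖⁻¹ • x) - d)‖ := by rw [smul_sub, ← hxe]
        _ = ‖x‖ * dist (‖x‖⁻¹ • x) d := by rw [norm_smul, norm_norm, dist_eq_norm]
        _ ≤ 2 * r := by
            have : ‖x‖ ≤ 2 := by linarith
            gcongr
  have h1 : volume (closedBall ((3 / 2 : ℝ) • e₀) (ε / 4)) ≤
      (D.card : ENNReal) * ENNReal.ofReal (2 * (2 * r) ^ (n - 1) * bigV n) := by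
    calc _ ≤ volume (⋃ d ∈ D, Cyl d 2 (2 * r)) := measure_mono hsub
      _ ≤ ∑ d ∈ D, volume (Cyl d 2 (2 * r)) := measure_biUnion_finset_le _ _
      _ ≤ ∑ d ∈ D, ENNReal.ofReal (2 * (2 * r) ^ (n - 1) * bigV n) :=
          Finset.sum_le_sum fun d hd => volume_Cyl_le (hD d hd) (by norm_num) (by positivity) hn
      _ = _ := by rw [Finset.sum_const, nsmul_eq_mul]
  have hb := bigV_pos n
  rw [volume_closedBall_eq _ (by positivity), ← ENNReal.ofReal_natCast,
    ← ENNReal.ofReal_mul (by positivity)] at h1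
  exact (ENNReal.ofReal_le_ofReal_iff (by positivity)).1 h1

end Pool.Agent.KakeyaSticky
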