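import Pool.Agent.KakeyaSticky.Nets

/-!
Squashed copies of a Kakeya set.
-/

namespace Pool.Agent.KakeyaSticky

open Set Metric MeasureTheory

variable {n : ℕ}


/-- Number of height cuts. -/
noncomputable def numCuts (R₀ ν : ℝ) : ℕ := ⌊2 * R₀ / ν⌋₊ + 1

/-- `i`-th height. -/
noncomputable def cutHeight (R₀ ν : ℝ) (i : ℕ) : ℝ := -R₀ + i * ν

theorem exists_cut {R₀ ν y : ℝ} (hν : 0 < ν) (h1 : -R₀ ≤ y) (h2 : y ≤ R₀) :
    ∃ i < numCuts R₀ ν, cutHeight R₀ ν i ≤ y ∧ y ≤ cutHeight R₀ ν i + ν := by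
  refine ⟨⌊(y + R₀) / ν⌋₊, ?_, ?_, ?_⟩
  · unfold numCuts
    have : ⌊(y + R₀) / ν⌋₊ ≤ ⌊2 * R₀ / ν⌋₊ := by
      apply Nat.floor_le_floor
      gcongr
      linarith
    omega
  · unfold cutHeight
    have h3 : (⌊(y + R₀) / ν⌋₊ : ℝ) ≤ (y + R₀) / ν := Nat.floor_le (div_nonneg (by linarith) hν.le)
    have h4 : (⌊(y + R₀) / ν⌋₊ : ℝ) * ν ≤ y + R₀ := by
      rwa [le_div_iff₀ hν] at h3
    linarith
  · unfold cutHeight
    have h3 : (y + R₀) / ν < (⌊(y + R₀) / ν⌋₊ : ℝ) + 1 := Nat.lt_floor_add_one _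
    have h4 : y + R₀ < ((⌊(y + R₀) / ν⌋₊ : ℝ) + 1) * ν := by
      rwa [div_lt_iff₀ hν] at h3
    linarith

/-- The aligned set in direction `u`. -/
def Aligned (K : Set (EuclideanSpace ℝ (Fin n))) (R₀ ν : ℝ) (u : (EuclideanSpace ℝ (Fin n))) : Set (EuclideanSpace ℝ (Fin n)) :=
  ⋃ i ∈ Finset.range (numCuts R₀ ν),
    ({x | (0:ℝ) ≤ inner ℝ u x ∧ (inner ℝ u x : ℝ) ≤ 1 + ν} ∩
      (fun x => x + (cutHeight R₀ ν i) • u) ⁻¹' K)

theorem mem_Aligned {K : Set (EuclideanSpace ℝ (Fin n))} {R₀ ν : ℝ} {u x : (EuclideanSpace ℝ (Fin n))} :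
    x ∈ Aligned K R₀ ν u ↔ ∃ i < numCuts R₀ ν, ((0:ℝ) ≤ inner ℝ u x ∧ (inner ℝ u x : ℝ) ≤ 1 + ν) ∧
      x + (cutHeight R₀ ν i) • u ∈ K := by
  unfold Aligned
  simp only [mem_iUnion, Finset.mem_range, mem_inter_iff, mem_preimage, exists_prop]
  rfl

theorem isCompact_Aligned {K : Set (EuclideanSpace ℝ (Fin n))} (hK : IsCompact K) (R₀ ν : ℝ) (u : (EuclideanSpace ℝ (Fin n))) :
    IsCompact (Aligned K R₀ ν u) := by
  apply Finset.isCompact_biUnion
  intro i _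
  apply IsCompact.inter_left
  · exact (Homeomorph.addRight ((cutHeight R₀ ν i) • u)).isCompact_preimage.2 hK
  · have h1 : Continuous fun x : (EuclideanSpace ℝ (Fin n)) => (inner ℝ u x : ℝ) := continuous_const.inner continuous_id
    exact (isClosed_le continuous_const h1).inter (isClosed_le h1 continuous_const)

theorem hausdorffMeasure_preimage_add_right (K : Set (EuclideanSpace ℝ (Fin n))) (s : ℝ) (c : (EuclideanSpace ℝ (Fin n))) :
    μH[s] ((fun x => x + c) ⁻¹' K) = μH[s] K :=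
  (IsometryEquiv.addRight c).hausdorffMeasure_preimage s K

theorem hausdorffMeasure_Aligned {K : Set (EuclideanSpace ℝ (Fin n))} {s : ℝ} (hK : μH[s] K = 0) (R₀ ν : ℝ) (u : (EuclideanSpace ℝ (Fin n))) :
    μH[s] (Aligned K R₀ ν u) = 0 := by
  unfold Aligned
  refine (measure_biUnion_null_iff (Finset.countable_toSet (Finset.range (numCuts R₀ ν)))).2 ?_
  intro i _
  apply measure_mono_null inter_subset_right
  rw [hausdorffMeasure_preimage_add_right, hK]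

/-- A squashed piece. -/
def Piece (K : Set (EuclideanSpace ℝ (Fin n))) (R₀ ν lam ρ : ℝ) (u : (EuclideanSpace ℝ (Fin n))) : Set (EuclideanSpace ℝ (Fin n)) :=
  squash u lam ρ '' Aligned K R₀ ν u

theorem isCompact_Piece {K : Set (EuclideanSpace ℝ (Fin n))} (hK : IsCompact K) (R₀ ν lam ρ : ℝ) (u : (EuclideanSpace ℝ (Fin n))) :
    IsCompact (Piece K R₀ ν lam ρ u) :=
  (isCompact_Aligned hK R₀ ν u).image (LinearMap.continuous_of_finiteDimensional _)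

theorem hausdorffMeasure_Piece {K : Set (EuclideanSpace ℝ (Fin n))} {s : ℝ} (hs : 0 ≤ s) (hK : μH[s] K = 0)
    (R₀ ν lam ρ : ℝ) (u : (EuclideanSpace ℝ (Fin n))) : μH[s] (Piece K R₀ ν lam ρ u) = 0 := by
  have hL : ∃ C : NNReal, LipschitzWith C (squash u lam ρ) :=
    ⟨_, (LinearMap.toContinuousLinearMap (squash u lam ρ)).lipschitz⟩
  obtain ⟨C, hC⟩ := hL
  have h := hC.hausdorffMeasure_image_le hs (Aligned K R₀ ν u)
  rw [hausdorffMeasure_Aligned hK, mul_zero] at h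
  exact le_antisymm h bot_le

theorem Piece_bounds {K : Set (EuclideanSpace ℝ (Fin n))} {R₀ ν lam ρ : ℝ} (hlam : 0 ≤ lam) (hρ : 0 ≤ ρ)
    (hKR : ∀ x ∈ K, ‖x‖ ≤ R₀) {u z : (EuclideanSpace ℝ (Fin n))} (hu : ‖u‖ = 1) (hz : z ∈ Piece K R₀ ν lam ρ u) :
    (0:ℝ) ≤ inner ℝ u z ∧ (inner ℝ u z : ℝ) ≤ lam * (1 + ν) ∧ ‖perp u z‖ ≤ ρ * R₀ := by
  obtain ⟨x, hx, rfl⟩ := hz
  rw [mem_Aligned] at hx
  obtain ⟨i, _, ⟨h1, h2⟩, h3⟩ := hx
  refine ⟨?_, ?_, ?_⟩
  · rw [inner_squash hu]; positivity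
  · rw [inner_squash hu]; gcongr
  · rw [perp_squash hu, norm_smul, Real.norm_eq_abs, abs_of_nonneg hρ]
    gcongr
    have : perp u x = perp u (x + cutHeight R₀ ν i • u) := by
      rw [map_add, map_smul, perp_self hu]; simp
    rw [this]
    exact (norm_perp_le hu _).trans (hKR _ h3)

/-- The pieces contain unit segments in the directions close to `u`. -/
theorem Piece_hasSeg {K : Set (EuclideanSpace ℝ (Fin n))} (hK : IsKakeya K) {R₀ ν lam ρ c : ℝ} (hν : 0 < ν)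
    (hlam : 0 < lam) (hρ : 0 < ρ) (hρ1 : c * ρ ≤ 1)
    (hcl : (lam⁻¹) ^ 2 + c ^ 2 ≤ 1) (hKR : ∀ x ∈ K, ‖x‖ ≤ R₀) {u e : (EuclideanSpace ℝ (Fin n))} (hu : ‖u‖ = 1)
    (he : ‖e‖ = 1) (hue : dist e u ≤ c * ρ) : HasSeg (Piece K R₀ ν lam ρ u) e := by
  have hie : (1:ℝ) / 2 ≤ inner ℝ u e := by
    have h1 : ‖e - u‖ ^ 2 = 2 - 2 * (inner ℝ u e : ℝ) := by
      rw [norm_sub_sq_real, he, hu, real_inner_comm]; ring
    rw [dist_eq_norm] at hue
    have h2 : ‖e - u‖ ^ 2 ≤ 1 := by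
      have h3 : ‖e - u‖ ≤ 1 := hue.trans hρ1
      nlinarith [norm_nonneg (e - u)]
    linarith
  have hie1 : (inner ℝ u e : ℝ) ≤ 1 := by
    have := (le_abs_self _).trans (abs_inner_le hu e)
    rwa [he] at this
  have hpe : ‖perp u e‖ ≤ c * ρ := by
    have := norm_perp_le_sub hu e 1
    rw [one_smul, ← dist_eq_norm] at this
    exact this.trans hue
  set w' : (EuclideanSpace ℝ (Fin n)) := squash u lam⁻¹ ρ⁻¹ e with hw'
  have hw'inner : (inner ℝ u w' : ℝ) = lam⁻¹ * (inner ℝ u e : ℝ) := by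
    rw [hw', inner_squash hu]
  have hnorm : ‖w'‖ ^ 2 ≤ 1 := by
    rw [norm_sq_eq hu w', hw'inner, hw', perp_squash hu, norm_smul, Real.norm_eq_abs,
      abs_of_pos (inv_pos.2 hρ), mul_pow]
    have h1 : (ρ⁻¹ * ‖perp u e‖) ^ 2 ≤ c ^ 2 := by
      have : ρ⁻¹ * ‖perp u e‖ ≤ c := by
        rw [inv_mul_le_iff₀ hρ]; linarith
      have h0 : 0 ≤ ρ⁻¹ * ‖perp u e‖ := by positivity
      gcongr
    have h2 : (inner ℝ u e : ℝ) ^ 2 ≤ 1 := by nlinarith
    have h3 : (lam⁻¹) ^ 2 * (inner ℝ u e : ℝ) ^ 2 ≤ (lam⁻¹) ^ 2 * 1 := by gcongr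
    linarith
  have hnorm1 : ‖w'‖ ≤ 1 := by
    nlinarith [norm_nonneg w']
  have hw'pos : 0 < ‖w'‖ := by
    have : 0 < (inner ℝ u w' : ℝ) := by rw [hw'inner]; positivity
    have h2 := (le_abs_self _).trans (abs_inner_le hu w')
    linarith
  set w : (EuclideanSpace ℝ (Fin n)) := ‖w'‖⁻¹ • w' with hw
  have hwn : ‖w‖ = 1 := by
    rw [hw, norm_smul, norm_inv, norm_norm, inv_mul_cancel₀ hw'pos.ne']
  obtain ⟨y, hy⟩ := hK.2 w hwn
  have hy0 : y ∈ K := by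
    have := hy 0 ⟨le_rfl, zero_le_one⟩
    simpa using this
  have hiy := abs_le.1 ((abs_inner_le hu y).trans (hKR y hy0))
  obtain ⟨i, hi, hi1, hi2⟩ := exists_cut (R₀ := R₀) hν hiy.1 hiy.2
  refine ⟨squash u lam ρ (y - cutHeight R₀ ν i • u), ?_⟩
  intro t ht
  have hiw : (0:ℝ) ≤ inner ℝ u w ∧ (inner ℝ u w : ℝ) ≤ 1 := by
    constructor
    · rw [hw, inner_smul_right, hw'inner]; positivity
    · have := (le_abs_self _).trans (abs_inner_le hu w)
      rwa [hwn] at this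
  refine ⟨y - cutHeight R₀ ν i • u + (t * ‖w'‖) • w, ?_, ?_⟩
  · rw [mem_Aligned]
    have htw : 0 ≤ t * ‖w'‖ ∧ t * ‖w'‖ ≤ 1 := by
      constructor
      · exact mul_nonneg ht.1 hw'pos.le
      · calc t * ‖w'‖ ≤ 1 * 1 := by
              gcongr
              exact ht.2
          _ = 1 := one_mul 1
    refine ⟨i, hi, ?_, ?_⟩
    · have : (inner ℝ u (y - cutHeight R₀ ν i • u + (t * ‖w'‖) • w) : ℝ) =
          inner ℝ u y - cutHeight R₀ ν i + (t * ‖w'‖) * inner ℝ u w := by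
        rw [inner_add_right, inner_sub_right, inner_smul_right, inner_smul_right,
          real_inner_self_eq_norm_sq, hu]; ring
      rw [this]
      have h5 : 0 ≤ (t * ‖w'‖) * inner ℝ u w := mul_nonneg htw.1 hiw.1
      have h6 : (t * ‖w'‖) * inner ℝ u w ≤ 1 := by
        calc (t * ‖w'‖) * inner ℝ u w ≤ 1 * 1 := mul_le_mul htw.2 hiw.2 hiw.1 zero_le_one
          _ = 1 := one_mul 1
      constructor <;> linarith
    · have : y - cutHeight R₀ ν i • u + (t * ‖w'‖) • w + cutHeight R₀ ν i • u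
          = y + (t * ‖w'‖) • w := by abel
      rw [this]
      exact hy _ htw
  · rw [map_add, map_smul, hw, map_smul, hw', squash_inv_right hu hlam.ne' hρ.ne', smul_smul,
      mul_assoc, ← hw', mul_inv_cancel₀ hw'pos.ne', mul_one]

/-- Volume of the thickened pieces. -/
theorem volume_thick_Piece_le (hn : 1 ≤ n) {K W : Set (EuclideanSpace ℝ (Fin n))} (hK : IsCompact K) {R₀ ν lam ρ ζ θ : ℝ}
    (hlam : 1 ≤ lam) (hρ : 0 < ρ) (hρ1 : ρ ≤ 1) (hθ : 0 ≤ θ) (hθζ : θ ≤ ρ * ζ)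
    (hW : ∀ x ∈ K, closedBall x ζ ⊆ W) {u : (EuclideanSpace ℝ (Fin n))} (hu : ‖u‖ = 1) :
    volume (cthickening θ (Piece K R₀ ν lam ρ u)) ≤
      ENNReal.ofReal (lam * ρ ^ (n - 1)) * (numCuts R₀ ν * volume W) := by
  have hlam0 : 0 < lam := by linarith
  have hsub : cthickening θ (Piece K R₀ ν lam ρ u) ⊆
      squash u lam ρ '' (⋃ i ∈ Finset.range (numCuts R₀ ν),
        (fun x => x + (cutHeight R₀ ν i) • u) ⁻¹' W) := by
    rw [(isCompact_Piece hK R₀ ν lam ρ u).cthickening_eq_biUnion_closedBall hθ]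
    intro z hz
    obtain ⟨p, hp, hzp⟩ := mem_iUnion₂.1 hz
    obtain ⟨x, hx, rfl⟩ := hp
    rw [mem_Aligned] at hx
    obtain ⟨i, hi, _, h3⟩ := hx
    refine ⟨squash u lam⁻¹ ρ⁻¹ z, ?_, squash_inv_right hu hlam0.ne' hρ.ne' z⟩
    refine mem_iUnion₂.2 ⟨i, Finset.mem_range.2 hi, ?_⟩
    apply hW _ h3
    rw [mem_closedBall, dist_eq_norm]
    have h4 : squash u lam⁻¹ ρ⁻¹ z + cutHeight R₀ ν i • u - (x + cutHeight R₀ ν i • u) =
        squash u lam⁻¹ ρ⁻¹ (z - squash u lam ρ x) := by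
      rw [map_sub, squash_inv_left hu hlam0.ne' hρ.ne']; abel
    rw [h4]
    have h5 : ‖squash u lam⁻¹ ρ⁻¹ (z - squash u lam ρ x)‖ ≤ ρ⁻¹ * ‖z - squash u lam ρ x‖ := by
      apply norm_squash_le hu (by positivity)
      · rw [abs_of_pos (by positivity)]
        exact inv_anti₀ hρ (hρ1.trans hlam)
      · rw [abs_of_pos (by positivity)]
    rw [mem_closedBall, dist_eq_norm] at hzp
    calc _ ≤ ρ⁻¹ * ‖z - squash u lam ρ x‖ := h5
      _ ≤ ρ⁻¹ * (ρ * ζ) := by gcongr; exact hzp.trans hθζ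
      _ = ζ := by field_simp
  calc volume (cthickening θ (Piece K R₀ ν lam ρ u)) ≤ _ := measure_mono hsub
    _ = ENNReal.ofReal (lam * ρ ^ (n - 1)) * volume (⋃ i ∈ Finset.range (numCuts R₀ ν),
        (fun x => x + (cutHeight R₀ ν i) • u) ⁻¹' W) := volume_squash_image hu hlam0 hρ hn _
    _ ≤ ENNReal.ofReal (lam * ρ ^ (n - 1)) * (numCuts R₀ ν * volume W) := by
        gcongr
        calc _ ≤ ∑ i ∈ Finset.range (numCuts R₀ ν),
              volume ((fun x => x + (cutHeight R₀ ν i) • u) ⁻¹' W) := measure_biUnion_finset_le _ _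
          _ = ∑ i ∈ Finset.range (numCuts R₀ ν), volume W := by
              apply Finset.sum_congr rfl
              intro i _
              rw [measure_preimage_add_right]
          _ = _ := by rw [Finset.sum_const, Finset.card_range, nsmul_eq_mul]

end Pool.Agent.KakeyaSticky
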