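import Pool.Agent.KakeyaSticky.Len
import Pool.Agent.KakeyaSticky.Arrange

/-!
Choice of the positions of the pieces.
-/

namespace Pool.Agent.KakeyaSticky

open Set Metric MeasureTheory

variable {n : ℕ}


theorem len_sub (B : Set (EuclideanSpace ℝ (Fin n))) (y e x v : (EuclideanSpace ℝ (Fin n))) : len B (y - x) e v = len B y e (x + v) := by
  unfold len lenSet
  congr 3
  ext t
  show y - x + t • e - v ∈ B ↔ y + t • e - (x + v) ∈ B
  rw [show y - x + t • e - v = y + t • e - (x + v) by abel]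

theorem thick_bounds {K : Set (EuclideanSpace ℝ (Fin n))} (hK : IsCompact K) {R₀ ν lam ρ θ : ℝ} (hlam : 0 ≤ lam)
    (hρ : 0 ≤ ρ) (hθ : 0 ≤ θ) (hθρ : θ ≤ ρ) (hρ1 : ρ ≤ 1) (hl : lam * (1 + ν) ≤ 2)
    (hKR : ∀ x ∈ K, ‖x‖ ≤ R₀) {u z : (EuclideanSpace ℝ (Fin n))} (hu : ‖u‖ = 1)
    (hz : z ∈ cthickening θ (Piece K R₀ ν lam ρ u)) :
    |(inner ℝ u z : ℝ)| ≤ 3 ∧ ‖perp u z‖ ≤ ρ * (R₀ + 1) := by
  rw [(isCompact_Piece hK R₀ ν lam ρ u).cthickening_eq_biUnion_closedBall hθ] at hz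
  obtain ⟨p, hp, hzp⟩ := mem_iUnion₂.1 hz
  rw [mem_closedBall, dist_eq_norm] at hzp
  obtain ⟨h1, h2, h3⟩ := Piece_bounds hlam hρ hKR hu hp
  have hz' : z = p + (z - p) := by abel
  constructor
  · rw [hz', inner_add_right]
    have h4 := (abs_inner_le hu (z - p)).trans hzp
    have h5 := abs_le.1 h4
    rw [abs_le]
    constructor <;> linarith
  · rw [hz', map_add]
    calc _ ≤ ‖perp u p‖ + ‖perp u (z - p)‖ := norm_add_le _ _
      _ ≤ ρ * R₀ + θ := add_le_add h3 ((norm_perp_le hu _).trans hzp)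
      _ ≤ ρ * (R₀ + 1) := by linarith

/-- The near set of a direction. -/
def Near (e : (EuclideanSpace ℝ (Fin n))) (δ : ℝ) (u : (EuclideanSpace ℝ (Fin n))) : Prop := dist u e ≤ 4 * δ ∨ dist u (-e) ≤ 4 * δ

theorem card_T_le (hn : 1 ≤ n) {T : Finset (EuclideanSpace ℝ (Fin n))} {r : ℝ} (hr : 0 < r) (hr1 : r ≤ 1)
    (hT : ∀ u ∈ T, ‖u‖ = 1) (hsep : ∀ d ∈ T, ∀ d' ∈ T, d ≠ d' → r < dist d d') :
    (T.card : ℝ) ≤ netC n * (2 / r) ^ (n - 1) := by
  rcases T.eq_empty_or_nonempty with rfl | ⟨x₀, hx₀⟩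
  · have := netC_pos n
    simp only [Finset.card_empty, Nat.cast_zero]
    positivity
  · refine card_sphere_le hn T hr hr1 (by linarith) hT hsep (hT x₀ hx₀) ?_
    intro d hd
    calc dist d x₀ ≤ ‖d‖ + ‖x₀‖ := by rw [dist_eq_norm]; exact norm_sub_le _ _
      _ = 2 := by rw [hT d hd, hT x₀ hx₀]; norm_num

open Classical in
theorem card_near_le (hn : 1 ≤ n) {T : Finset (EuclideanSpace ℝ (Fin n))} {r δ : ℝ} (hr : 0 < r) (hr1 : r ≤ 1)
    (hrδ : r ≤ 4 * δ)
    (hT : ∀ u ∈ T, ‖u‖ = 1) (hsep : ∀ d ∈ T, ∀ d' ∈ T, d ≠ d' → r < dist d d')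
    {e : (EuclideanSpace ℝ (Fin n))} (he : ‖e‖ = 1) :
    ((T.filter (Near e δ)).card : ℝ) ≤ 2 * (netC n * (4 * δ / r) ^ (n - 1)) := by
  have h1 : T.filter (Near e δ) ⊆ T.filter (fun u => dist u e ≤ 4 * δ) ∪
      T.filter (fun u => dist u (-e) ≤ 4 * δ) := by
    intro u hu
    rw [Finset.mem_filter] at hu
    rw [Finset.mem_union, Finset.mem_filter, Finset.mem_filter]
    rcases hu.2 with h | h
    · exact Or.inl ⟨hu.1, h⟩
    · exact Or.inr ⟨hu.1, h⟩
  have h2 : ((T.filter (fun u => dist u e ≤ 4 * δ)).card : ℝ) ≤ netC n * (4 * δ / r) ^ (n - 1) :=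
    card_sphere_le hn _ hr hr1 hrδ (fun d hd => hT d (Finset.mem_filter.1 hd).1)
      (fun d hd d' hd' => hsep d (Finset.mem_filter.1 hd).1 d' (Finset.mem_filter.1 hd').1)
      he (fun d hd => (Finset.mem_filter.1 hd).2)
  have h3 : ((T.filter (fun u => dist u (-e) ≤ 4 * δ)).card : ℝ) ≤
      netC n * (4 * δ / r) ^ (n - 1) :=
    card_sphere_le hn _ hr hr1 hrδ (fun d hd => hT d (Finset.mem_filter.1 hd).1)
      (fun d hd d' hd' => hsep d (Finset.mem_filter.1 hd).1 d' (Finset.mem_filter.1 hd').1)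
      (by rw [norm_neg]; exact he) (fun d hd => (Finset.mem_filter.1 hd).2)
  calc ((T.filter (Near e δ)).card : ℝ)
      ≤ ((T.filter (fun u => dist u e ≤ 4 * δ) ∪ T.filter (fun u => dist u (-e) ≤ 4 * δ)).card : ℝ) := by
        exact_mod_cast Finset.card_le_card h1
    _ ≤ ((T.filter (fun u => dist u e ≤ 4 * δ)).card : ℝ) +
        ((T.filter (fun u => dist u (-e) ≤ 4 * δ)).card : ℝ) := by
        exact_mod_cast Finset.card_union_le _ _
    _ ≤ _ := by linarith

/-- Measure of the set of translations bringing a point close to a line. -/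
theorem volume_near_line_le (hn : 1 ≤ n) {e : (EuclideanSpace ℝ (Fin n))} (he : ‖e‖ = 1) {r s : ℝ} (hr : 0 < r)
    (hs : 0 < s) (z : (EuclideanSpace ℝ (Fin n))) :
    volume (closedBall (0 : (EuclideanSpace ℝ (Fin n))) r ∩ {v | ‖perp e (v - z)‖ ≤ s}) ≤
      ENNReal.ofReal (r * s ^ (n - 1) * bigV n) := by
  have h : closedBall (0 : (EuclideanSpace ℝ (Fin n))) r ∩ {v | ‖perp e (v - z)‖ ≤ s} ⊆
      (fun v => v + (-(perp e z))) ⁻¹' (Cyl e r s) := by
    rintro v ⟨hv1, hv2⟩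
    rw [mem_closedBall_zero_iff] at hv1
    have hpp : perp e (perp e z) = perp e z := by
      rw [perp_apply e (perp e z), inner_perp he]; simp
    constructor
    · show |(inner ℝ e (v + (-(perp e z))) : ℝ)| ≤ r
      rw [inner_add_right, inner_neg_right, inner_perp he, neg_zero, add_zero]
      exact (abs_inner_le he v).trans hv1
    · show ‖perp e (v + (-(perp e z)))‖ ≤ s
      rw [map_add, map_neg, hpp, ← map_neg, ← map_add, ← sub_eq_add_neg]
      exact hv2
  calc _ ≤ volume ((fun v => v + (-(perp e z))) ⁻¹' (Cyl e r s)) := measure_mono h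
    _ = volume (Cyl e r s) := measure_preimage_add_right _ _ _
    _ ≤ _ := volume_Cyl_le he hr hs hn

theorem volume_closedBall_toReal (x : (EuclideanSpace ℝ (Fin n))) {r : ℝ} (hr : 0 ≤ r) :
    (volume (closedBall x r)).toReal = r ^ n * smallV n := by
  rw [volume_closedBall_eq x hr, ENNReal.toReal_ofReal]
  have := smallV_pos n
  positivity

open Classical in
theorem exists_positions (hn : 1 ≤ n) {K W : Set (EuclideanSpace ℝ (Fin n))} (hK : IsCompact K)
    {R₀ ν lam ρ ζ θ α δ η c Cp w₀ m_b : ℝ}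
    (hR₀ : 0 ≤ R₀) (hlam : 1 ≤ lam) (hl : lam * (1 + ν) ≤ 2)
    (hρ : 0 < ρ) (hρ1 : ρ ≤ 1) (hθ : 0 ≤ θ) (hθζ : θ ≤ ρ * ζ) (hζ : ζ ≤ 1)
    (hα : 0 < α) (hδ : 0 < δ) (hη : 0 < η) (hc : 0 < c) (hc1 : c * ρ ≤ 1) (hcδ : c * ρ ≤ 4 * δ)
    (hCp : 0 < Cp) (hw₀ : 0 ≤ w₀)
    (hKR : ∀ x ∈ K, ‖x‖ ≤ R₀) (hW : ∀ x ∈ K, closedBall x ζ ⊆ W)
    (hWvol : volume W ≤ ENNReal.ofReal w₀)
    (hsmall : netC n * (2 / c) ^ (n - 1) * (lam * (numCuts R₀ ν * w₀)) ≤
      (1 / 16) * ((η / 4) ^ n * smallV n))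
    (T : Finset (EuclideanSpace ℝ (Fin n))) (hT : ∀ u ∈ T, ‖u‖ = 1)
    (hsep : ∀ d ∈ T, ∀ d' ∈ T, d ≠ d' → c * ρ < dist d d')
    (X : (EuclideanSpace ℝ (Fin n)) → (EuclideanSpace ℝ (Fin n))) (D₁ D₂ : Finset (EuclideanSpace ℝ (Fin n))) (hD₁ : D₁.Nonempty) (hD₂' : D₂.Nonempty)
    (hD₂ : ∀ e ∈ D₂, ‖e‖ = 1)
    (hlogA : (2 * (ρ * (R₀ + 1)) / α) * Real.log (2 * (D₁.card * D₂.card)) ≤ 1 / 8)
    (hlogB : Real.log (2 * (D₁.card * D₂.card)) ≤ m_b)
    (hm : 2 * (netC n * (4 * δ / (c * ρ)) ^ (n - 1)) * ((η / 4) * (Cp * δ) ^ (n - 1) * bigV n) ≤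
      m_b * ((η / 4) ^ n * smallV n)) :
    ∃ v : (EuclideanSpace ℝ (Fin n)) → (EuclideanSpace ℝ (Fin n)), (∀ u ∈ T, ‖v u‖ ≤ η / 4) ∧
      (∀ y ∈ D₁, ∀ e ∈ D₂, ∑ u ∈ T.filter (fun u => α ≤ ‖perp u e‖),
        len (cthickening θ (Piece K R₀ ν lam ρ u)) y e (X u + v u) ≤ 1 / 4) ∧
      (∀ y ∈ D₁, ∀ e ∈ D₂, ((T.filter (fun u => Near e δ u ∧
        ‖perp e (X u + v u - y)‖ ≤ Cp * δ)).card : ℝ) ≤ 3 * m_b) := by
  set a : ℝ := 2 * (ρ * (R₀ + 1)) / α with ha
  have hapos : 0 < a := by positivity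
  set B : (EuclideanSpace ℝ (Fin n)) → Set (EuclideanSpace ℝ (Fin n)) := fun u => cthickening θ (Piece K R₀ ν lam ρ u) with hB
  have hBmeas : ∀ u, MeasurableSet (B u) := fun u => isClosed_cthickening.measurableSet
  have hθρ : θ ≤ ρ := hθζ.trans (by nlinarith)
  have hBperp : ∀ u ∈ T, ∀ z ∈ B u, ‖perp u z‖ ≤ ρ * (R₀ + 1) := fun u hu z hz =>
    (thick_bounds hK (by linarith) hρ.le hθ hθρ hρ1 hl hKR (hT u hu) hz).2
  have hBvol : ∀ u ∈ T, volume (B u) ≤
      ENNReal.ofReal (lam * ρ ^ (n - 1) * (numCuts R₀ ν * w₀)) := by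
    intro u hu
    calc volume (B u) ≤ ENNReal.ofReal (lam * ρ ^ (n - 1)) * (numCuts R₀ ν * volume W) :=
          volume_thick_Piece_le hn hK hlam hρ hρ1 hθ hθζ hW (hT u hu)
      _ ≤ ENNReal.ofReal (lam * ρ ^ (n - 1)) * (numCuts R₀ ν * ENNReal.ofReal w₀) := by gcongr
      _ = _ := by
        rw [← ENNReal.ofReal_natCast, ← ENNReal.ofReal_mul (by positivity),
          ← ENNReal.ofReal_mul (by positivity)]
  -- the functions
  let Y : ((D₁ × D₂) ⊕ (D₁ × D₂)) → T → (EuclideanSpace ℝ (Fin n)) → ℝ := fun i u v =>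
    match i with
    | Sum.inl q => if α ≤ ‖perp u.1 q.2.1‖ then len (B u.1) (q.1.1 - X u.1) q.2.1 v / a else 0
    | Sum.inr q => if Near q.2.1 δ u.1 ∧ ‖perp q.2.1 (v - (q.1.1 - X u.1))‖ ≤ Cp * δ then 1 else 0
  let κ : ((D₁ × D₂) ⊕ (D₁ × D₂)) → ℝ := fun i =>
    match i with
    | Sum.inl _ => 1 / (16 * a)
    | Sum.inr _ => m_b
  have hmeasR : ∀ (e z : (EuclideanSpace ℝ (Fin n))), MeasurableSet {v : (EuclideanSpace ℝ (Fin n)) | ‖perp e (v - z)‖ ≤ Cp * δ} := by
    intro e z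
    have : Continuous fun v : (EuclideanSpace ℝ (Fin n)) => ‖perp e (v - z)‖ :=
      ((continuous_perp e).comp (continuous_id.sub continuous_const)).norm
    exact (isClosed_le this continuous_const).measurableSet
  have : Nonempty D₁ := hD₁.to_subtype
  have : Nonempty D₂ := hD₂'.to_subtype
  have hmain := exists_arrangement (n := n) (T := T) (I := (D₁ × D₂) ⊕ (D₁ × D₂))
    (closedBall (0 : (EuclideanSpace ℝ (Fin n))) (η / 4)) measurableSet_closedBall
    (measure_closedBall_pos _ _ (by positivity)).ne' measure_closedBall_lt_top.ne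
    Y ?_ ?_ ?_ κ ?_
  · obtain ⟨v, hv1, hv2⟩ := hmain
    have hcard : Real.log (Fintype.card ((D₁ × D₂) ⊕ (D₁ × D₂))) =
        Real.log (2 * (D₁.card * D₂.card)) := by
      congr 1
      rw [Fintype.card_sum, Fintype.card_prod, Fintype.card_coe, Fintype.card_coe]
      push_cast
      ring
    refine ⟨fun u => if h : u ∈ T then v ⟨u, h⟩ else 0, ?_, ?_, ?_⟩
    · intro u hu
      have := hv1 ⟨u, hu⟩
      rw [mem_closedBall_zero_iff] at this
      simp only [hu, dif_pos]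
      exact this
    · intro y hy e he
      have h1 := hv2 (Sum.inl (⟨y, hy⟩, ⟨e, he⟩))
      rw [hcard] at h1
      have h2 : ∑ u : T, Y (Sum.inl (⟨y, hy⟩, ⟨e, he⟩)) u (v u) =
          (∑ u ∈ T.filter (fun u => α ≤ ‖perp u e‖), len (B u) y e
            (X u + (if h : u ∈ T then v ⟨u, h⟩ else 0))) / a := by
        rw [Finset.sum_filter, Finset.sum_div, ← Finset.sum_coe_sort T]
        apply Finset.sum_congr rfl
        intro u _
        show (if α ≤ ‖perp u.1 e‖ then len (B u.1) (y - X u.1) e (v u) / a else 0) = _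
        have hu : u.1 ∈ T := u.2
        simp only [hu, dif_pos]
        split_ifs
        · rw [len_sub]
        · simp
      rw [h2] at h1
      have h3 : κ (Sum.inl (⟨y, hy⟩, ⟨e, he⟩)) = 1 / (16 * a) := rfl
      rw [h3, div_le_iff₀ hapos] at h1
      refine h1.trans ?_
      have h4 : (2 * (1 / (16 * a)) + Real.log (2 * (D₁.card * D₂.card))) * a =
          1 / 8 + a * Real.log (2 * (D₁.card * D₂.card)) := by
        field_simp
        ring
      rw [h4]
      linarith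
    · intro y hy e he
      have h1 := hv2 (Sum.inr (⟨y, hy⟩, ⟨e, he⟩))
      rw [hcard] at h1
      have h2 : ∑ u : T, Y (Sum.inr (⟨y, hy⟩, ⟨e, he⟩)) u (v u) =
          ((T.filter (fun u => Near e δ u ∧
            ‖perp e (X u + (if h : u ∈ T then v ⟨u, h⟩ else 0) - y)‖ ≤ Cp * δ)).card : ℝ) := by
        rw [Finset.card_filter, Nat.cast_sum, ← Finset.sum_coe_sort T]
        apply Finset.sum_congr rfl
        intro u _
        show (if Near e δ u.1 ∧ ‖perp e (v u - (y - X u.1))‖ ≤ Cp * δ then (1:ℝ) else 0) = _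
        have hu : u.1 ∈ T := u.2
        simp only [hu, dif_pos]
        rw [show v u - (y - X u.1) = X u.1 + v u - y by abel]
        split_ifs <;> simp
      rw [h2] at h1
      have h3 : κ (Sum.inr (⟨y, hy⟩, ⟨e, he⟩)) = m_b := rfl
      rw [h3] at h1
      refine h1.trans ?_
      linarith
  · rintro (q | q) u v
    · show 0 ≤ (if α ≤ ‖perp u.1 q.2.1‖ then len (B u.1) (q.1.1 - X u.1) q.2.1 v / a else 0)
      split_ifs
      · exact div_nonneg (len_nonneg _ _ _ _) hapos.le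
      · exact le_rfl
    · show (0:ℝ) ≤ (if Near q.2.1 δ u.1 ∧ ‖perp q.2.1 (v - (q.1.1 - X u.1))‖ ≤ Cp * δ then 1 else 0)
      split_ifs <;> norm_num
  · rintro (q | q) u v
    · show (if α ≤ ‖perp u.1 q.2.1‖ then len (B u.1) (q.1.1 - X u.1) q.2.1 v / a else 0) ≤ 1
      split_ifs with h
      · rw [div_le_one hapos]
        exact len_le_of_transversal (by positivity) hα (hBperp u.1 u.2) h _ _
      · exact zero_le_one
    · show (if Near q.2.1 δ u.1 ∧ ‖perp q.2.1 (v - (q.1.1 - X u.1))‖ ≤ Cp * δ then (1:ℝ) else 0) ≤ 1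
      split_ifs <;> norm_num
  · rintro (q | q) u
    · by_cases h : α ≤ ‖perp u.1 q.2.1‖
      · have : Y (Sum.inl q) u = fun v => len (B u.1) (q.1.1 - X u.1) q.2.1 v / a := by
          funext v
          show (if α ≤ ‖perp u.1 q.2.1‖ then len (B u.1) (q.1.1 - X u.1) q.2.1 v / a else 0) = _
          rw [if_pos h]
        rw [this]
        exact (measurable_len (hBmeas _) _ _).div_const a
      · have : Y (Sum.inl q) u = fun _ => 0 := by
          funext v
          show (if α ≤ ‖perp u.1 q.2.1‖ then len (B u.1) (q.1.1 - X u.1) q.2.1 v / a else 0) = _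
          rw [if_neg h]
        rw [this]
        exact measurable_const
    · by_cases h : Near q.2.1 δ u.1
      · have : Y (Sum.inr q) u =
            {v : (EuclideanSpace ℝ (Fin n)) | ‖perp q.2.1 (v - (q.1.1 - X u.1))‖ ≤ Cp * δ}.indicator (fun _ => (1:ℝ)) := by
          funext v
          show (if Near q.2.1 δ u.1 ∧ ‖perp q.2.1 (v - (q.1.1 - X u.1))‖ ≤ Cp * δ then (1:ℝ) else 0) = _
          simp only [h, true_and]
          rfl
        rw [this]
        exact measurable_const.indicator (hmeasR _ _)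
      · have : Y (Sum.inr q) u = fun _ => 0 := by
          funext v
          show (if Near q.2.1 δ u.1 ∧ ‖perp q.2.1 (v - (q.1.1 - X u.1))‖ ≤ Cp * δ then (1:ℝ) else 0) = _
          simp only [h, false_and, if_false]
        rw [this]
        exact measurable_const
  · have hsv := smallV_pos n
    have hbv := bigV_pos n
    have hnc := netC_pos n
    rintro (q | q)
    · rw [volume_closedBall_toReal _ (by positivity)]
      show ∑ u : T, ∫ v in closedBall (0 : (EuclideanSpace ℝ (Fin n))) (η / 4), Y (Sum.inl q) u v ≤ (1 / (16 * a)) * _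
      have h1 : ∀ u : T, ∫ v in closedBall (0 : (EuclideanSpace ℝ (Fin n))) (η / 4), Y (Sum.inl q) u v ≤
          (lam * ρ ^ (n - 1) * (numCuts R₀ ν * w₀)) / a := by
        intro u
        by_cases h : α ≤ ‖perp u.1 q.2.1‖
        · have : Y (Sum.inl q) u = fun v => len (B u.1) (q.1.1 - X u.1) q.2.1 v / a := by
            funext v
            show (if α ≤ ‖perp u.1 q.2.1‖ then len (B u.1) (q.1.1 - X u.1) q.2.1 v / a else 0) = _
            rw [if_pos h]
          rw [this, integral_div]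
          gcongr
          exact integral_len_le (hBmeas _) _ _ _ (by positivity) (hBvol u.1 u.2)
        · have : Y (Sum.inl q) u = fun _ => 0 := by
            funext v
            show (if α ≤ ‖perp u.1 q.2.1‖ then len (B u.1) (q.1.1 - X u.1) q.2.1 v / a else 0) = _
            rw [if_neg h]
          rw [this, integral_zero]
          positivity
      calc ∑ u : T, ∫ v in closedBall (0 : (EuclideanSpace ℝ (Fin n))) (η / 4), Y (Sum.inl q) u v
          ≤ ∑ u : T, (lam * ρ ^ (n - 1) * (numCuts R₀ ν * w₀)) / a := Finset.sum_le_sum fun u _ => h1 u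
        _ = (T.card : ℝ) * ((lam * ρ ^ (n - 1) * (numCuts R₀ ν * w₀)) / a) := by
            rw [Finset.sum_const, nsmul_eq_mul, Finset.card_univ, Fintype.card_coe]
        _ ≤ (netC n * (2 / (c * ρ)) ^ (n - 1)) * ((lam * ρ ^ (n - 1) * (numCuts R₀ ν * w₀)) / a) := by
            gcongr
            exact card_T_le hn (by positivity) hc1 hT hsep
        _ = (1 / a) * (netC n * (2 / c) ^ (n - 1) * (lam * (numCuts R₀ ν * w₀))) := by
            rw [div_pow, div_pow, mul_pow]
            field_simp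
        _ ≤ (1 / a) * ((1 / 16) * ((η / 4) ^ n * smallV n)) := by gcongr
        _ = _ := by field_simp
    · rw [volume_closedBall_toReal _ (by positivity)]
      show ∑ u : T, ∫ v in closedBall (0 : (EuclideanSpace ℝ (Fin n))) (η / 4), Y (Sum.inr q) u v ≤ m_b * _
      have hq : ‖q.2.1‖ = 1 := hD₂ _ q.2.2
      have h1 : ∀ u : T, ∫ v in closedBall (0 : (EuclideanSpace ℝ (Fin n))) (η / 4), Y (Sum.inr q) u v ≤
          if Near q.2.1 δ u.1 then (η / 4) * (Cp * δ) ^ (n - 1) * bigV n else 0 := by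
        intro u
        by_cases h : Near q.2.1 δ u.1
        · rw [if_pos h]
          have : Y (Sum.inr q) u =
              {v : (EuclideanSpace ℝ (Fin n)) | ‖perp q.2.1 (v - (q.1.1 - X u.1))‖ ≤ Cp * δ}.indicator (fun _ => (1:ℝ)) := by
            funext v
            show (if Near q.2.1 δ u.1 ∧ ‖perp q.2.1 (v - (q.1.1 - X u.1))‖ ≤ Cp * δ then (1:ℝ) else 0) = _
            simp only [h, true_and]
            rfl
          rw [this, integral_indicator (hmeasR _ _), Measure.restrict_restrict (hmeasR _ _),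
            setIntegral_const, smul_eq_mul, mul_one, Set.inter_comm]
          exact ENNReal.toReal_le_of_le_ofReal (by positivity)
            (volume_near_line_le hn hq (by positivity) (by positivity) _)
        · rw [if_neg h]
          have : Y (Sum.inr q) u = fun _ => 0 := by
            funext v
            show (if Near q.2.1 δ u.1 ∧ ‖perp q.2.1 (v - (q.1.1 - X u.1))‖ ≤ Cp * δ then (1:ℝ) else 0) = _
            simp only [h, false_and, if_false]
          rw [this, integral_zero]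
      calc ∑ u : T, ∫ v in closedBall (0 : (EuclideanSpace ℝ (Fin n))) (η / 4), Y (Sum.inr q) u v
          ≤ ∑ u : T, (if Near q.2.1 δ u.1 then (η / 4) * (Cp * δ) ^ (n - 1) * bigV n else 0) :=
            Finset.sum_le_sum fun u _ => h1 u
        _ = ∑ u ∈ T, (if Near q.2.1 δ u then (η / 4) * (Cp * δ) ^ (n - 1) * bigV n else 0) :=
            Finset.sum_coe_sort T (fun u => if Near q.2.1 δ u then
              (η / 4) * (Cp * δ) ^ (n - 1) * bigV n else 0)
        _ = ((T.filter (Near q.2.1 δ)).card : ℝ) * ((η / 4) * (Cp * δ) ^ (n - 1) * bigV n) := by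
            rw [← Finset.sum_filter, Finset.sum_const, nsmul_eq_mul]
        _ ≤ (2 * (netC n * (4 * δ / (c * ρ)) ^ (n - 1))) *
              ((η / 4) * (Cp * δ) ^ (n - 1) * bigV n) := by
            gcongr
            exact card_near_le hn (by positivity) hc1 hcδ hT hsep hq
        _ ≤ _ := hm

end Pool.Agent.KakeyaSticky
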