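import Pool.Agent.KakeyaSticky.Deduce
import Pool.Agent.KakeyaSticky.Content

/-!
The inductive step.
-/

namespace Pool.Agent.KakeyaSticky

open Set Metric MeasureTheory

variable {n : ℕ}


/-- uniform margin around the unit segments of a good open set -/
theorem exists_uniform_margin {O : Set (EuclideanSpace ℝ (Fin n))} (hO : GoodOpen O) :
    ∃ η : ℝ, 0 < η ∧ η ≤ 1 ∧ ∀ e : (EuclideanSpace ℝ (Fin n)), ‖e‖ = 1 → ∃ x : (EuclideanSpace ℝ (Fin n)), ∀ t ∈ Icc (0:ℝ) 1,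
      closedBall (x + t • e) η ⊆ O := by
  have h1 : ∀ e : (EuclideanSpace ℝ (Fin n)), ‖e‖ = 1 → ∃ r : ℝ, 0 < r ∧ ∃ x : (EuclideanSpace ℝ (Fin n)), ∀ t ∈ Icc (0:ℝ) 1,
      closedBall (x + t • e) (2 * r) ⊆ O := by
    intro e he
    obtain ⟨x, hx⟩ := hO.2.2 e he
    have hcomp : IsCompact ((fun t : ℝ => x + t • e) '' Icc (0:ℝ) 1) :=
      isCompact_Icc.image (by fun_prop)
    obtain ⟨δ, hδ, hsub⟩ := hcomp.exists_cthickening_subset_open hO.1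
      (by rintro _ ⟨t, ht, rfl⟩; exact hx t ht)
    refine ⟨δ / 2, by positivity, x, fun t ht => ?_⟩
    refine Subset.trans ?_ hsub
    intro z hz
    rw [mem_closedBall] at hz
    exact mem_cthickening_of_dist_le z _ _ _ (mem_image_of_mem _ ht) (by linarith)
  choose! r hr x hx using h1
  have hS : IsCompact (sphere (0 : (EuclideanSpace ℝ (Fin n))) 1) := isCompact_sphere _ _
  obtain ⟨T, hT1, hT2⟩ := hS.elim_nhds_subcover (fun e => ball e (r e)) (fun e he => by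
    apply ball_mem_nhds
    exact hr e (by simpa using he))
  rcases T.eq_empty_or_nonempty with rfl | hTne
  · refine ⟨1, one_pos, le_rfl, fun e he => ?_⟩
    have : e ∈ sphere (0 : (EuclideanSpace ℝ (Fin n))) 1 := by simpa using he
    have := hT2 this
    simp at this
  · have hrT : ∀ e ∈ T, 0 < r e := fun e he => hr e (by simpa using hT1 e he)
    refine ⟨min 1 (T.inf' hTne r), lt_min one_pos ((Finset.lt_inf'_iff hTne).2 hrT),
      min_le_left _ _, fun e he => ?_⟩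
    have hmem : e ∈ sphere (0 : (EuclideanSpace ℝ (Fin n))) 1 := by simpa using he
    obtain ⟨e', he', hee'⟩ := mem_iUnion₂.1 (hT2 hmem)
    rw [mem_ball] at hee'
    refine ⟨x e', fun t ht => ?_⟩
    refine Subset.trans ?_ (hx e' (by simpa using hT1 e' he') t ht)
    intro z hz
    rw [mem_closedBall] at hz ⊢
    have h2 : dist (x e' + t • e) (x e' + t • e') ≤ r e' := by
      rw [dist_add_left, dist_eq_norm, ← smul_sub, norm_smul, Real.norm_eq_abs,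
        abs_of_nonneg ht.1, ← dist_eq_norm]
      calc t * dist e e' ≤ 1 * r e' := by
            gcongr
            exact ht.2
        _ = r e' := one_mul _
    have h3 : min 1 (T.inf' hTne r) ≤ r e' := (min_le_right _ _).trans (Finset.inf'_le _ he')
    calc dist z (x e' + t • e') ≤ dist z (x e' + t • e) + dist (x e' + t • e) (x e' + t • e') :=
          dist_triangle _ _ _
      _ ≤ 2 * r e' := by linarith

/-- the translated pieces stay inside the open set -/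
theorem Union_subset {K O : Set (EuclideanSpace ℝ (Fin n))} {R₀ ν lam ρ η : ℝ}
    (hlam : 1 ≤ lam) (hl : lam * (1 + ν) ≤ 1 + η / 4) (hρ : 0 ≤ ρ) (hρη : ρ * R₀ ≤ η / 16)
    (hη : 0 < η)
    (hKR : ∀ x ∈ K, ‖x‖ ≤ R₀) {T : Finset (EuclideanSpace ℝ (Fin n))} (hT : ∀ u ∈ T, ‖u‖ = 1) {X v : (EuclideanSpace ℝ (Fin n)) → (EuclideanSpace ℝ (Fin n))}
    (hX : ∀ u ∈ T, ∀ t ∈ Icc (0:ℝ) 1, closedBall (X u + t • u) η ⊆ O)
    (hv : ∀ u ∈ T, ‖v u‖ ≤ η / 4) :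
    Union K R₀ ν lam ρ T (fun u => X u + v u) ⊆ O := by
  intro z hz
  unfold Union at hz
  obtain ⟨u, hu, hz⟩ := mem_iUnion₂.1 hz
  obtain ⟨q, hq, rfl⟩ := hz
  have hun := hT u hu
  obtain ⟨h1, h2, h3⟩ := Piece_bounds (by linarith) hρ hKR hun hq
  set h : ℝ := inner ℝ u q with hh
  have ht : min h 1 ∈ Icc (0:ℝ) 1 := ⟨le_min h1 zero_le_one, min_le_right _ _⟩
  apply hX u hu (min h 1) ht
  rw [mem_closedBall, dist_eq_norm]
  have hdec := perp_add_par u q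
  rw [← hh] at hdec
  have h4 : X u + v u + q - (X u + (min h 1) • u) = v u + perp u q + (h - min h 1) • u := by
    conv_lhs => rw [← hdec]
    rw [sub_smul]; abel
  show ‖X u + v u + q - (X u + (min h 1) • u)‖ ≤ η
  rw [h4]
  have h5 : |h - min h 1| ≤ η / 4 := by
    rcases le_total h 1 with h6 | h6
    · rw [min_eq_left h6, sub_self, abs_zero]; positivity
    · rw [min_eq_right h6, abs_of_nonneg (by linarith)]
      linarith
  calc _ ≤ ‖v u‖ + ‖perp u q‖ + ‖(h - min h 1) • u‖ := norm_add₃_le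
    _ ≤ η / 4 + η / 16 + η / 4 := by
        rw [norm_smul, hun, Real.norm_eq_abs, mul_one]
        gcongr
        · exact hv u hu
        · exact h3.trans hρη
    _ ≤ η := by linarith

theorem volume_eq_zero_of_hausdorffMeasure {K : Set (EuclideanSpace ℝ (Fin n))} {s : ℝ} (hs : s ≤ n) (h : μH[s] K = 0) :
    volume K = 0 := by
  have h1 : μH[(n : ℝ)] K = 0 := by
    have := Measure.hausdorffMeasure_mono hs K
    rw [h] at this
    exact le_antisymm this bot_le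
  have h2 : (volume : Measure (EuclideanSpace ℝ (Fin n))) ≪ μH[(n : ℝ)] := by
    have : (n : ℝ) = (Module.finrank ℝ (EuclideanSpace ℝ (Fin n)) : ℝ) := by
      rw [finrank_euclideanSpace, Fintype.card_fin]
    rw [this]
    exact Measure.absolutelyContinuous_isAddHaarMeasure _ _
  exact h2 h1

theorem Scatter_mono {C : Set (EuclideanSpace ℝ (Fin n))} {ε' ε δ : ℝ} (h : Scatter C ε' δ) (hε : ε' ≤ ε) (hδ : 0 < δ)
    (hδ1 : δ ≤ 1) : Scatter C ε δ := by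
  intro e₀ he₀ L hL hcap F hF
  refine le_trans ?_ (h e₀ he₀ L hL (fun e he hd => hcap e he (hd.trans_le hε)) F hF)
  apply Real.rpow_le_rpow_of_exponent_ge hδ hδ1
  linarith

/-- existence of a small base -/
theorem exists_base {c₀ : ℝ} (hc₀ : 0 < c₀) (A B κ : ℝ) (hκ : 0 < κ) :
    ∃ x : ℝ, 0 < x ∧ x < c₀ ∧ x * (A + B * Real.log (1 / x)) ≤ κ := by
  have h1 : Filter.Tendsto (fun x : ℝ => x * A + (-B) * (Real.log x * x ^ (1:ℝ)))
      (nhdsWithin 0 (Ioi 0)) (nhds (0 * A + (-B) * 0)) := by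
    apply Filter.Tendsto.add
    · exact (Filter.tendsto_id.mono_left nhdsWithin_le_nhds).mul_const A
    · exact (tendsto_log_mul_rpow_nhdsGT_zero one_pos).const_mul _
  have h2 : ∀ᶠ x : ℝ in nhdsWithin 0 (Ioi 0), x * A + (-B) * (Real.log x * x ^ (1:ℝ)) < κ := by
    apply h1.eventually_lt_const
    simpa using hκ
  have h3 : ∀ᶠ x : ℝ in nhdsWithin 0 (Ioi 0), x ∈ Ioo 0 c₀ := Ioo_mem_nhdsGT hc₀
  obtain ⟨x, hx1, hx2⟩ := (h2.and h3).exists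
  refine ⟨x, hx2.1, hx2.2, ?_⟩
  rw [one_div, Real.log_inv]
  rw [Real.rpow_one] at hx1
  nlinarith


theorem hausdorffMeasure_Union {K : Set (EuclideanSpace ℝ (Fin n))} {s : ℝ} (hs : 0 ≤ s) (hK : μH[s] K = 0)
    (R₀ ν lam ρ : ℝ) (T : Finset (EuclideanSpace ℝ (Fin n))) (w : (EuclideanSpace ℝ (Fin n)) → (EuclideanSpace ℝ (Fin n))) : μH[s] (Union K R₀ ν lam ρ T w) = 0 := by
  unfold Union
  refine (measure_biUnion_null_iff (Finset.countable_toSet T)).2 ?_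
  intro u _
  have h1 : (fun z => w u + z) '' Piece K R₀ ν lam ρ u =
      (IsometryEquiv.addLeft (w u)) '' Piece K R₀ ν lam ρ u := rfl
  rw [h1, IsometryEquiv.hausdorffMeasure_image]
  exact hausdorffMeasure_Piece hs hK R₀ ν lam ρ u

theorem log_card_le {D₁ D₂ : Finset (EuclideanSpace ℝ (Fin n))} {R₁ θ ζ x : ℝ} {m : ℕ} (hR₁ : 0 ≤ R₁) (hx : 0 < x)
    (hζ : 0 < ζ) (hθ : θ = x ^ (2 * m + 2) * ζ) (hθ1 : θ ≤ 1) (hne₁ : D₁.Nonempty)
    (hne₂ : D₂.Nonempty)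
    (h₁ : (D₁.card : ℝ) ≤ (1 + 2 * R₁ / (θ / 4)) ^ n)
    (h₂ : (D₂.card : ℝ) ≤ (1 + 2 * 1 / (θ / 4)) ^ n) :
    Real.log (2 * (D₁.card * D₂.card)) ≤
      (Real.log 2 + n * Real.log (9 * (1 + 8 * R₁)) - 2 * n * Real.log ζ) +
        (2 * n * (2 * m + 2)) * Real.log (1 / x) := by
  have hθ0 : 0 < θ := by rw [hθ]; positivity
  have e1 : (1 + 2 * R₁ / (θ / 4)) ≤ (1 + 8 * R₁) / θ := by
    rw [show 2 * R₁ / (θ / 4) = 8 * R₁ / θ by field_simp; ring, add_div]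
    gcongr
    rw [le_div_iff₀ hθ0]; linarith
  have e2 : (1 + 2 * 1 / (θ / 4)) ≤ 9 / θ := by
    rw [show (2:ℝ) * 1 / (θ / 4) = 8 / θ by field_simp; ring, show (9:ℝ) = 1 + 8 by norm_num, add_div]
    gcongr
    rw [le_div_iff₀ hθ0]; linarith
  have p1 : (0:ℝ) < D₁.card := by exact_mod_cast hne₁.card_pos
  have p2 : (0:ℝ) < D₂.card := by exact_mod_cast hne₂.card_pos
  have h3 : (2:ℝ) * (D₁.card * D₂.card) ≤ 2 * ((9 * (1 + 8 * R₁)) ^ n * ((1 / θ) ^ 2) ^ n) := by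
    have : (9 * (1 + 8 * R₁)) ^ n * ((1 / θ) ^ 2) ^ n = ((1 + 8 * R₁) / θ) ^ n * (9 / θ) ^ n := by
      rw [← mul_pow, ← mul_pow]; congr 1; field_simp
    rw [this]
    gcongr
    · exact h₁.trans (by gcongr)
    · exact h₂.trans (by gcongr)
  have h4 := Real.log_le_log (by positivity) h3
  refine h4.trans (le_of_eq ?_)
  rw [Real.log_mul (by norm_num) (by positivity), Real.log_mul (by positivity) (by positivity),
    Real.log_pow, Real.log_pow, Real.log_pow, one_div, Real.log_inv, hθ,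
    Real.log_mul (x := x ^ (2 * m + 2)) (y := ζ) (by positivity) (by positivity), Real.log_pow,
    one_div, Real.log_inv]
  push_cast
  ring

theorem final_ineq {x ε c₇ N : ℝ} {m : ℕ} (hn : 1 ≤ n) (hx : 0 < x) (hx1 : x ≤ 1) (hm : 1 ≤ m)
    (hmε : (n : ℝ) ≤ m * ε) (hxc : x ≤ c₇) (h : c₇ ≤ N * (x ^ (2 * m - 1)) ^ (n - 1)) :
    (x ^ m) ^ (-(2 * ((n:ℝ) - 1) - ε)) ≤ N := by
  have h1 : x * ((x ^ (2 * m - 1)) ^ (n - 1))⁻¹ ≤ N := by
    have hpos : 0 < (x ^ (2 * m - 1)) ^ (n - 1) := by positivity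
    rw [← div_eq_mul_inv, div_le_iff₀ hpos]
    exact hxc.trans h
  refine le_trans ?_ h1
  have h2 : x * ((x ^ (2 * m - 1)) ^ (n - 1))⁻¹ =
      x ^ ((1:ℝ) - (2 * m - 1) * ((n:ℝ) - 1)) := by
    rw [Real.rpow_sub hx, Real.rpow_one, div_eq_mul_inv, ← pow_mul, ← Real.rpow_natCast]
    congr 3
    rw [Nat.cast_mul, Nat.cast_sub (by omega), Nat.cast_sub (by omega)]
    push_cast
    ring
  rw [h2, ← Real.rpow_natCast, ← Real.rpow_mul hx.le]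
  apply Real.rpow_le_rpow_of_exponent_ge hx hx1
  nlinarith

theorem aux1 {η : ℝ} (h0 : 0 < η) (h1 : η ≤ 1) : (1 + η / 16) * (1 + η / 16) ≤ 1 + η / 4 := by
  nlinarith

theorem aux2 {η : ℝ} (h0 : 0 < η) (h1 : η ≤ 1) : ((1 + η / 16)⁻¹) ^ 2 + (η / 16) ^ 2 ≤ 1 := by
  have e1 : ((1 + η / 16)⁻¹) ^ 2 ≤ 1 - η / 16 := by
    rw [inv_pow, inv_le_comm₀ (by positivity) (by linarith)]
    rw [inv_le_iff_one_le_mul₀ (by linarith)]
    nlinarith [sq_nonneg η]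
  have e2 : (η / 16) ^ 2 ≤ η / 16 := by nlinarith
  linarith

theorem aux3 {δ y x : ℝ} (hδ : 0 < δ) (hy : y ≤ x) (hx : x ≤ 1 / 3) : 3 * (δ * y) ≤ δ := by
  nlinarith

theorem aux4 {ρ R : ℝ} (h0 : 0 ≤ ρ) (h1 : 0 ≤ R) : ρ ≤ ρ * (R + 1) := by nlinarith

theorem aux5 {a b : ℝ} (h0 : 0 ≤ b) (h1 : a ≤ 1) : a * b ≤ b := by nlinarith

theorem aux6 {ρ x R₀ η : ℝ} (h0 : ρ ≤ x) (hx : 0 < x) (h1 : 0 ≤ R₀)
    (h2 : x * (16 * (R₀ + 1)) ≤ η) : ρ * R₀ ≤ η / 16 := by nlinarith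

theorem aux7 {x : ℝ} (hx : 0 < x) (hx1 : x ≤ 1) : x ^ 2 ≤ x ∧ x ^ 2 ≤ 1 := by
  constructor <;> nlinarith

set_option maxHeartbeats 4000000 in
theorem step_core (hn : 2 ≤ n) {K₀ : Set (EuclideanSpace ℝ (Fin n))}
    (hK₀ : IsKakeya K₀) (hvol : volume K₀ = 0) {O : Set (EuclideanSpace ℝ (Fin n))} (hO : GoodOpen O) {ε : ℝ} (hε : 0 < ε)
    (hε1 : ε ≤ 1) :
    ∃ K' : Set (EuclideanSpace ℝ (Fin n)), IsCompact K' ∧ K' ⊆ O ∧ (∀ e : (EuclideanSpace ℝ (Fin n)), ‖e‖ = 1 → HasSeg K' e) ∧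
      (∀ s : ℝ, 0 ≤ s → μH[s] K₀ = 0 → μH[s] K' = 0) ∧
        ∃ θ δ : ℝ, 0 < θ ∧ 0 < δ ∧ δ < ε ∧ Scatter (cthickening θ K') ε δ := by
  classical
  have hn1 : 1 ≤ n := by omega
  have hsv := smallV_pos n
  have hbv := bigV_pos n
  have hnc := netC_pos n
  -- margin
  obtain ⟨η, hη, hη1, hmargin⟩ := exists_uniform_margin hO
  choose! X hX using hmargin
  -- bounds
  obtain ⟨RO', hRO'⟩ := hO.2.1.subset_closedBall (0 : (EuclideanSpace ℝ (Fin n)))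
  obtain ⟨RO, hRO0, hRO⟩ : ∃ RO : ℝ, 0 ≤ RO ∧ ∀ z ∈ O, ‖z‖ ≤ RO :=
    ⟨max RO' 0, le_max_right _ _, fun z hz => by
      have := hRO' hz
      rw [mem_closedBall_zero_iff] at this
      exact this.trans (le_max_left _ _)⟩
  obtain ⟨R', hR'⟩ := hK₀.1.isBounded.subset_closedBall (0 : (EuclideanSpace ℝ (Fin n)))
  obtain ⟨R₀, hR₀, hKR⟩ : ∃ R₀ : ℝ, 0 ≤ R₀ ∧ ∀ z ∈ K₀, ‖z‖ ≤ R₀ :=
    ⟨max R' 0, le_max_right _ _, fun z hz => by
      have := hR' hz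
      rw [mem_closedBall_zero_iff] at this
      exact this.trans (le_max_left _ _)⟩
  obtain ⟨R₁, hR₁def⟩ : ∃ z₀ : ℝ, z₀ = RO + 1 := ⟨_, rfl⟩
  have hR₁ : 0 < R₁ := by linarith
  -- constants
  obtain ⟨c, hc⟩ : ∃ z₀ : ℝ, z₀ = η / 16 := ⟨_, rfl⟩
  have hcpos : 0 < c := by rw [hc]; positivity
  obtain ⟨lam, hlamdef⟩ : ∃ z₀ : ℝ, z₀ = 1 + η / 16 := ⟨_, rfl⟩
  have hlam : 1 ≤ lam := by rw [hlamdef]; linarith
  obtain ⟨M, hM⟩ : ∃ z₀ : ℝ, z₀ = (numCuts R₀ c : ℝ) := ⟨_, rfl⟩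
  have hMpos : 0 < M := by rw [hM]; unfold numCuts; positivity
  have hlam0 : 0 < lam := by linarith
  obtain ⟨w₀, hw₀def⟩ : ∃ z₀ : ℝ, z₀ = (1 / 16) * ((η / 4) ^ n * smallV n) / (netC n * (2 / c) ^ (n - 1) * (lam * M)) := ⟨_, rfl⟩
  have hw₀ : 0 < w₀ := by rw [hw₀def]; positivity
  have hsmall : netC n * (2 / c) ^ (n - 1) * (lam * (M * w₀)) ≤
      (1 / 16) * ((η / 4) ^ n * smallV n) := by
    apply le_of_eq
    rw [hw₀def]
    field_simp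
  have hlam1 : lam * (1 + c) ≤ 1 + η / 4 := by
    rw [hlamdef, hc]; exact aux1 hη hη1
  have hlam2 : lam * (1 + c) ≤ 2 := by linarith
  have hlamc : (lam⁻¹) ^ 2 + c ^ 2 ≤ 1 := by
    rw [hlamdef, hc]; exact aux2 hη hη1
  obtain ⟨W, hKW, hWo, hWv⟩ := K₀.exists_isOpen_lt_of_lt (μ := volume) (ENNReal.ofReal w₀)
    (by rw [hvol]; exact ENNReal.ofReal_pos.2 hw₀)
  obtain ⟨ζ', hζ', hζsub⟩ := hK₀.1.exists_cthickening_subset_open hWo hKW
  obtain ⟨ζ, hζ, hζ1, hWζ⟩ : ∃ ζ : ℝ, 0 < ζ ∧ ζ ≤ 1 ∧ ∀ z ∈ K₀, closedBall z ζ ⊆ W := by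
    refine ⟨min ζ' 1, lt_min hζ' one_pos, min_le_right _ _, ?_⟩
    intro z hz y hy
    apply hζsub
    rw [mem_closedBall] at hy
    exact mem_cthickening_of_dist_le y z _ _ hz (hy.trans (min_le_left _ _))
  obtain ⟨m, hmdef⟩ : ∃ z₀ : ℕ, z₀ = ⌈(n : ℝ) / ε⌉₊ + 1 := ⟨_, rfl⟩
  have hm1 : 1 ≤ m := by omega
  have hmε : (n : ℝ) ≤ m * ε := by
    have h1 : (n : ℝ) / ε ≤ m := by
      rw [hmdef]; push_cast
      linarith [Nat.le_ceil ((n : ℝ) / ε)]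
    rwa [div_le_iff₀ hε] at h1
  obtain ⟨Cp, hCp⟩ : ∃ z₀ : ℝ, z₀ = 3 * R₁ + 20 := ⟨_, rfl⟩
  have hCppos : 0 < Cp := by rw [hCp]; positivity
  obtain ⟨C₅, hC₅⟩ : ∃ z₀ : ℝ, z₀ = 2 * netC n * (4 * Cp / c) ^ (n - 1) * ((η / 4) * bigV n) /
    ((η / 4) ^ n * smallV n) := ⟨_, rfl⟩
  have hC₅pos : 0 < C₅ := by rw [hC₅]; positivity
  obtain ⟨c₇, hc₇⟩ : ∃ z₀ : ℝ, z₀ = (ε / 4) ^ n * smallV n / (12 * C₅ * 16 ^ (n - 1) * bigV n) := ⟨_, rfl⟩
  have hc₇pos : 0 < c₇ := by rw [hc₇]; positivity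
  obtain ⟨A, hA⟩ : ∃ z₀ : ℝ, z₀ = Real.log 2 + n * Real.log (9 * (1 + 8 * R₁)) - 2 * n * Real.log ζ := ⟨_, rfl⟩
  obtain ⟨κ, hκ⟩ : ∃ z₀ : ℝ, z₀ = min (1 / (16 * (R₀ + 1))) C₅ := ⟨_, rfl⟩
  have hκpos : 0 < κ := by rw [hκ]; exact lt_min (by positivity) hC₅pos
  have hκ1 : κ ≤ 1 / (16 * (R₀ + 1)) := by rw [hκ]; exact min_le_left _ _
  have hκ2 : κ ≤ C₅ := by rw [hκ]; exact min_le_right _ _
  obtain ⟨c₀, hc₀⟩ : ∃ z₀ : ℝ, z₀ = min (min ε (1 / 3)) (min (min (1 / (R₀ + 1)) (η / (16 * (R₀ + 1)))) c₇) := ⟨_, rfl⟩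
  have hc₀pos : 0 < c₀ := by
    rw [hc₀]
    exact lt_min (lt_min hε (by norm_num)) (lt_min (lt_min (by positivity) (by positivity)) hc₇pos)
  obtain ⟨x, hx, hxc₀, hxlog⟩ := exists_base hc₀pos A (2 * n * (2 * m + 2)) κ hκpos
  rw [hc₀] at hxc₀
  have hxε : x < ε := hxc₀.trans_le ((min_le_left _ _).trans (min_le_left _ _))
  have hx3 : x < 1 / 3 := hxc₀.trans_le ((min_le_left _ _).trans (min_le_right _ _))
  have hxR : x < 1 / (R₀ + 1) := hxc₀.trans_le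
    ((min_le_right _ _).trans ((min_le_left _ _).trans (min_le_left _ _)))
  have hxη : x < η / (16 * (R₀ + 1)) := hxc₀.trans_le
    ((min_le_right _ _).trans ((min_le_left _ _).trans (min_le_right _ _)))
  have hxc₇ : x < c₇ := hxc₀.trans_le ((min_le_right _ _).trans (min_le_right _ _))
  have hx1 : x ≤ 1 := by linarith
  have hxR' : x * (R₀ + 1) ≤ 1 := by
    rw [lt_div_iff₀ (by positivity)] at hxR; exact hxR.le
  -- scales
  obtain ⟨ρ, hρdef⟩ : ∃ z₀ : ℝ, z₀ = x ^ (2 * m + 2) := ⟨_, rfl⟩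
  obtain ⟨α, hαdef⟩ : ∃ z₀ : ℝ, z₀ = x ^ (2 * m + 1) := ⟨_, rfl⟩
  obtain ⟨δ, hδdef⟩ : ∃ z₀ : ℝ, z₀ = x ^ m := ⟨_, rfl⟩
  obtain ⟨θ, hθdef⟩ : ∃ z₀ : ℝ, z₀ = ρ * ζ := ⟨_, rfl⟩
  have hρ : 0 < ρ := by rw [hρdef]; positivity
  have hα : 0 < α := by rw [hαdef]; positivity
  have hδ : 0 < δ := by rw [hδdef]; positivity
  have hθ : 0 < θ := by rw [hθdef]; positivity
  have hρα : ρ = α * x := by rw [hρdef, hαdef, ← pow_succ]
  have hρ1 : ρ ≤ 1 := by rw [hρdef]; exact pow_le_one₀ hx.le hx1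
  have hδx : δ ≤ x := by
    calc δ = x ^ m := hδdef
      _ ≤ x ^ 1 := pow_le_pow_of_le_one hx.le hx1 hm1
      _ = x := pow_one x
  have hρx : ρ ≤ x := by
    calc ρ = x ^ (2 * m + 2) := hρdef
      _ ≤ x ^ 1 := pow_le_pow_of_le_one hx.le hx1 (by omega)
      _ = x := pow_one x
  have hαδ : 3 * α ≤ δ := by
    have h1 : α = δ * x ^ (m + 1) := by
      rw [hαdef, hδdef, ← pow_add]; congr 1; omega
    have h2 : x ^ (m + 1) ≤ x := by
      calc x ^ (m + 1) ≤ x ^ 1 := pow_le_pow_of_le_one hx.le hx1 (by omega)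
        _ = x := pow_one x
    rw [h1]
    exact aux3 hδ h2 hx3.le
  have hρα' : ρ * (R₀ + 1) ≤ α := by
    rw [hρα, mul_assoc]
    calc α * (x * (R₀ + 1)) ≤ α * 1 := by gcongr
      _ = α := mul_one α
  have hρδ : ρ ≤ δ := by
    have : ρ ≤ α := le_trans (aux4 hρ.le hR₀) hρα'
    linarith
  have hc1 : c ≤ 1 := by rw [hc]; linarith
  have hcρ : c * ρ ≤ ρ := aux5 hρ.le hc1
  have hcρ1 : c * ρ ≤ 1 := hcρ.trans hρ1
  have hcρδ : c * ρ ≤ 4 * δ := by linarith only [hcρ, hρδ, hδ]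
  have hρR₀ : ρ * R₀ ≤ η / 16 := by
    have h1 : x * (16 * (R₀ + 1)) ≤ η := by
      rw [lt_div_iff₀ (by positivity)] at hxη; exact hxη.le
    exact aux6 hρx hx hR₀ h1
  have hθρ : θ ≤ ρ := by rw [hθdef, mul_comm]; exact aux5 hρ.le hζ1
  have hθ1 : θ ≤ 1 := hθρ.trans hρ1
  -- nets
  obtain ⟨T, hT, hTsep, hTcov⟩ := exists_net (sphere (0 : (EuclideanSpace ℝ (Fin n))) 1) (R := 1) (r := c * ρ)
    zero_le_one (by positivity) (fun z hz => by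
      rw [mem_sphere_zero_iff_norm] at hz; exact hz.le)
  have hT1 : ∀ u ∈ T, ‖u‖ = 1 := fun u hu => by simpa using hT u hu
  obtain ⟨D₁, hD₁, hD₁sep, hD₁cov⟩ := exists_net (closedBall (0 : (EuclideanSpace ℝ (Fin n))) R₁) (R := R₁) (r := θ / 4)
    hR₁.le (by positivity) (fun z hz => by rwa [mem_closedBall_zero_iff] at hz)
  obtain ⟨D₂, hD₂, hD₂sep, hD₂cov⟩ := exists_net (sphere (0 : (EuclideanSpace ℝ (Fin n))) 1) (R := 1) (r := θ / 4)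
    zero_le_one (by positivity) (fun z hz => by
      rw [mem_sphere_zero_iff_norm] at hz; exact hz.le)
  have hD₂1 : ∀ u ∈ D₂, ‖u‖ = 1 := fun u hu => by simpa using hD₂ u hu
  have : Nontrivial (EuclideanSpace ℝ (Fin n)) := by
    have : Nonempty (Fin n) := ⟨⟨0, by omega⟩⟩
    infer_instance
  obtain ⟨e₁, he₁⟩ := exists_norm_eq (EuclideanSpace ℝ (Fin n)) (zero_le_one (α := ℝ))
  have hD₁ne : D₁.Nonempty := by
    obtain ⟨d, hd, _⟩ := hD₁cov 0 (by rw [mem_closedBall_zero_iff, norm_zero]; exact hR₁.le)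
    exact ⟨d, hd⟩
  have hD₂ne : D₂.Nonempty := by
    obtain ⟨d, hd, _⟩ := hD₂cov e₁ (by simpa using he₁)
    exact ⟨d, hd⟩
  have hlog := log_card_le (n := n) hR₁.le hx hζ (m := m) (θ := θ) (by rw [hθdef, hρdef]) hθ1
    hD₁ne hD₂ne
    (card_le_of_separated D₁ hR₁.le (by positivity) (fun d hd => by
      have := hD₁ d hd; rwa [mem_closedBall_zero_iff] at this) hD₁sep)
    (card_le_of_separated D₂ zero_le_one (by positivity) (fun d hd => (hD₂1 d hd).le) hD₂sep)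
  rw [← hA] at hlog
  obtain ⟨Λ, hΛ⟩ : ∃ z₀ : ℝ, z₀ = Real.log (2 * (D₁.card * D₂.card)) := ⟨_, rfl⟩
  rw [← hΛ] at hlog
  have hxΛ : x * Λ ≤ κ := (mul_le_mul_of_nonneg_left hlog hx.le).trans hxlog
  have hlogA : (2 * (ρ * (R₀ + 1)) / α) * Λ ≤ 1 / 8 := by
    have h1 : (2 * (ρ * (R₀ + 1)) / α) * Λ = 2 * (R₀ + 1) * (x * Λ) := by
      rw [hρα]; field_simp
    rw [h1]
    calc 2 * (R₀ + 1) * (x * Λ) ≤ 2 * (R₀ + 1) * (1 / (16 * (R₀ + 1))) := by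
          gcongr
          exact hxΛ.trans hκ1
      _ = 1 / 8 := by field_simp; norm_num
  have hδρ : δ ^ 2 / ρ = (x ^ 2)⁻¹ := by
    rw [hδdef, hρdef, ← pow_mul, div_eq_iff (by positivity), pow_add, mul_comm m 2]
    field_simp
  obtain ⟨m_b, hm_b⟩ : ∃ z₀ : ℝ, z₀ = C₅ * (δ ^ 2 / ρ) ^ (n - 1) := ⟨_, rfl⟩
  have hlogB : Λ ≤ m_b := by
    have h1 : x * Λ ≤ C₅ := hxΛ.trans hκ2
    have h2 : Λ ≤ C₅ * x⁻¹ := by
      rw [← div_eq_mul_inv, le_div_iff₀ hx]; linarith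
    refine h2.trans ?_
    rw [hm_b, hδρ]
    gcongr
    have h3 : x⁻¹ ≤ (x ^ 2)⁻¹ := by
      apply inv_anti₀ (by positivity)
      exact (aux7 hx hx1).1
    have h4 : (1:ℝ) ≤ (x ^ 2)⁻¹ := by
      rw [one_le_inv₀ (by positivity)]
      exact (aux7 hx hx1).2
    calc x⁻¹ ≤ (x ^ 2)⁻¹ := h3
      _ = ((x ^ 2)⁻¹) ^ 1 := (pow_one _).symm
      _ ≤ ((x ^ 2)⁻¹) ^ (n - 1) := pow_le_pow_right₀ h4 (by omega)
  have hm : 2 * (netC n * (4 * δ / (c * ρ)) ^ (n - 1)) * ((η / 4) * (Cp * δ) ^ (n - 1) * bigV n) ≤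
      m_b * ((η / 4) ^ n * smallV n) := by
    apply le_of_eq
    have h1 : (4 * δ / (c * ρ)) ^ (n - 1) * (Cp * δ) ^ (n - 1) =
        (4 * Cp / c) ^ (n - 1) * (δ ^ 2 / ρ) ^ (n - 1) := by
      rw [← mul_pow, ← mul_pow]; congr 1; field_simp
    calc _ = 2 * netC n * ((4 * δ / (c * ρ)) ^ (n - 1) * (Cp * δ) ^ (n - 1)) *
          ((η / 4) * bigV n) := by ring
      _ = 2 * netC n * ((4 * Cp / c) ^ (n - 1) * (δ ^ 2 / ρ) ^ (n - 1)) *
          ((η / 4) * bigV n) := by rw [h1]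
      _ = _ := by
        rw [hm_b, hC₅]
        field_simp
  obtain ⟨v, hv, hcovA, hcovB⟩ := exists_positions (n := n) hn1 hK₀.1 (R₀ := R₀) (ν := c)
    (lam := lam) (ρ := ρ) (ζ := ζ) (θ := θ) (α := α) (δ := δ) (η := η) (c := c) (Cp := Cp)
    (w₀ := w₀) (m_b := m_b) (W := W) hR₀ hlam hlam2 hρ hρ1 hθ.le hθdef.le hζ1 hα hδ hη
    hcpos hcρ1 hcρδ hCppos hw₀.le hKR hWζ hWv.le (hM ▸ hsmall) T hT1 hTsep X D₁ D₂ hD₁ne hD₂ne
    hD₂1 (hΛ ▸ hlogA) (hΛ ▸ hlogB) hm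
  obtain ⟨w, hw⟩ : ∃ z₀ : (EuclideanSpace ℝ (Fin n)) → (EuclideanSpace ℝ (Fin n)), z₀ = fun u => X u + v u := ⟨_, rfl⟩
  obtain ⟨K', hK'⟩ : ∃ z₀ : Set (EuclideanSpace ℝ (Fin n)), z₀ = Union K₀ R₀ c lam ρ T w := ⟨_, rfl⟩
  have hK'c : IsCompact K' := by rw [hK']; exact isCompact_Union hK₀.1 _ _ _ _ _ _
  have hK'O : K' ⊆ O := by
    rw [hK', hw]
    exact Union_subset hlam hlam1 hρ.le hρR₀ hη hKR hT1 (fun u hu => hX u (hT1 u hu)) hv
  have hK'seg : ∀ e : (EuclideanSpace ℝ (Fin n)), ‖e‖ = 1 → HasSeg K' e := by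
    intro e he
    obtain ⟨u, hu, hd⟩ := hTcov e (by simpa using he)
    obtain ⟨y, hy⟩ := Piece_hasSeg hK₀ (R₀ := R₀) (ν := c) hcpos (by linarith) hρ hcρ1 hlamc hKR
      (hT1 u hu) he hd
    refine ⟨w u + y, fun t ht => ?_⟩
    rw [hK']
    unfold Union
    refine mem_iUnion₂.2 ⟨u, hu, y + t • e, hy t ht, ?_⟩
    show w u + (y + t • e) = w u + y + t • e
    abel
  have hK'bound : cthickening (θ / 4) K' ⊆ closedBall 0 R₁ := by
    rw [hK'c.cthickening_eq_biUnion_closedBall (by positivity)]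
    intro z hz
    obtain ⟨y, hy, hzy⟩ := mem_iUnion₂.1 hz
    rw [mem_closedBall, dist_eq_norm] at hzy
    rw [mem_closedBall_zero_iff]
    have h1 := hRO y (hK'O hy)
    calc ‖z‖ = ‖(z - y) + y‖ := by congr 1; abel
      _ ≤ ‖z - y‖ + ‖y‖ := norm_add_le _ _
      _ ≤ R₁ := by linarith
  refine ⟨K', hK'c, hK'O, hK'seg, ?_, θ / 4, δ, by positivity, hδ, hδx.trans_lt hxε, ?_⟩
  · intro s hs hμ
    rw [hK']; exact hausdorffMeasure_Union hs hμ _ _ _ _ _ _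
  · intro e₀ he₀ L hL hcap F hF
    obtain ⟨D, hDS, hDsep, hDcov⟩ := exists_net {e : (EuclideanSpace ℝ (Fin n)) | ‖e‖ = 1 ∧ dist e e₀ < ε} (R := 1)
      (r := 8 * α) zero_le_one (by positivity) (fun z hz => hz.1.le)
    have hcount := card_le_of_cover hK₀.1 (R₀ := R₀) (ν := c) (lam := lam) (ρ := ρ) (θ := θ)
      (α := α) (δ := δ) (R₁ := R₁) (m_b := m_b) hR₀ (by linarith) hlam2 hρ hρ1 hθ hθρ hρα' hαδ
      hKR hT1 (w := w) hD₁ne hD₂ne hD₂1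
      (fun y hy => hD₁cov y (by rwa [mem_closedBall_zero_iff]))
      (fun e he => hD₂cov e (by simpa using he)) (by rw [hw]; exact hcovA)
      (by rw [hw, ← hCp]; exact hcovB) (by rw [← hK']; exact hK'bound)
      (C := cthickening (θ / 4) K') (by rw [← hK']) hL (D := D)
      (fun e he => hcap e (hDS e he).1 (hDS e he).2) hDsep hF
    have hcapc := le_card_cap hn1 D (r := 8 * α) (by positivity) hε hε1 (fun d hd => (hDS d hd).1)
      he₀ (fun e he hd => hDcov e ⟨he, hd⟩)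
    rw [hδdef]
    apply final_ineq hn1 hx hx1 hm1 hmε hxc₇.le
    have hαδρ : δ ^ 2 / ρ * α = x ^ (2 * m - 1) := by
      rw [hδρ, hαdef, inv_mul_eq_iff_eq_mul₀ (by positivity), ← pow_add]
      congr 1; omega
    rw [hc₇, div_le_iff₀ (by positivity), ← hαδρ]
    calc (ε / 4) ^ n * smallV n ≤ (D.card : ℝ) * (2 * (2 * (8 * α)) ^ (n - 1) * bigV n) := hcapc
      _ ≤ ((F.card : ℝ) * (6 * m_b)) * (2 * (2 * (8 * α)) ^ (n - 1) * bigV n) := by gcongr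
      _ = _ := by
        rw [hm_b, mul_pow (δ ^ 2 / ρ) α, show (2 * (8 * α)) = 16 * α by ring, mul_pow 16 α]
        ring

theorem LinesIn_mono {C C' : Set (EuclideanSpace ℝ (Fin n))} (h : C ⊆ C') {L : Set ((EuclideanSpace ℝ (Fin n)) × (EuclideanSpace ℝ (Fin n)))} (hL : LinesIn C L) :
    LinesIn C' L := fun q hq => by
  obtain ⟨h1, h2, a, h3⟩ := hL q hq
  exact ⟨h1, h2, a, fun t ht => h (h3 t ht)⟩

theorem Scatter_anti {C C' : Set (EuclideanSpace ℝ (Fin n))} {ε δ : ℝ} (h : Scatter C' ε δ) (hC : C ⊆ C') :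
    Scatter C ε δ :=
  fun e₀ he₀ L hL hcap F hF => h e₀ he₀ L (LinesIn_mono hC hL) hcap F hF

/-- Passing from the compact set to a small open neighbourhood. -/
theorem exists_goodOpen {K' O : Set (EuclideanSpace ℝ (Fin n))} (hK' : IsCompact K') (hO : GoodOpen O) (hK'O : K' ⊆ O)
    (hseg : ∀ e : (EuclideanSpace ℝ (Fin n)), ‖e‖ = 1 → HasSeg K' e) {r : ℝ} (hr : 0 < r) :
    ∃ O' : Set (EuclideanSpace ℝ (Fin n)), GoodOpen O' ∧ closure O' ⊆ O ∧ closure O' ⊆ cthickening r K' := by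
  obtain ⟨δ₂, hδ₂, hδ₂O⟩ := hK'.exists_cthickening_subset_open hO.1 hK'O
  obtain ⟨θ', hθ'⟩ : ∃ z₀ : ℝ, z₀ = min r δ₂ := ⟨_, rfl⟩
  have hθ'pos : 0 < θ' := by rw [hθ']; exact lt_min hr hδ₂
  have hθ'2 : θ' ≤ r := by rw [hθ']; exact min_le_left _ _
  have hθ'3 : θ' ≤ δ₂ := by rw [hθ']; exact min_le_right _ _
  have hclos : closure (thickening θ' K') ⊆ cthickening θ' K' :=
    closure_thickening_subset_cthickening _ _
  have hK'sub : K' ⊆ thickening θ' K' := self_subset_thickening hθ'pos _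
  refine ⟨thickening θ' K', ⟨isOpen_thickening, ?_, ?_⟩, ?_, ?_⟩
  · refine hO.2.1.subset ?_
    refine (thickening_subset_cthickening _ _).trans ?_
    exact (cthickening_mono hθ'3 _).trans hδ₂O
  · intro e he
    obtain ⟨y, hy⟩ := hseg e he
    exact ⟨y, fun t ht => hK'sub (hy t ht)⟩
  · exact hclos.trans ((cthickening_mono hθ'3 _).trans hδ₂O)
  · exact hclos.trans (cthickening_mono hθ'2 _)

theorem step (hn : 2 ≤ n) : StepStatement n := by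
  intro s K₀ hs hsn hK₀ hμ O hO ε hε
  obtain ⟨K', hK'c, hK'O, hseg, hμ', θ, δ, hθ, hδ, hδε, hsc⟩ := step_core hn hK₀
    (volume_eq_zero_of_hausdorffMeasure hsn.le hμ) hO (ε := min ε 1) (lt_min hε one_pos)
    (min_le_right _ _)
  obtain ⟨r, hr, hcont⟩ := exists_smallContent_cthickening hs hK'c (hμ' s hs.le hμ)
    (ε := ENNReal.ofReal ε) (ENNReal.ofReal_pos.2 hε)
  obtain ⟨O', hO', h1, h2⟩ := exists_goodOpen hK'c hO hK'O hseg (r := min r θ) (lt_min hr hθ)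
  obtain ⟨t, ht1, ht2⟩ := hcont
  exact ⟨O', hO', h1, ⟨t, (h2.trans (cthickening_mono (min_le_left _ _) _)).trans ht1, ht2⟩, δ, hδ,
    hδε.trans_le (min_le_left _ _),
    Scatter_mono (Scatter_anti hsc (h2.trans (cthickening_mono (min_le_right _ _) _)))
      (min_le_left _ _) hδ (hδε.le.trans (min_le_right _ _))⟩

/-- The step without control of the Hausdorff content. -/
theorem step0 (hn : 2 ≤ n) {K₀ : Set (EuclideanSpace ℝ (Fin n))} (hK₀ : IsKakeya K₀) (hvol : volume K₀ = 0)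
    {O : Set (EuclideanSpace ℝ (Fin n))} (hO : GoodOpen O) {ε : ℝ} (hε : 0 < ε) :
    ∃ O' : Set (EuclideanSpace ℝ (Fin n)), GoodOpen O' ∧ closure O' ⊆ O ∧
      ∃ δ : ℝ, 0 < δ ∧ δ < ε ∧ Scatter (closure O') ε δ := by
  obtain ⟨K', hK'c, hK'O, hseg, _, θ, δ, hθ, hδ, hδε, hsc⟩ := step_core hn hK₀ hvol hO
    (ε := min ε 1) (lt_min hε one_pos) (min_le_right _ _)
  obtain ⟨O', hO', h1, h2⟩ := exists_goodOpen hK'c hO hK'O hseg hθ
  exact ⟨O', hO', h1, δ, hδ, hδε.trans_le (min_le_left _ _),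
    Scatter_mono (Scatter_anti hsc h2) (min_le_left _ _) hδ (hδε.le.trans (min_le_right _ _))⟩

end Pool.Agent.KakeyaSticky
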